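import Mathlib

/-!
VA-A6. Residues of logarithmic derivatives at `γ = 0` in `F(γ)`.

Proof. `decomp`: elements of `F⟮γ⟯` are quotients `aeval γ A / aeval γ B` with `B ≠ 0`
(`IntermediateField.mem_adjoin_simple_iff`: `aeval γ r / aeval γ s`), `A ≠ 0` as `c ≠ 0` (and `B ≠ 0` as
`c ≠ 0`); write `A = X ^ a * P`, `B = X ^ b * Q` with `P.coeff 0 ≠ 0 ≠ Q.coeff 0` (`Polynomial.exists_eq_pow_rootMultiplicity_mul_and_not_dvd` at `0`,
or `Polynomial.divX`/`Polynomial.X_pow_dvd`, `natTrailingDegree`, e.g. `Polynomial.eraseLead`; the statement `X ∣ P ↔ P.coeff 0 = 0` is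
`Polynomial.X_dvd_iff`); `w = a - b`.
`residue_sum`: put `Pr = ∏ (P r * Q r)`. For `c r = γ ^ w r * aeval γ (P r) / aeval γ (Q r)`,
`D (c r) / c r = w r / γ + aeval γ (P r)' / aeval γ (P r) - aeval γ (Q r)' / aeval γ (Q r)` (`D (aeval γ P) = aeval γ P' * D γ`,
`Polynomial.map_aeval` / `Derivation.map_aeval`: `D (aeval γ P) = aeval γ (derivative P) • D γ`). Multiply the
hypothesis by `γ * aeval γ Pr`: an identity between values at `γ` of polynomials over `F`:
`∑ κ_r w_r Pr + X * (∑ κ_r (P_r' Q_r - P_r Q_r') ∏_{r' ≠ r} P_r' Q_r') = 0` at `γ`, so it holds in `F[X]` as `γ` is transcendental;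
the coefficient of `X ^ 0` is `(∑ κ_r w_r) * ∏ (P_r(0) Q_r(0)) = 0`.
(All the `aeval γ (P r)` are nonzero: `P r ≠ 0` and `γ` is transcendental; `γ ≠ 0`.)
-/

open Polynomial IntermediateField

namespace Pool.Agent.Helper85.VA

theorem decomp {F L : Type} [Field F] [Field L] [Algebra F L] (γ : L) (c : L) (hc : c ∈ F⟮γ⟯)
    (hγ : Transcendental F γ) (hc0 : c ≠ 0) :
    ∃ (w : ℤ) (P Q : F[X]), P.coeff 0 ≠ 0 ∧ Q.coeff 0 ≠ 0 ∧
      c = γ ^ w * (aeval γ P / aeval γ Q) := by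
  have key : ∀ A : F[X], A ≠ 0 → ∃ (a : ℕ) (P : F[X]), P.coeff 0 ≠ 0 ∧ A = X ^ a * P := by
    intro A hA
    obtain ⟨P, hP, hnd⟩ := exists_eq_pow_rootMultiplicity_mul_and_not_dvd A hA 0
    rw [C_0, sub_zero] at hnd
    refine ⟨A.rootMultiplicity 0, P, fun h => hnd (X_dvd_iff.2 h), ?_⟩
    calc A = (X - C 0) ^ rootMultiplicity 0 A * P := hP
      _ = _ := by rw [C_0, sub_zero]
  obtain ⟨r, s, hrs⟩ := (mem_adjoin_simple_iff F c).1 hc
  have hr0 : r ≠ 0 := by
    rintro rfl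
    exact hc0 (by rw [hrs]; simp)
  have hs0 : s ≠ 0 := by
    rintro rfl
    exact hc0 (by rw [hrs]; simp)
  obtain ⟨a, P, hP, hrP⟩ := key r hr0
  obtain ⟨b, Q, hQ, hsQ⟩ := key s hs0
  have hγ0 : γ ≠ 0 := fun h => hγ (h ▸ isAlgebraic_zero)
  refine ⟨(a : ℤ) - b, P, Q, hP, hQ, ?_⟩
  rw [hrs, hrP, hsQ, map_mul, map_mul, map_pow, map_pow, aeval_X, zpow_sub₀ hγ0, zpow_natCast,
    zpow_natCast, mul_div_mul_comm]

theorem residue_sum {F L : Type} [Field F] [Field L] [CharZero F] [Algebra F L] (γ : L)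
    (hγ : Transcendental F γ) (D : Derivation F L L) (hD : D γ = 1) {s : Type} [Fintype s]
    (w : s → ℤ) (P Q : s → F[X]) (hP : ∀ r, (P r).coeff 0 ≠ 0) (hQ : ∀ r, (Q r).coeff 0 ≠ 0)
    (κ : s → F)
    (h : ∑ r, algebraMap F L (κ r) *
      (D (γ ^ w r * (aeval γ (P r) / aeval γ (Q r))) /
        (γ ^ w r * (aeval γ (P r) / aeval γ (Q r)))) = 0) :
    ∑ r, κ r * (w r : F) = 0 := by
  classical
  have hγ0 : γ ≠ 0 := fun h => hγ (h ▸ isAlgebraic_zero)
  have hinj : ∀ A : F[X], aeval γ A = 0 → A = 0 := by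
    intro A hA
    by_contra hne
    exact hγ ⟨A, hne, hA⟩
  have hp : ∀ r, aeval γ (P r) ≠ 0 := fun r h0 => hP r (by rw [hinj _ h0]; simp)
  have hq : ∀ r, aeval γ (Q r) ≠ 0 := fun r h0 => hQ r (by rw [hinj _ h0]; simp)
  have hlog : ∀ r, D (γ ^ w r * (aeval γ (P r) / aeval γ (Q r))) /
        (γ ^ w r * (aeval γ (P r) / aeval γ (Q r))) =
      (w r : L) / γ + aeval γ (derivative (P r)) / aeval γ (P r) -
        aeval γ (derivative (Q r)) / aeval γ (Q r) := by
    intro r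
    have h1 := hp r
    have h2 := hq r
    have h3 : γ ^ w r ≠ 0 := zpow_ne_zero _ hγ0
    rw [D.leibniz, D.leibniz_div, D.leibniz_zpow, Derivation.map_aeval, Derivation.map_aeval, hD]
    simp only [smul_eq_mul, mul_one, zsmul_eq_mul]
    rw [zpow_sub_one₀ hγ0]
    field_simp
    ring
  set T : F[X] := ∑ r, C (κ r) * (C (w r : F) * ∏ r', (P r' * Q r') +
    X * ((derivative (P r) * Q r - P r * derivative (Q r)) *
      ∏ r' ∈ Finset.univ.erase r, (P r' * Q r'))) with hTdef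
  have hT : aeval γ T = 0 := by
    have e1 : aeval γ T = (γ * ∏ r', (aeval γ (P r') * aeval γ (Q r'))) *
        ∑ r, algebraMap F L (κ r) * (D (γ ^ w r * (aeval γ (P r) / aeval γ (Q r))) /
          (γ ^ w r * (aeval γ (P r) / aeval γ (Q r)))) := by
      rw [hTdef, map_sum, Finset.mul_sum]
      refine Finset.sum_congr rfl fun r _ => ?_
      rw [hlog r]
      have h1 := hp r
      have h2 := hq r
      have e2 : ∏ r', (aeval γ (P r') * aeval γ (Q r')) = (aeval γ (P r) * aeval γ (Q r)) *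
          ∏ r' ∈ Finset.univ.erase r, (aeval γ (P r') * aeval γ (Q r')) :=
        (Finset.mul_prod_erase _ _ (Finset.mem_univ r)).symm
      simp only [map_mul, map_add, map_sub, aeval_C, aeval_X, map_prod, map_intCast]
      rw [e2]
      field_simp
      ring
    rw [e1, h, mul_zero]
  have hT0 := hinj T hT
  have hc := congrArg (fun A : F[X] => A.coeff 0) hT0
  simp only [hTdef, finset_sum_coeff, coeff_zero] at hc
  have e3 : ∀ r ∈ (Finset.univ : Finset s), (C (κ r) * (C (w r : F) * ∏ r', (P r' * Q r') +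
    X * ((derivative (P r) * Q r - P r * derivative (Q r)) *
      ∏ r' ∈ Finset.univ.erase r, (P r' * Q r')))).coeff 0 =
      κ r * (w r : F) * ∏ r', ((P r').coeff 0 * (Q r').coeff 0) := by
    intro r _
    rw [coeff_C_mul, coeff_add, coeff_C_mul, mul_coeff_zero, coeff_X_zero, zero_mul, add_zero,
      coeff_zero_prod]
    simp only [mul_coeff_zero]
    ring
  rw [Finset.sum_congr rfl e3, ← Finset.sum_mul] at hc
  refine (mul_eq_zero.1 hc).resolve_right ?_
  exact Finset.prod_ne_zero_iff.2 fun r _ => mul_ne_zero (hP r) (hQ r)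

end Pool.Agent.Helper85.VA
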