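import Pool.Agent.Helper85.VA.TraceLog
import Pool.Agent.Helper85.VA.Residue
import Pool.Agent.Helper50.Forms.Basic

/-!
VA-A7. LEMMA V: integrality of linear relations between logarithmic differentials.

Proof.
1. `{g1}` is algebraically independent over `K`, so it is contained in a transcendence basis `t ⊆ L`
   (`exists_isTranscendenceBasis_superset`). `Pool.Agent.Helper50.Forms.exists_kaehler_basis_aux` (with `y : t → L` the inclusion)
   gives a basis `b` of `Ω[L⁄K]` with `b i = D y_i`; the derivation `D = (b.coord g1).compDer (KaehlerDifferential.D K L)`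
   satisfies `D g1 = 1` and `D y = 0` for `y ∈ t`, `y ≠ g1` (as in `Pool.Agent.Helper92.HA.exists_derivations`).
2. `F = IntermediateField.adjoin K (t \ {g1})`. `D` vanishes on `F` (`IntermediateField.adjoin_induction`). `g1` is transcendental
   over `F`: otherwise, with `p = minpoly F g1` (separable), `0 = D (p(g1)) = p'(g1) D g1 + (terms D(coefficients) = 0) = p'(g1)`, and
   `p'(g1) ≠ 0`: contradiction. So `D` is a derivation over `F`: `D' : Derivation F L L` (additive, Leibniz rule, zero on `F`).
3. `E = F⟮g1⟯` (`IntermediateField F L`) contains `t`, so `L` is algebraic over `E` (`IsTranscendenceBasis.isAlgebraic`), and `L` is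
   essentially of finite type over `K`, so over `E` (`Algebra.EssFiniteType.of_comp`), so `L` is finite dimensional over `E` (Mathlib file
   FieldTheory/IntermediateField/Adjoin/Algebra.lean, last part: algebraic and `Algebra.EssFiniteType` imply finite).
4. `D` maps `E` to `E` (the elements `c ∈ E` with `D c ∈ E` form a subfield containing `F` and `g1`), so it restricts to
   `D0 : Derivation ℤ E E`. By `trace_log` for `z = g r`: `trace (D (g r) / g r) = n r * (D0 (c r) / c r)`,
   `c r = (minpoly E (g r)).coeff 0 ≠ 0`, `n r > 0`, and for `z = g1`, which is the image of `γ ∈ E`, `minpoly E g1 = X - C γ`, so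
   `c = - γ`, `D0 c / c = 1 / γ`, `n1 > 0`. (Or directly: `trace (1 / g1) = [L : E] * (1 / γ)`, `n1 = [L : E]`.)
5. `decomp` for the `c r` (as elements of `L`) gives `w' r, P r, Q r`. `c = - γ` is `γ ^ 1 * (aeval γ (-1) / aeval γ 1)`.
   Put `n = n1`, `w r = n r * w' r`. For `k1, k` as in the hypothesis, take `δ = D` and apply the trace (linear over `E`,
   `K ⊆ E`): `k1 * n1 * (D0 γ / γ) + ∑ k r * n r * (D0 (c r) / c r) = 0`; map to `L` and apply `residue_sum` over `F` for the index
   type `Option s` with coefficients `k1 * n1`, `k r * n r` (in `F`): `k1 * n1 * 1 + ∑ k r * n r * w' r = 0` in `F`, so in `K`.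
-/

open Polynomial IntermediateField

namespace Pool.Agent.Helper85.VA

section

open IntermediateField.algebraAdjoinAdjoin
open scoped KaehlerDifferential

private theorem lv_alg {K F L : Type} [Field K] [Field F] [Field L] [Algebra K F] [Algebra F L]
    [Algebra K L] [IsScalarTower K F L] (E : IntermediateField F L) {t : Set L}
    (ht : IsTranscendenceBasis K (fun i : t => (i : L))) (h : ∀ i : t, (i : L) ∈ E) :
    Algebra.IsAlgebraic E L := by
  have : IsScalarTower K E L := IsScalarTower.of_algebraMap_eq fun x => rfl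
  rw [ht.isAlgebraic_iff (S := E)]
  intro i
  exact isAlgebraic_algebraMap (⟨(i : L), h i⟩ : E)

private theorem lv_ess {K F L : Type} [Field K] [Field F] [Field L] [Algebra K F] [Algebra F L]
    [Algebra K L] [IsScalarTower K F L] (E : IntermediateField F L)
    [Algebra.EssFiniteType K L] : Algebra.EssFiniteType E L := by
  have : IsScalarTower K E L := IsScalarTower.of_algebraMap_eq fun x => rfl
  exact Algebra.EssFiniteType.of_comp K E L

/-- step 1: the field `F` -/
private theorem lv_field {K L : Type} [Field K] [Field L] [Algebra K L] (g1 : L)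
    (hg1 : Transcendental K g1) :
    ∃ S : Set L, Transcendental (IntermediateField.adjoin K S) g1 ∧
      Algebra.IsAlgebraic (IntermediateField.adjoin (IntermediateField.adjoin K S) {g1}) L := by
  classical
  have h0 : AlgebraicIndepOn K id ({g1} : Set L) := by
    have h1 : AlgebraicIndependent K (fun x : ({g1} : Set L) => (x : L)) :=
      (algebraicIndependent_singleton_iff (R := K)
        (x := fun x : ({g1} : Set L) => (x : L)) ⟨g1, rfl⟩).2 hg1
    exact h1
  obtain ⟨t, ht1, ht⟩ := exists_isTranscendenceBasis_superset h0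
  have hg : g1 ∈ t := ht1 rfl
  let s : Set t := {i | (i : L) ≠ g1}
  refine ⟨(fun i : t => (i : L)) '' s, ?_, ?_⟩
  · have h1 : Transcendental (Algebra.adjoin K ((fun i : t => (i : L)) '' s))
        ((⟨g1, hg⟩ : t) : L) :=
      ht.1.transcendental_adjoin (s := s) (i := (⟨g1, hg⟩ : t)) (fun h => h rfl)
    intro h2
    exact h1 ((IsFractionRing.isAlgebraic_iff (Algebra.adjoin K ((fun i : t => (i : L)) '' s))
      (IntermediateField.adjoin K ((fun i : t => (i : L)) '' s)) L).2 h2)
  · refine lv_alg _ ht fun i => ?_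
    by_cases hi : (i : L) = g1
    · rw [hi]
      exact IntermediateField.mem_adjoin_simple_self _ g1
    · have h3 : (i : L) ∈ IntermediateField.adjoin K ((fun i : t => (i : L)) '' s) :=
        IntermediateField.subset_adjoin K _ ⟨i, hi, rfl⟩
      exact IntermediateField.algebraMap_mem _ (⟨(i : L), h3⟩ :
        IntermediateField.adjoin K ((fun i : t => (i : L)) '' s))

/-- step 2: the derivation -/
private theorem lv_der {F L : Type} [Field F] [Field L] [CharZero F] [Algebra F L] (g1 : L)
    (h1 : Transcendental F g1) (h2 : Algebra.IsAlgebraic F⟮g1⟯ L) :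
    ∃ D : Derivation F L L, D g1 = 1 := by
  have h3 : IsTranscendenceBasis F (fun _ : Unit => g1) := by
    rw [isTranscendenceBasis_iff_algebraicIndependent_isAlgebraic]
    refine ⟨algebraicIndependent_unique_type_iff.2 h1, ?_⟩
    rw [Set.range_const]
    exact (IsFractionRing.comap_isAlgebraic_iff (A := Algebra.adjoin F {g1}) (K := F⟮g1⟯)
      (C := L)).2 h2
  obtain ⟨b, hb⟩ := Pool.Agent.Helper50.Forms.exists_kaehler_basis_aux h3
  refine ⟨(b.coord ()).compDer (KaehlerDifferential.D F L), ?_⟩
  change b.repr (KaehlerDifferential.D F L g1) () = _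
  rw [← hb (), b.repr_self, Finsupp.single_apply, if_pos rfl]

/-- the derivation maps `F(g1)` to itself -/
private theorem lv_stab {F L : Type} [Field F] [Field L] [Algebra F L] (g1 : L)
    (D : Derivation F L L) (hD : D g1 = 1) (c : L) (hc : c ∈ F⟮g1⟯) : D c ∈ F⟮g1⟯ := by
  induction hc using IntermediateField.adjoin_induction with
  | mem x hx =>
    rw [Set.mem_singleton_iff.1 hx, hD]
    exact one_mem _
  | algebraMap x =>
    rw [D.map_algebraMap]
    exact zero_mem _
  | add x y hx hy h1 h2 =>
    rw [map_add]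
    exact add_mem h1 h2
  | inv x hx h1 =>
    rw [Derivation.leibniz_inv, smul_eq_mul]
    exact mul_mem (neg_mem (pow_mem (inv_mem hx) 2)) h1
  | mul x y hx hy h1 h2 =>
    rw [D.leibniz, smul_eq_mul, smul_eq_mul]
    exact add_mem (mul_mem hx h2) (mul_mem hy h1)

/-- the restriction of the derivation -/
private theorem lv_restr {F L : Type} [Field F] [Field L] [Algebra F L] (g1 : L)
    (D : Derivation F L L) (hD : D g1 = 1) :
    ∃ D0 : Derivation ℤ F⟮g1⟯ F⟮g1⟯, ∀ c : F⟮g1⟯, D (c : L) = ((D0 c : F⟮g1⟯) : L) := by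
  refine ⟨Derivation.mk' (AddMonoidHom.toIntLinearMap
    { toFun := fun c : F⟮g1⟯ => (⟨D (c : L), lv_stab g1 D hD c c.2⟩ : F⟮g1⟯)
      map_zero' := by
        ext
        simp
      map_add' := fun x y => by
        ext
        simp }) ?_, ?_⟩
  · intro a b
    ext
    show D ((a : L) * (b : L)) = (a : L) * D (b : L) + (b : L) * D (a : L)
    rw [D.leibniz, smul_eq_mul, smul_eq_mul]
  · intro c
    rfl


private theorem lv_main {K F L : Type} [Field K] [Field F] [Field L] [CharZero K] [Algebra K F]
    [Algebra F L] [Algebra K L] [IsScalarTower K F L] [Algebra.EssFiniteType K L] (g1 : L)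
    (h1 : Transcendental F g1) (h2 : Algebra.IsAlgebraic F⟮g1⟯ L) {s : Type} [Fintype s]
    (g : s → L) (hg : ∀ r, g r ≠ 0) :
    ∃ (n : ℕ) (w : s → ℤ), 0 < n ∧ ∀ (k1 : K) (k : s → K),
      (∀ δ : Derivation K L L, algebraMap K L k1 * (δ g1 / g1) +
        ∑ r, algebraMap K L (k r) * (δ (g r) / g r) = 0) →
      (n : K) * k1 + ∑ r, k r * (w r : K) = 0 := by
  classical
  have hF : CharZero F := charZero_of_injective_algebraMap (algebraMap K F).injective
  have hE : CharZero F⟮g1⟯ := charZero_of_injective_algebraMap (algebraMap F F⟮g1⟯).injective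
  have hess : Algebra.EssFiniteType F⟮g1⟯ L := lv_ess (K := K) F⟮g1⟯
  have hfin : FiniteDimensional F⟮g1⟯ L := Algebra.finite_of_essFiniteType_of_isAlgebraic
  obtain ⟨D, hD⟩ := lv_der g1 h1 h2
  obtain ⟨D0, hD0⟩ := lv_restr g1 D hD
  have hg1 : g1 ≠ 0 := by
    rintro rfl
    exact h1 isAlgebraic_zero
  choose n hn0 hn using fun r => trace_log (E := F⟮g1⟯) (D.restrictScalars ℤ) D0
    (fun c => hD0 c) (g r) (hg r)
  have hc : ∀ r, (minpoly F⟮g1⟯ (g r)).coeff 0 ≠ 0 := fun r =>
    minpoly.coeff_zero_ne_zero (Algebra.IsIntegral.isIntegral _) (hg r)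
  choose w' P Q hP hQ hcw using fun r => decomp g1 (((minpoly F⟮g1⟯ (g r)).coeff 0 : F⟮g1⟯) : L)
    ((minpoly F⟮g1⟯ (g r)).coeff 0).2 h1 (fun h => hc r (Subtype.ext h))
  have htr : ∀ (a : K) (x : L), Algebra.trace F⟮g1⟯ L (algebraMap K L a * x) =
      algebraMap F F⟮g1⟯ (algebraMap K F a) * Algebra.trace F⟮g1⟯ L x := by
    intro a x
    have h3 : algebraMap K L a * x = (algebraMap F F⟮g1⟯ (algebraMap K F a)) • x := by
      rw [Algebra.smul_def, IsScalarTower.algebraMap_apply K F L]
      rfl
    rw [h3, map_smul, smul_eq_mul]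
  have htr1 : Algebra.trace F⟮g1⟯ L (1 / g1) =
      (Module.finrank F⟮g1⟯ L : F⟮g1⟯) * (AdjoinSimple.gen F g1)⁻¹ := by
    have h3 : 1 / g1 = algebraMap F⟮g1⟯ L (AdjoinSimple.gen F g1)⁻¹ := by
      rw [map_inv₀, AdjoinSimple.algebraMap_gen, one_div]
    rw [h3, Algebra.trace_algebraMap, nsmul_eq_mul]
  refine ⟨Module.finrank F⟮g1⟯ L, fun r => (n r : ℤ) * w' r, Module.finrank_pos,
    fun k1 k hk => ?_⟩
  have h3 := hk (D.restrictScalars K)
  have h4 := congrArg (Algebra.trace F⟮g1⟯ L) h3
  rw [map_add, map_sum, map_zero] at h4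
  simp only [htr] at h4
  have h5 : (D.restrictScalars K) g1 = 1 := hD
  rw [h5, htr1] at h4
  have h6 : ∀ r, Algebra.trace F⟮g1⟯ L ((D.restrictScalars K) (g r) / g r) =
      (n r : F⟮g1⟯) * (D0 ((minpoly F⟮g1⟯ (g r)).coeff 0) / (minpoly F⟮g1⟯ (g r)).coeff 0) := hn
  simp only [h6] at h4
  have h7 := congrArg (algebraMap F⟮g1⟯ L) h4
  rw [map_add, map_sum, map_zero] at h7
  simp only [map_mul, map_div₀, map_inv₀, map_natCast, AdjoinSimple.algebraMap_gen] at h7
  have h8 := residue_sum (F := F) g1 h1 D hD (s := Option s)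
    (fun o => o.elim 1 w') (fun o => o.elim 1 P) (fun o => o.elim 1 Q)
    (by
      rintro (_ | r)
      · simp
      · exact hP r)
    (by
      rintro (_ | r)
      · simp
      · exact hQ r)
    (fun o => o.elim (algebraMap K F k1 * (Module.finrank F⟮g1⟯ L : F))
      (fun r => algebraMap K F (k r) * (n r : F)))
    (by
      rw [Fintype.sum_option]
      simp only [Option.elim_none, Option.elim_some, map_mul, map_natCast, map_one, div_one,
        zpow_one, mul_one, hD]
      rw [← h7]
      congr 1
      · rw [one_div, mul_assoc]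
        rfl
      · refine Finset.sum_congr rfl fun r _ => ?_
        rw [← hcw r, hD0, mul_assoc]
        rfl)
  rw [Fintype.sum_option] at h8
  simp only [Option.elim_none, Option.elim_some, Int.cast_one, mul_one] at h8
  apply (algebraMap K F).injective
  rw [map_zero, ← h8, map_add, map_sum, map_mul, map_natCast, mul_comm]
  congr 1
  refine Finset.sum_congr rfl fun r _ => ?_
  simp only [map_mul, map_natCast, map_intCast, Int.cast_mul, Int.cast_natCast]
  ring

end

theorem lemmaV {K L : Type} [Field K] [Field L] [CharZero K] [Algebra K L]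
    [Algebra.EssFiniteType K L] (g1 : L) (hg1 : Transcendental K g1) {s : Type} [Fintype s]
    (g : s → L) (hg : ∀ r, g r ≠ 0) :
    ∃ (n : ℕ) (w : s → ℤ), 0 < n ∧ ∀ (k1 : K) (k : s → K),
      (∀ δ : Derivation K L L, algebraMap K L k1 * (δ g1 / g1) +
        ∑ r, algebraMap K L (k r) * (δ (g r) / g r) = 0) →
      (n : K) * k1 + ∑ r, k r * (w r : K) = 0 := by
  obtain ⟨S, hS1, hS2⟩ := lv_field g1 hg1
  exact lv_main (F := IntermediateField.adjoin K S) g1 hS1 hS2 g hg

end Pool.Agent.Helper85.VA
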