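import Pool.Agent.Helper85.VA.AlgClosed
import Pool.Agent.Helper85.VA.LemV

/-!
VA-B8. CONSTANCY: a linear relation between logarithmic differentials with coefficients in `Zb F` makes the product of powers constant.

Proof. Induction on the cardinality of the index type `s`. Put `g r = 𝒮.cls (P r) / 𝒮.cls (Q r) ≠ 0`.
Case 1: all `g r` are algebraic over `K0`, so by `alg_closed` `g r` is the image of `c r ∈ K0`, `toK (b r) * c r = toK (a r)`, `toK (b r) ≠ 0`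
(`toK_frac`), so `𝒮.cls (C (b r) * P r) = 𝒮.cls (C (a r) * Q r)`, so for almost all `ν`, all `z ∈ T ν`: `b_r(ν) P_r(z) = a_r(ν) Q_r(z)`, `b_r(ν) ≠ 0`, and
outside the small set where some `P_r(z) = 0` or `Q_r(z) = 0`: `P_r(z)/Q_r(z) = a_r(ν)/b_r(ν)` (rational numbers) does not depend on `z`. `D = 1`.
Case 2: some `g r1` is transcendental. `lemmaV (g r1)` with the other `g r` gives `n > 0` and integers `w_r` with
`n k1 + ∑_{r ≠ r1} k_r w_r = 0` for `k_r = toK (κ r)` (hypothesis `h`), so `n κ_{r1}(ν) + ∑ κ_r(ν) w_r = 0` for almost all `ν` (`toK_eq_zero_iff`). Put for `r ≠ r1`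
`g' r = g r ^ n * (g r1) ^ (- w_r) = 𝒮.cls (P' r) / 𝒮.cls (Q' r)`, where `P' r = P_r^n * Q_{r1}^{w}`, `Q' r = Q_r^n * P_{r1}^{w}` if `w = w_r ≥ 0`, and
`P' r = P_r^n * P_{r1}^{-w}`, `Q' r = Q_r^n * Q_{r1}^{-w}` if `w < 0`. For every derivation `δ`:
`∑_{r ≠ r1} κ_r δ(g' r)/g' r = n ∑_{r ≠ r1} κ_r δ(g_r)/g_r - (∑ κ_r w_r) δ(g_r1)/g_r1 = n ∑_r κ_r δ(g_r)/g_r = 0`. By induction
`∏_{r ≠ r1} (P'_r(z)/Q'_r(z)) ^ (D' κ_r(ν))` does not depend on the good `z`, and it equals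
`∏_{r ≠ r1} (P_r/Q_r)^(n D' κ_r) * (P_r1/Q_r1)^(- D' ∑ κ_r w_r) = ∏_r (P_r(z)/Q_r(z)) ^ (n D' κ_r(ν))`. So `D = n D'`.
(Good: outside the small set of the induction and the set where some `P_r(z) = 0` or `Q_r(z) = 0`, `Setup.Small.exists`. The index type of the induction step is
`{r // r ≠ r1}`: `Fintype.card_subtype_compl..`, sums and products: `Fintype.sum_eq_add_sum_subtype_ne`, `Fintype.prod_eq_mul_prod_subtype_ne`.)
-/

open MvPolynomial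

namespace Pool.Agent.Helper85.VA

open Pool.Agent.Helper91.CPX

section aux

variable {K L : Type} [Field K] [Field L] [Algebra K L]

private theorem dlog_mul (δ : Derivation K L L) {x y : L} (hx : x ≠ 0) (hy : y ≠ 0) :
    δ (x * y) / (x * y) = δ x / x + δ y / y := by
  rw [Derivation.leibniz, smul_eq_mul, smul_eq_mul]
  field_simp
  ring

private theorem dlog_zpow (δ : Derivation K L L) {x : L} (hx : x ≠ 0) (n : ℤ) :
    δ (x ^ n) / x ^ n = (n : L) * (δ x / x) := by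
  rw [Derivation.leibniz_zpow, zpow_sub_one₀ hx, smul_eq_mul, zsmul_eq_mul]
  have := zpow_ne_zero n hx
  field_simp

end aux

private theorem constancy_aux {ι : Type} [Fintype ι] [DecidableEq ι] (𝒮 : Setup ι) (m : ℕ) :
    ∀ (s : Type) (_ : Fintype s), Fintype.card s = m → ∀ (P Q : s → MvPolynomial ι (Zb 𝒮.F)),
    (∀ r, 𝒮.cls (P r) ≠ 0) → (∀ r, 𝒮.cls (Q r) ≠ 0) → ∀ κ : s → Zb 𝒮.F,
    (∀ δ : 𝒮.Der, ∑ r, algebraMap (K0 𝒮.F) 𝒮.L (toK 𝒮.F (κ r)) *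
      (δ (𝒮.cls (P r) / 𝒮.cls (Q r)) / (𝒮.cls (P r) / 𝒮.cls (Q r))) = 0) →
    ∃ D : ℕ, 0 < D ∧ ∃ Sm : ℕ → (ι → ℤ) → Prop, 𝒮.Small Sm ∧
      ∀ᶠ ν in (𝒮.F.U : Filter ℕ), ∀ z ∈ 𝒮.T ν, ∀ z0 ∈ 𝒮.T ν, ¬ Sm ν z → ¬ Sm ν z0 →
        (∀ r, 𝒮.ev ν z (P r) ≠ 0 ∧ 𝒮.ev ν z (Q r) ≠ 0) ∧
        ∏ r, ((𝒮.ev ν z (P r) : ℚ) / (𝒮.ev ν z (Q r) : ℚ)) ^ ((D : ℤ) * (κ r : ℕ → ℤ) ν) =
          ∏ r, ((𝒮.ev ν z0 (P r) : ℚ) / (𝒮.ev ν z0 (Q r) : ℚ)) ^ ((D : ℤ) * (κ r : ℕ → ℤ) ν) := by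
  induction m using Nat.strong_induction_on with
  | _ m ih =>
    intro s _ hs P Q hP hQ κ h
    classical
    have hsm0 : 𝒮.Small (fun ν z => ∃ r, 𝒮.ev ν z (P r) = 0 ∨ 𝒮.ev ν z (Q r) = 0) :=
      Setup.Small.exists fun r => (𝒮.small_zero (hP r)).or (𝒮.small_zero (hQ r))
    by_cases hcase : ∀ r, IsAlgebraic (K0 𝒮.F) (𝒮.cls (P r) / 𝒮.cls (Q r))
    · -- all the quotients are algebraic, so constant
      choose c hc using fun r => alg_closed 𝒮 _ (hcase r)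
      choose a b hb hab using fun r => toK_frac 𝒮.F (c r)
      have h1 : ∀ r, 𝒮.cls (C (b r) * P r) = 𝒮.cls (C (a r) * Q r) := by
        intro r
        rw [map_mul, map_mul, 𝒮.cls_C, 𝒮.cls_C, ← hab r, map_mul, hc r, mul_assoc,
          div_mul_cancel₀ _ (hQ r)]
      have h2 : ∀ᶠ ν in (𝒮.F.U : Filter ℕ), ∀ r, ∀ z ∈ 𝒮.T ν,
          (b r : ℕ → ℤ) ν * 𝒮.ev ν z (P r) = (a r : ℕ → ℤ) ν * 𝒮.ev ν z (Q r) := by
        rw [Filter.eventually_all]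
        intro r
        filter_upwards [(𝒮.cls_eq_iff _ _).mp (h1 r)] with ν h z hz
        have h4 := h z hz
        rwa [map_mul, map_mul, 𝒮.ev_C, 𝒮.ev_C] at h4
      have h3 : ∀ᶠ ν in (𝒮.F.U : Filter ℕ), ∀ r, (b r : ℕ → ℤ) ν ≠ 0 := by
        rw [Filter.eventually_all]
        intro r
        exact (toK_ne_zero_iff 𝒮.F (b r)).mp (hb r)
      refine ⟨1, one_pos, _, hsm0, ?_⟩
      filter_upwards [h2, h3] with ν h2 h3 z hz z0 hz0 hg hg0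
      push Not at hg hg0
      have e1 : ∀ z ∈ 𝒮.T ν, ∀ r, 𝒮.ev ν z (Q r) ≠ 0 →
          (𝒮.ev ν z (P r) : ℚ) / (𝒮.ev ν z (Q r) : ℚ) =
            (((a r : ℕ → ℤ) ν : ℤ) : ℚ) / (((b r : ℕ → ℤ) ν : ℤ) : ℚ) := by
        intro z hz r hq
        have h4 : (((b r : ℕ → ℤ) ν : ℤ) : ℚ) ≠ 0 := by exact_mod_cast h3 r
        have h5 : (𝒮.ev ν z (Q r) : ℚ) ≠ 0 := by exact_mod_cast hq
        rw [div_eq_div_iff h5 h4]
        have h6 := h2 r z hz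
        have h7 : (((b r : ℕ → ℤ) ν : ℤ) : ℚ) * (𝒮.ev ν z (P r) : ℚ) =
            (((a r : ℕ → ℤ) ν : ℤ) : ℚ) * (𝒮.ev ν z (Q r) : ℚ) := by exact_mod_cast h6
        rw [mul_comm, h7]
      refine ⟨hg, Finset.prod_congr rfl fun r _ => ?_⟩
      rw [e1 z hz r (hg r).2, e1 z0 hz0 r (hg0 r).2]
    · -- one quotient is transcendental
      push Not at hcase
      obtain ⟨r1, hr1⟩ := hcase
      have hg0 : ∀ r, 𝒮.cls (P r) / 𝒮.cls (Q r) ≠ 0 := fun r => div_ne_zero (hP r) (hQ r)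
      obtain ⟨n, w, hn, hw⟩ := lemmaV (K := K0 𝒮.F) (𝒮.cls (P r1) / 𝒮.cls (Q r1)) hr1
        (s := {r : s // r ≠ r1}) (fun r => 𝒮.cls (P r) / 𝒮.cls (Q r)) (fun r => hg0 r)
      have hrel := hw (toK 𝒮.F (κ r1)) (fun r => toK 𝒮.F (κ r)) (by
        intro δ
        have h1 := h δ
        rw [Fintype.sum_eq_add_sum_subtype_ne _ r1] at h1
        exact h1)
      have hrel2 : ∀ᶠ ν in (𝒮.F.U : Filter ℕ),
          (n : ℤ) * (κ r1 : ℕ → ℤ) ν + ∑ r : {r : s // r ≠ r1}, (κ r : ℕ → ℤ) ν * w r = 0 := by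
        have h1 : toK 𝒮.F ((n : Zb 𝒮.F) * κ r1 +
            ∑ r : {r : s // r ≠ r1}, κ r * (w r : Zb 𝒮.F)) = 0 := by
          rw [map_add, map_mul, map_sum, map_natCast]
          simp only [map_mul, map_intCast]
          exact hrel
        rw [toK_eq_zero_iff] at h1
        filter_upwards [h1] with ν h2
        have h3 : ∀ x : Zb 𝒮.F, (x : ℕ → ℤ) ν = evAt 𝒮.F ν x := fun x => rfl
        rw [h3, map_add, map_mul, map_sum, map_natCast] at h2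
        simp only [map_mul, map_intCast] at h2
        exact h2
      -- the new functions
      obtain ⟨P', hP'⟩ : ∃ P' : {r : s // r ≠ r1} → MvPolynomial ι (Zb 𝒮.F), ∀ r, P' r =
          P r ^ n * Q r1 ^ (w r).toNat * P r1 ^ (-(w r)).toNat := ⟨_, fun _ => rfl⟩
      obtain ⟨Q', hQ'⟩ : ∃ Q' : {r : s // r ≠ r1} → MvPolynomial ι (Zb 𝒮.F), ∀ r, Q' r =
          Q r ^ n * P r1 ^ (w r).toNat * Q r1 ^ (-(w r)).toNat := ⟨_, fun _ => rfl⟩
      have hquot : ∀ {E : Type} [Field E] (p q p1 q1 : E) (w : ℤ), p ≠ 0 → q ≠ 0 → p1 ≠ 0 →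
          q1 ≠ 0 → (p ^ n * q1 ^ w.toNat * p1 ^ (-w).toNat) /
            (q ^ n * p1 ^ w.toNat * q1 ^ (-w).toNat) = (p / q) ^ n * (p1 / q1) ^ (-w) := by
        intro E _ p q p1 q1 w hp hq hp1 hq1
        rcases le_total 0 w with hw | hw
        · obtain ⟨k, rfl⟩ := Int.eq_ofNat_of_zero_le hw
          rw [zpow_neg, Int.toNat_natCast, Int.toNat_neg_natCast, zpow_natCast, div_pow, div_pow]
          field_simp
        · obtain ⟨k, hk⟩ := Int.eq_ofNat_of_zero_le (neg_nonneg.2 hw)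
          obtain rfl : w = -(k : ℤ) := by omega
          rw [neg_neg, Int.toNat_natCast, Int.toNat_neg_natCast, zpow_natCast, div_pow, div_pow]
          field_simp
      have hP'0 : ∀ r, 𝒮.cls (P' r) ≠ 0 := by
        intro r
        rw [hP', map_mul, map_mul, map_pow, map_pow, map_pow]
        exact mul_ne_zero (mul_ne_zero (pow_ne_zero _ (hP _)) (pow_ne_zero _ (hQ _)))
          (pow_ne_zero _ (hP _))
      have hQ'0 : ∀ r, 𝒮.cls (Q' r) ≠ 0 := by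
        intro r
        rw [hQ', map_mul, map_mul, map_pow, map_pow, map_pow]
        exact mul_ne_zero (mul_ne_zero (pow_ne_zero _ (hQ _)) (pow_ne_zero _ (hP _)))
          (pow_ne_zero _ (hQ _))
      have hg' : ∀ r, 𝒮.cls (P' r) / 𝒮.cls (Q' r) = (𝒮.cls (P r) / 𝒮.cls (Q r)) ^ n *
          (𝒮.cls (P r1) / 𝒮.cls (Q r1)) ^ (-(w r)) := by
        intro r
        rw [hP', hQ', map_mul, map_mul, map_pow, map_pow, map_pow, map_mul, map_mul, map_pow,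
          map_pow, map_pow]
        exact hquot _ _ _ _ _ (hP _) (hQ _) (hP _) (hQ _)
      have hcard : Fintype.card {r : s // r ≠ r1} < m := by
        rw [← hs]
        exact Fintype.card_subtype_lt (x := r1) (by simp)
      obtain ⟨D, hD, Sm, hSm, hfin⟩ := ih _ hcard {r : s // r ≠ r1} inferInstance rfl P' Q' hP'0
        hQ'0 (fun r => κ r) (by
          intro δ
          have h1 : ∀ r : {r : s // r ≠ r1}, δ (𝒮.cls (P' r) / 𝒮.cls (Q' r)) /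
              (𝒮.cls (P' r) / 𝒮.cls (Q' r)) =
                (n : 𝒮.L) * (δ (𝒮.cls (P r) / 𝒮.cls (Q r)) / (𝒮.cls (P r) / 𝒮.cls (Q r))) -
                (w r : 𝒮.L) *
                  (δ (𝒮.cls (P r1) / 𝒮.cls (Q r1)) / (𝒮.cls (P r1) / 𝒮.cls (Q r1))) := by
            intro r
            rw [hg', dlog_mul δ (pow_ne_zero _ (hg0 _)) (zpow_ne_zero _ (hg0 _)),
              dlog_zpow δ (hg0 _), ← zpow_natCast, dlog_zpow δ (hg0 _)]
            push_cast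
            ring
          simp only [h1, mul_sub, Finset.sum_sub_distrib]
          have h2 := h δ
          rw [Fintype.sum_eq_add_sum_subtype_ne _ r1] at h2
          have h3 := congrArg (algebraMap (K0 𝒮.F) 𝒮.L) hrel
          rw [map_add, map_mul, map_natCast, map_zero, map_sum] at h3
          simp only [map_mul, map_intCast] at h3
          have h4 : ∑ r : {r : s // r ≠ r1}, algebraMap (K0 𝒮.F) 𝒮.L (toK 𝒮.F (κ r)) *
              ((w r : 𝒮.L) *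
                (δ (𝒮.cls (P r1) / 𝒮.cls (Q r1)) / (𝒮.cls (P r1) / 𝒮.cls (Q r1)))) =
              (∑ r : {r : s // r ≠ r1}, algebraMap (K0 𝒮.F) 𝒮.L (toK 𝒮.F (κ r)) * (w r : 𝒮.L)) *
                (δ (𝒮.cls (P r1) / 𝒮.cls (Q r1)) / (𝒮.cls (P r1) / 𝒮.cls (Q r1))) := by
            rw [Finset.sum_mul]
            exact Finset.sum_congr rfl fun r _ => by ring
          have h5 : ∑ r : {r : s // r ≠ r1}, algebraMap (K0 𝒮.F) 𝒮.L (toK 𝒮.F (κ r)) *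
              ((n : 𝒮.L) * (δ (𝒮.cls (P r) / 𝒮.cls (Q r)) / (𝒮.cls (P r) / 𝒮.cls (Q r)))) =
              (n : 𝒮.L) * ∑ r : {r : s // r ≠ r1}, algebraMap (K0 𝒮.F) 𝒮.L (toK 𝒮.F (κ r)) *
                (δ (𝒮.cls (P r) / 𝒮.cls (Q r)) / (𝒮.cls (P r) / 𝒮.cls (Q r))) := by
            rw [Finset.mul_sum]
            exact Finset.sum_congr rfl fun r _ => by ring
          rw [h4, h5]
          linear_combination (n : 𝒮.L) * h2 -
            (δ (𝒮.cls (P r1) / 𝒮.cls (Q r1)) / (𝒮.cls (P r1) / 𝒮.cls (Q r1))) * h3)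
      refine ⟨n * D, Nat.mul_pos hn hD, _, hSm.or hsm0, ?_⟩
      filter_upwards [hfin, hrel2] with ν hfin hrel2 z hz z0 hz0 hg hg0
      push Not at hg hg0
      refine ⟨hg.2, ?_⟩
      have key : ∀ z : ι → ℤ, (∀ r, 𝒮.ev ν z (P r) ≠ 0 ∧ 𝒮.ev ν z (Q r) ≠ 0) →
          ∏ r, ((𝒮.ev ν z (P r) : ℚ) / (𝒮.ev ν z (Q r) : ℚ)) ^
            (((n * D : ℕ) : ℤ) * (κ r : ℕ → ℤ) ν) =
          ∏ r : {r : s // r ≠ r1}, ((𝒮.ev ν z (P' r) : ℚ) / (𝒮.ev ν z (Q' r) : ℚ)) ^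
            ((D : ℤ) * (κ r : ℕ → ℤ) ν) := by
        intro z hz
        have hne : ∀ r, (𝒮.ev ν z (P r) : ℚ) / (𝒮.ev ν z (Q r) : ℚ) ≠ 0 := by
          intro r
          exact div_ne_zero (by exact_mod_cast (hz r).1) (by exact_mod_cast (hz r).2)
        have h1 : ∀ r : {r : s // r ≠ r1}, ((𝒮.ev ν z (P' r) : ℚ) / (𝒮.ev ν z (Q' r) : ℚ)) ^
            ((D : ℤ) * (κ r : ℕ → ℤ) ν) =
            ((𝒮.ev ν z (P r) : ℚ) / (𝒮.ev ν z (Q r) : ℚ)) ^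
              (((n * D : ℕ) : ℤ) * (κ r : ℕ → ℤ) ν) *
            ((𝒮.ev ν z (P r1) : ℚ) / (𝒮.ev ν z (Q r1) : ℚ)) ^
              (-(D : ℤ) * ((κ r : ℕ → ℤ) ν * w r)) := by
          intro r
          rw [hP', hQ', map_mul, map_mul, map_pow, map_pow, map_pow, map_mul, map_mul, map_pow,
            map_pow, map_pow]
          push_cast
          rw [hquot _ _ _ _ _ (by exact_mod_cast (hz _).1) (by exact_mod_cast (hz _).2)
            (by exact_mod_cast (hz _).1) (by exact_mod_cast (hz _).2), mul_zpow, ← zpow_natCast,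
            ← zpow_mul, ← zpow_mul]
          congr 2 <;> ring
        rw [Finset.prod_congr rfl fun r _ => h1 r, Finset.prod_mul_distrib,
          Fintype.prod_eq_mul_prod_subtype_ne _ r1, mul_comm]
        congr 1
        have h2 : ∀ (x : ℚ), x ≠ 0 → ∀ (f : {r : s // r ≠ r1} → ℤ) (t : Finset {r : s // r ≠ r1}),
            ∏ r ∈ t, x ^ (-(D : ℤ) * f r) = x ^ (-(D : ℤ) * ∑ r ∈ t, f r) := by
          intro x hx f t
          induction t using Finset.induction_on with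
          | empty => simp
          | insert a t ha ih2 =>
            rw [Finset.prod_insert ha, ih2, Finset.sum_insert ha, ← zpow_add₀ hx, mul_add]
        rw [h2 _ (hne r1)]
        congr 1
        push_cast
        linear_combination (D : ℤ) * hrel2
      rw [key z hg.2, key z0 hg0.2]
      exact (hfin z hz z0 hz0 hg.1 hg0.1).2

theorem constancy {ι : Type} [Fintype ι] [DecidableEq ι] (𝒮 : Setup ι) {s : Type} [Fintype s]
    (P Q : s → MvPolynomial ι (Zb 𝒮.F)) (hP : ∀ r, 𝒮.cls (P r) ≠ 0)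
    (hQ : ∀ r, 𝒮.cls (Q r) ≠ 0) (κ : s → Zb 𝒮.F)
    (h : ∀ δ : 𝒮.Der, ∑ r, algebraMap (K0 𝒮.F) 𝒮.L (toK 𝒮.F (κ r)) *
      (δ (𝒮.cls (P r) / 𝒮.cls (Q r)) / (𝒮.cls (P r) / 𝒮.cls (Q r))) = 0) :
    ∃ D : ℕ, 0 < D ∧ ∃ Sm : ℕ → (ι → ℤ) → Prop, 𝒮.Small Sm ∧
      ∀ᶠ ν in (𝒮.F.U : Filter ℕ), ∀ z ∈ 𝒮.T ν, ∀ z0 ∈ 𝒮.T ν, ¬ Sm ν z → ¬ Sm ν z0 →
        (∀ r, 𝒮.ev ν z (P r) ≠ 0 ∧ 𝒮.ev ν z (Q r) ≠ 0) ∧
        ∏ r, ((𝒮.ev ν z (P r) : ℚ) / (𝒮.ev ν z (Q r) : ℚ)) ^ ((D : ℤ) * (κ r : ℕ → ℤ) ν) =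
          ∏ r, ((𝒮.ev ν z0 (P r) : ℚ) / (𝒮.ev ν z0 (Q r) : ℚ)) ^ ((D : ℤ) * (κ r : ℕ → ℤ) ν) := by
  exact constancy_aux 𝒮 _ s inferInstance rfl P Q hP hQ κ h

end Pool.Agent.Helper85.VA
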