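import Pool.Agent.Helper85.VA.Defs

/-!
VA-C2'. The valuation form of the condition `PowLike`. (helper85)
-/

namespace Pool.Agent.Helper85.VA

/-- There are `e_1, …, e_k ≥ m` and a set `A` of primes with product at most `R` such that for all primes `p` outside `S` and
`A` the valuation of `x` at `p` is a combination of the `e_j` with natural numbers as coefficients. -/
def Adm (S : Finset ℕ) (m k R : ℕ) (x : ℤ) : Prop :=
  ∃ (A : Finset ℕ) (e : Fin k → ℕ), (∀ p ∈ A, p.Prime) ∧ ∏ p ∈ A, p ≤ R ∧ (∀ j, m ≤ e j) ∧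
    ∀ p : ℕ, p.Prime → p ∉ S → p ∉ A →
      ∃ c : Fin k → ℕ, x.natAbs.factorization p = ∑ j, c j * e j

theorem powLike_of_adm (S : Finset ℕ) (m k R : ℕ) (x : ℤ) (hx : x ≠ 0) (h : Adm S m k R x) :
    PowLike S m k R x := by
  classical
  obtain ⟨A, e, hA, hAR, he, hv⟩ := h
  set n : ℕ := x.natAbs with hn
  have hn0 : n ≠ 0 := Int.natAbs_ne_zero.mpr hx
  have hv' : ∀ p : ℕ, ∃ c : Fin k → ℕ, p.Prime → p ∉ S → p ∉ A →
      n.factorization p = ∑ j, c j * e j := by
    intro p
    by_cases hp : p.Prime ∧ p ∉ S ∧ p ∉ A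
    · obtain ⟨c, hc⟩ := hv p hp.1 hp.2.1 hp.2.2
      exact ⟨c, fun _ _ _ => hc⟩
    · exact ⟨0, fun h1 h2 h3 => absurd ⟨h1, h2, h3⟩ hp⟩
  choose c hc using hv'
  have hprod : n = ∏ p ∈ n.primeFactors, p ^ n.factorization p :=
    (Nat.prod_factorization_pow_eq_self hn0).symm
  refine ⟨∏ p ∈ n.primeFactors ∩ (S ∪ A), p ^ n.factorization p,
    fun j => ∏ p ∈ n.primeFactors \ (S ∪ A), p ^ c p j, e, ?_, he, ?_⟩
  · have h1 : ∏ j, (∏ p ∈ n.primeFactors \ (S ∪ A), p ^ c p j) ^ e j =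
        ∏ p ∈ n.primeFactors \ (S ∪ A), p ^ n.factorization p := by
      simp_rw [← Finset.prod_pow]
      rw [Finset.prod_comm]
      refine Finset.prod_congr rfl fun p hp => ?_
      rw [Finset.mem_sdiff, Finset.mem_union, not_or] at hp
      rw [hc p (Nat.prime_of_mem_primeFactors hp.1) hp.2.1 hp.2.2, ← Finset.prod_pow_eq_pow_sum]
      refine Finset.prod_congr rfl fun j _ => ?_
      rw [pow_mul]
    rw [h1]
    refine hprod.trans ?_
    exact (Finset.prod_inter_mul_prod_sdiff _ _ _).symm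
  · refine le_trans (Finset.prod_le_prod_of_subset_of_one_le' ?_ ?_) hAR
    · intro p hp
      rw [Finset.mem_sdiff] at hp
      have hpp := Nat.prime_of_mem_primeFactors hp.1
      have hpd := Nat.dvd_of_mem_primeFactors hp.1
      obtain ⟨q, hq, hpq⟩ := (Prime.dvd_finsetProd_iff hpp.prime _).mp hpd
      have h2 := hpp.dvd_of_dvd_pow hpq
      rw [Finset.mem_inter, Finset.mem_union] at hq
      have h3 := (Nat.prime_dvd_prime_iff_eq hpp (Nat.prime_of_mem_primeFactors hq.1)).mp h2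
      subst h3
      rcases hq.2 with h4 | h4
      · exact absurd h4 hp.2
      · exact h4
    · intro p hp _
      exact (hA p hp).one_lt.le

end Pool.Agent.Helper85.VA
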