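import Pool.Agent.Helper85.VA.Api
import Pool.Agent.Helper91.CPX.PolyBound

/-!
VA-B2. `K0` is algebraically closed in the function field of a maximal large family.

Proof. Let `c ∈ 𝒮.L` be algebraic over `K0`. `𝒮.exists_frac`: `𝒮.cls Q * c = 𝒮.cls P`, `𝒮.cls Q ≠ 0`. Let `p ≠ 0` be a
polynomial over `K0` with `p(c) = 0`, `n` its degree; multiplying by a common denominator (`toK_frac`, or `Pool.Agent.Helper91.CPX.lift_mv` /
`IsFractionRing`...), we may assume that the coefficients are `toK (α i)`, `α i ∈ Zb F`, `i ≤ n`, not all `toK (α i) = 0`.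
Multiply by `(𝒮.cls Q) ^ n`: `𝒮.cls (∑_{i ≤ n} C (α i) P^i Q^(n-i)) = 0`. So (`𝒮.cls_eq_zero_iff`) for almost all `ν`, for all
`z ∈ T ν`: `∑ α_i(ν) P(z)^i Q(z)^(n-i) = 0`, and the integers `α_i(ν)` are not all `0` (`toK_ne_zero_iff` for one `i`). So for the `z` with
`Q(z) ≠ 0` the rational number `P(z)/Q(z)` is a root of a fixed nonzero polynomial of degree `≤ n`: it takes at most `n`
values (at least one value if there is a point). Let `Sm ν z := 𝒮.ev ν z Q = 0` (small, `𝒮.small_zero`), so `𝒮.sub (fun ν z => ¬ Sm ν z)` is large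
(`Setup.Small.large_compl`). `card_split` below: for each such `ν` there is `z0(ν) ∈ T ν`, `Q(z0) ≠ 0`, such that the points
`z ∈ T ν` with `Q(z) ≠ 0` and `P(z) Q(z0) = P(z0) Q(z)` have at least `(1/n)` times as many `M`-values. With
`Q1 ν z := 𝒮.ev ν z Q ≠ 0 ∧ P(z) Q(z0 ν) = P(z0 ν) Q(z)` the set `Q1` is not small: `X^δ / n ≥ X^(δ/2)` for large `X`. The sequences
`a = P(z0 ν)`, `b = Q(z0 ν)` (put `0` for the bad `ν`) are in `Zb F` by `poly_bound` (`CPX/PolyBound.lean`), `b ≠ 0` almost everywhere, so `toK b ≠ 0`.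
The polynomial `C b * P - C a * Q` vanishes on `Q1`, so its class is zero (`𝒮.cls_eq_zero_of_not_small`):
`toK b * 𝒮.cls P = toK a * 𝒮.cls Q`, so `c = toK a / toK b`.
`card_split`: `M(T')` is the union over the at most `n` values `v` of `f` of the sets `M({z : f z = v})`; if all of these had less than
`card M(T') / n` elements, contradiction (`Finset.card_biUnion_le`, `Finset.image_biUnion`, `Finset.exists_le_card_fiber..` or directly).
-/

open MvPolynomial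

namespace Pool.Agent.Helper85.VA

open Pool.Agent.Helper91.CPX

theorem card_split {α β γ : Type} [DecidableEq β] [DecidableEq γ] (T : Finset α) (M : α → β)
    (f : α → γ) (n : ℕ) (hn : (T.image f).card ≤ n) (hT : T.Nonempty) :
    ∃ z0 ∈ T, (T.image M).card ≤ n * ((T.filter (fun z => f z = f z0)).image M).card := by
  by_contra hcon
  push Not at hcon
  have hcov : (T.image M).card ≤
      ∑ v ∈ T.image f, ((T.filter (fun z => f z = v)).image M).card := by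
    have hsub : T.image M ⊆ (T.image f).biUnion fun v => (T.filter (fun z => f z = v)).image M := by
      intro y hy
      obtain ⟨z, hz, rfl⟩ := Finset.mem_image.mp hy
      exact Finset.mem_biUnion.mpr ⟨f z, Finset.mem_image_of_mem f hz,
        Finset.mem_image_of_mem M (Finset.mem_filter.mpr ⟨hz, rfl⟩)⟩
    exact (Finset.card_le_card hsub).trans Finset.card_biUnion_le
  have hone : ∀ v ∈ T.image f,
      n * ((T.filter (fun z => f z = v)).image M).card ≤ (T.image M).card - 1 := by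
    intro v hv
    obtain ⟨z, hz, rfl⟩ := Finset.mem_image.mp hv
    have := hcon z hz
    omega
  have hm1 : 1 ≤ (T.image f).card := Finset.card_pos.mpr (hT.image f)
  have hC1 : 1 ≤ (T.image M).card := Finset.card_pos.mpr (hT.image M)
  have h1 : n * (T.image M).card ≤ (T.image f).card * ((T.image M).card - 1) := by
    calc n * (T.image M).card
        ≤ n * ∑ v ∈ T.image f, ((T.filter (fun z => f z = v)).image M).card :=
          Nat.mul_le_mul_left _ hcov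
      _ = ∑ v ∈ T.image f, n * ((T.filter (fun z => f z = v)).image M).card := Finset.mul_sum _ _ _
      _ ≤ ∑ _v ∈ T.image f, ((T.image M).card - 1) := Finset.sum_le_sum hone
      _ = _ := by rw [Finset.sum_const, smul_eq_mul]
  have h2 : (T.image f).card * ((T.image M).card - 1) ≤ n * ((T.image M).card - 1) :=
    Nat.mul_le_mul_right _ hn
  have h3 : n * ((T.image M).card - 1) < n * (T.image M).card :=
    Nat.mul_lt_mul_of_pos_left (by omega) (by omega)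
  omega

/-- Clearing denominators in a polynomial in one variable. -/
private theorem lift_uni {S K : Type} [CommRing S] [Field K] (φ : S →+* K)
    (hfrac : ∀ y : K, ∃ a b : S, φ b ≠ 0 ∧ φ b * y = φ a) (p : Polynomial K) :
    ∃ (b : S) (P : Polynomial S), φ b ≠ 0 ∧ P.map φ = Polynomial.C (φ b) * p := by
  induction p using Polynomial.induction_on' with
  | add p q hp hq =>
    obtain ⟨b1, P1, h1, h1'⟩ := hp
    obtain ⟨b2, P2, h2, h2'⟩ := hq
    refine ⟨b1 * b2, Polynomial.C b2 * P1 + Polynomial.C b1 * P2, ?_, ?_⟩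
    · rw [map_mul]
      exact mul_ne_zero h1 h2
    · rw [Polynomial.map_add, Polynomial.map_mul, Polynomial.map_mul, h1', h2', Polynomial.map_C,
        Polynomial.map_C, map_mul, Polynomial.C_mul]
      ring
  | monomial n y =>
    obtain ⟨a, b, hb, hab⟩ := hfrac y
    exact ⟨b, Polynomial.monomial n a, hb, by
      rw [Polynomial.map_monomial, Polynomial.C_mul_monomial, hab]⟩

theorem alg_closed {ι : Type} [Fintype ι] [DecidableEq ι] (𝒮 : Setup ι) (c : 𝒮.L)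
    (hc : IsAlgebraic (K0 𝒮.F) c) : ∃ a : K0 𝒮.F, algebraMap (K0 𝒮.F) 𝒮.L a = c := by
  classical
  obtain ⟨p, hp0, hpc⟩ := hc
  obtain ⟨β, P, hβ, hP⟩ := lift_uni (toK 𝒮.F) (toK_frac 𝒮.F) p
  obtain ⟨A, B, hB0, hBA⟩ := 𝒮.exists_frac c
  have hPne : P.map (toK 𝒮.F) ≠ 0 := by
    rw [hP]
    exact mul_ne_zero (by rwa [ne_eq, Polynomial.C_eq_zero]) hp0
  have hPc : Polynomial.eval₂ ((algebraMap (K0 𝒮.F) 𝒮.L).comp (toK 𝒮.F)) c P = 0 := by
    rw [← Polynomial.eval₂_map, hP, Polynomial.eval₂_mul]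
    have h1 : Polynomial.eval₂ (algebraMap (K0 𝒮.F) 𝒮.L) c p = 0 := hpc
    rw [h1, mul_zero]
  -- a coefficient which is not zero
  obtain ⟨i0, hi0⟩ : ∃ i, toK 𝒮.F (P.coeff i) ≠ 0 := by
    by_contra hcon
    push Not at hcon
    apply hPne
    ext i
    rw [Polynomial.coeff_map, hcon i, Polynomial.coeff_zero]
  rw [toK_ne_zero_iff] at hi0
  set n : ℕ := P.natDegree with hn
  -- the homogenised relation
  let H : MvPolynomial ι (Zb 𝒮.F) :=
    ∑ i ∈ Finset.range (n + 1), C (P.coeff i) * A ^ i * B ^ (n - i)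
  have hH : 𝒮.cls H = 0 := by
    have h1 : 𝒮.cls H = 𝒮.cls B ^ n *
        Polynomial.eval₂ ((algebraMap (K0 𝒮.F) 𝒮.L).comp (toK 𝒮.F)) c P := by
      rw [Polynomial.eval₂_eq_sum_range, Finset.mul_sum]
      simp only [H, map_sum, map_mul, map_pow]
      refine Finset.sum_congr rfl fun i hi => ?_
      have hi' : i ≤ n := by
        have := Finset.mem_range.mp hi
        omega
      rw [𝒮.cls_C, ← hBA, RingHom.comp_apply, mul_pow]
      have h2 : 𝒮.cls B ^ n = 𝒮.cls B ^ i * 𝒮.cls B ^ (n - i) := by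
        rw [← pow_add]
        congr 1
        omega
      rw [h2]
      ring
    rw [h1, hPc, mul_zero]
  rw [𝒮.cls_eq_zero_iff] at hH
  -- the points with nonzero denominator
  let T' : ℕ → Finset (ι → ℤ) := 𝒮.sub (fun ν z => ¬ 𝒮.ev ν z B = 0)
  have hT' : ∀ ν z, z ∈ T' ν ↔ z ∈ 𝒮.T ν ∧ ¬ 𝒮.ev ν z B = 0 := fun ν z => 𝒮.mem_sub
  have hL : Large 𝒮.F 𝒮.M T' := (𝒮.small_zero hB0).large_compl
  let f : ℕ → (ι → ℤ) → ℚ := fun ν z => (𝒮.ev ν z A : ℚ) / (𝒮.ev ν z B : ℚ)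
  have hcard : ∀ᶠ ν in (𝒮.F.U : Filter ℕ), ((T' ν).image (f ν)).card ≤ n := by
    filter_upwards [hH, hi0] with ν h1 h2
    let q : Polynomial ℚ := (P.map (evAt 𝒮.F ν)).map (Int.castRingHom ℚ)
    have hcoef : ∀ i, q.coeff i = (((P.coeff i : Zb 𝒮.F) : ℕ → ℤ) ν : ℚ) := by
      intro i
      simp only [q, Polynomial.coeff_map, evAt_apply, eq_intCast]
    have hq0 : q ≠ 0 := by
      intro h
      apply h2
      have h3 := hcoef i0
      rw [h, Polynomial.coeff_zero] at h3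
      exact_mod_cast h3.symm
    have hdeg : q.natDegree ≤ n :=
      (Polynomial.natDegree_map_le).trans (Polynomial.natDegree_map_le)
    have hsub : (T' ν).image (f ν) ⊆ q.roots.toFinset := by
      intro y hy
      obtain ⟨z, hz, rfl⟩ := Finset.mem_image.mp hy
      obtain ⟨hz1, hz2⟩ := (hT' ν z).mp hz
      rw [Multiset.mem_toFinset, Polynomial.mem_roots hq0, Polynomial.IsRoot.def,
        Polynomial.eval_eq_sum_range' (show q.natDegree < n + 1 by omega)]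
      have h3 := h1 z hz1
      simp only [H, map_sum, map_mul, map_pow, 𝒮.ev_C] at h3
      have hBq : ((𝒮.ev ν z B : ℤ) : ℚ) ≠ 0 := by exact_mod_cast hz2
      have h4 : (∑ i ∈ Finset.range (n + 1), (((P.coeff i : Zb 𝒮.F) : ℕ → ℤ) ν : ℚ) *
          ((𝒮.ev ν z A : ℤ) : ℚ) ^ i * ((𝒮.ev ν z B : ℤ) : ℚ) ^ (n - i)) = 0 := by
        exact_mod_cast h3
      have h5 : ((𝒮.ev ν z B : ℤ) : ℚ) ^ n *
          ∑ i ∈ Finset.range (n + 1), q.coeff i * (f ν z) ^ i = 0 := by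
        rw [← h4, Finset.mul_sum]
        refine Finset.sum_congr rfl fun i hi => ?_
        have hi' : i ≤ n := by
          have := Finset.mem_range.mp hi
          omega
        have h6 : ((𝒮.ev ν z B : ℤ) : ℚ) ^ n =
            ((𝒮.ev ν z B : ℤ) : ℚ) ^ i * ((𝒮.ev ν z B : ℤ) : ℚ) ^ (n - i) := by
          rw [← pow_add]
          congr 1
          omega
        rw [hcoef, h6]
        simp only [f]
        rw [div_pow]
        field_simp
      exact (mul_eq_zero.mp h5).resolve_left (pow_ne_zero n hBq)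
    calc ((T' ν).image (f ν)).card ≤ q.roots.toFinset.card := Finset.card_le_card hsub
      _ ≤ Multiset.card q.roots := Multiset.toFinset_card_le _
      _ ≤ q.natDegree := Polynomial.card_roots' q
      _ ≤ n := hdeg
  -- the popular value
  have hz0 : ∀ᶠ ν in (𝒮.F.U : Filter ℕ), ∃ z0 ∈ T' ν, ((T' ν).image (𝒮.M ν)).card ≤
      n * (((T' ν).filter (fun z => f ν z = f ν z0)).image (𝒮.M ν)).card := by
    filter_upwards [hcard, large_nonempty 𝒮.F 𝒮.M T' hL] with ν h1 h2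
    exact card_split (T' ν) (𝒮.M ν) (f ν) n h1 h2
  obtain ⟨z0, hz0'⟩ : ∃ z0 : ℕ → (ι → ℤ), ∀ᶠ ν in (𝒮.F.U : Filter ℕ), z0 ν ∈ T' ν ∧
      ((T' ν).image (𝒮.M ν)).card ≤
      n * (((T' ν).filter (fun z => f ν z = f ν (z0 ν))).image (𝒮.M ν)).card := by
    have hex : ∀ ν, ∃ w : ι → ℤ, (∃ z0 ∈ T' ν, ((T' ν).image (𝒮.M ν)).card ≤
        n * (((T' ν).filter (fun z => f ν z = f ν z0)).image (𝒮.M ν)).card) → (w ∈ T' ν ∧
        ((T' ν).image (𝒮.M ν)).card ≤
        n * (((T' ν).filter (fun z => f ν z = f ν w)).image (𝒮.M ν)).card) := by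
      intro ν
      by_cases h : ∃ z0 ∈ T' ν, ((T' ν).image (𝒮.M ν)).card ≤
        n * (((T' ν).filter (fun z => f ν z = f ν z0)).image (𝒮.M ν)).card
      · obtain ⟨w, hw⟩ := h
        exact ⟨w, fun _ => hw⟩
      · exact ⟨0, fun h' => absurd h' h⟩
    choose z0 hz using hex
    refine ⟨z0, ?_⟩
    filter_upwards [hz0] with ν h
    exact hz ν h
  have hmem : ∀ R : MvPolynomial ι (Zb 𝒮.F), (fun ν => 𝒮.ev ν (z0 ν) R) ∈ Zb 𝒮.F := by
    intro R
    obtain ⟨C0, hC0⟩ := poly_bound 𝒮.F 𝒮.T 𝒮.bdd R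
    refine ⟨C0, ?_⟩
    filter_upwards [hC0, hz0'] with ν h1 h2
    exact h1 (z0 ν) ((hT' ν _).mp h2.1).1
  let a : Zb 𝒮.F := ⟨fun ν => 𝒮.ev ν (z0 ν) A, hmem A⟩
  let b : Zb 𝒮.F := ⟨fun ν => 𝒮.ev ν (z0 ν) B, hmem B⟩
  have ha : ∀ ν, (a : ℕ → ℤ) ν = 𝒮.ev ν (z0 ν) A := fun ν => rfl
  have hb : ∀ ν, (b : ℕ → ℤ) ν = 𝒮.ev ν (z0 ν) B := fun ν => rfl
  have hb0 : toK 𝒮.F b ≠ 0 := by
    rw [toK_ne_zero_iff]
    filter_upwards [hz0'] with ν h
    rw [hb]
    exact ((hT' ν _).mp h.1).2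
  have hns : ¬ 𝒮.Small (fun ν z => 𝒮.ev ν z B ≠ 0 ∧
      𝒮.ev ν z A * (b : ℕ → ℤ) ν = (a : ℕ → ℤ) ν * 𝒮.ev ν z B) := by
    intro hS
    apply hS
    obtain ⟨δ, hδ, hev⟩ := hL
    refine ⟨δ / 2, by positivity, ?_⟩
    have hX := 𝒮.F.tends ⌈(n : ℝ) ^ (2 / δ)⌉₊
    filter_upwards [hev, hz0', hX] with ν h1 h2 h3
    have hXp : (0 : ℝ) < 𝒮.F.X ν := by
      have := 𝒮.F.two_le ν
      exact_mod_cast (by omega : 0 < 𝒮.F.X ν)
    have h3' : (n : ℝ) ^ (2 / δ) ≤ (𝒮.F.X ν : ℝ) :=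
      (Nat.le_ceil _).trans (by exact_mod_cast h3)
    have hnX : (n : ℝ) ≤ (𝒮.F.X ν : ℝ) ^ (δ / 2) := by
      have h4 := Real.rpow_le_rpow (by positivity) h3' (show 0 ≤ δ / 2 by positivity)
      rw [← Real.rpow_mul (by positivity)] at h4
      have h5 : 2 / δ * (δ / 2) = 1 := by field_simp
      rwa [h5, Real.rpow_one] at h4
    have hsub : ((T' ν).filter (fun z => f ν z = f ν (z0 ν))).image (𝒮.M ν) ⊆
        (𝒮.sub (fun ν z => 𝒮.ev ν z B ≠ 0 ∧
          𝒮.ev ν z A * (b : ℕ → ℤ) ν = (a : ℕ → ℤ) ν * 𝒮.ev ν z B) ν).image (𝒮.M ν) := by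
      apply Finset.image_subset_image
      intro z hz
      obtain ⟨hz1, hz2⟩ := Finset.mem_filter.mp hz
      obtain ⟨hz3, hz4⟩ := (hT' ν z).mp hz1
      obtain ⟨_, hz6⟩ := (hT' ν _).mp h2.1
      rw [𝒮.mem_sub]
      refine ⟨hz3, hz4, ?_⟩
      have hBq : ((𝒮.ev ν z B : ℤ) : ℚ) ≠ 0 := by exact_mod_cast hz4
      have hBq0 : ((𝒮.ev ν (z0 ν) B : ℤ) : ℚ) ≠ 0 := by exact_mod_cast hz6
      simp only [f] at hz2
      rw [div_eq_div_iff hBq hBq0] at hz2
      rw [ha, hb]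
      exact_mod_cast hz2
    have h6 : (𝒮.F.X ν : ℝ) ^ δ ≤ (n : ℝ) *
        ((((T' ν).filter (fun z => f ν z = f ν (z0 ν))).image (𝒮.M ν)).card : ℝ) := by
      refine h1.trans ?_
      exact_mod_cast h2.2
    have h7 : ((((T' ν).filter (fun z => f ν z = f ν (z0 ν))).image (𝒮.M ν)).card : ℝ) ≤
        (((𝒮.sub (fun ν z => 𝒮.ev ν z B ≠ 0 ∧
          𝒮.ev ν z A * (b : ℕ → ℤ) ν = (a : ℕ → ℤ) ν * 𝒮.ev ν z B) ν).image (𝒮.M ν)).card : ℝ) := by
      exact_mod_cast Finset.card_le_card hsub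
    refine le_trans ?_ h7
    have h8 : (𝒮.F.X ν : ℝ) ^ δ = (𝒮.F.X ν : ℝ) ^ (δ / 2) * (𝒮.F.X ν : ℝ) ^ (δ / 2) := by
      rw [← Real.rpow_add hXp]
      congr 1
      ring
    have hpos : (0 : ℝ) < (𝒮.F.X ν : ℝ) ^ (δ / 2) := Real.rpow_pos_of_pos hXp _
    rw [h8] at h6
    have h9 : (𝒮.F.X ν : ℝ) ^ (δ / 2) * (𝒮.F.X ν : ℝ) ^ (δ / 2) ≤ (𝒮.F.X ν : ℝ) ^ (δ / 2) *
        ((((T' ν).filter (fun z => f ν z = f ν (z0 ν))).image (𝒮.M ν)).card : ℝ) :=
      h6.trans (mul_le_mul_of_nonneg_right hnX (Nat.cast_nonneg _))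
    exact le_of_mul_le_mul_left h9 hpos
  have hD : 𝒮.cls (C b * A - C a * B) = 0 := by
    refine 𝒮.cls_eq_zero_of_not_small hns (Filter.Eventually.of_forall fun ν z _ hz => ?_)
    rw [map_sub, map_mul, map_mul, 𝒮.ev_C, 𝒮.ev_C, mul_comm ((b : ℕ → ℤ) ν), hz.2, sub_self]
  rw [map_sub, map_mul, map_mul, 𝒮.cls_C, 𝒮.cls_C, ← hBA] at hD
  have hbL : algebraMap (K0 𝒮.F) 𝒮.L (toK 𝒮.F b) ≠ 0 := by
    intro h
    exact hb0 ((algebraMap (K0 𝒮.F) 𝒮.L).injective (by rw [h, map_zero]))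
  refine ⟨toK 𝒮.F a / toK 𝒮.F b, ?_⟩
  rw [map_div₀, div_eq_iff hbL]
  have h10 : (algebraMap (K0 𝒮.F) 𝒮.L (toK 𝒮.F a) -
      c * algebraMap (K0 𝒮.F) 𝒮.L (toK 𝒮.F b)) * 𝒮.cls B = 0 := by
    linear_combination -hD
  have h11 := (mul_eq_zero.mp h10).resolve_right hB0
  exact sub_eq_zero.mp h11

end Pool.Agent.Helper85.VA
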