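import Pool.Agent.Helper85.VA.Defs
import Pool.Agent.Helper91.CPX.Nonzero
import Pool.Agent.Helper91.CPX.Lift

/-!
VA-B1. Basic facts on `cls`, `ev`, `Small`.
-/

open MvPolynomial

namespace Pool.Agent.Helper85.VA

open Pool.Agent.Helper91.CPX

variable {ι : Type} [Fintype ι] [DecidableEq ι] (𝒮 : Setup ι)

@[simp] theorem Setup.ev_X (ν : ℕ) (z : ι → ℤ) (v : ι) : 𝒮.ev ν z (X v) = z v := by
  simp [Setup.ev]

@[simp] theorem Setup.ev_C (ν : ℕ) (z : ι → ℤ) (a : Zb 𝒮.F) : 𝒮.ev ν z (C a) = (a : ℕ → ℤ) ν := by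
  simp [Setup.ev, evAt_apply]

theorem Setup.ev_def (ν : ℕ) (z : ι → ℤ) (p : MvPolynomial ι (Zb 𝒮.F)) :
    𝒮.ev ν z p = eval z (map (evAt 𝒮.F ν) p) := rfl

theorem Setup.qmk_eq_zero_iff (p : MvPolynomial ι (K0 𝒮.F)) :
    𝒮.qmk p = 0 ↔ p ∈ vanIdeal 𝒮.F 𝒮.T := by
  change Ideal.Quotient.mk (vanIdeal 𝒮.F 𝒮.T) p = 0 ↔ _
  exact Ideal.Quotient.eq_zero_iff_mem

theorem Setup.qmk_surjective : Function.Surjective 𝒮.qmk :=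
  Ideal.Quotient.mkₐ_surjective (K0 𝒮.F) (vanIdeal 𝒮.F 𝒮.T)

theorem Setup.cls_apply (p : MvPolynomial ι (Zb 𝒮.F)) :
    𝒮.cls p = algebraMap 𝒮.A 𝒮.L (𝒮.qmk (map (toK 𝒮.F) p)) := rfl

theorem Setup.cls_eq_zero_iff_mem (p : MvPolynomial ι (Zb 𝒮.F)) :
    𝒮.cls p = 0 ↔ map (toK 𝒮.F) p ∈ vanIdeal 𝒮.F 𝒮.T := by
  rw [Setup.cls_apply, ← 𝒮.qmk_eq_zero_iff]
  constructor
  · intro h
    exact IsFractionRing.injective 𝒮.A 𝒮.L (by rw [h, map_zero])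
  · intro h
    rw [h, map_zero]

theorem Setup.cls_eq_zero_iff (p : MvPolynomial ι (Zb 𝒮.F)) :
    𝒮.cls p = 0 ↔ ∀ᶠ ν in (𝒮.F.U : Filter ℕ), ∀ z ∈ 𝒮.T ν, 𝒮.ev ν z p = 0 := by
  rw [𝒮.cls_eq_zero_iff_mem, los 𝒮.F 𝒮.T 𝒮.bdd]
  rfl

theorem Setup.cls_eq_iff (p q : MvPolynomial ι (Zb 𝒮.F)) :
    𝒮.cls p = 𝒮.cls q ↔ ∀ᶠ ν in (𝒮.F.U : Filter ℕ), ∀ z ∈ 𝒮.T ν, 𝒮.ev ν z p = 𝒮.ev ν z q := by
  rw [← sub_eq_zero, ← map_sub, 𝒮.cls_eq_zero_iff]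
  simp only [map_sub, sub_eq_zero]

theorem Setup.cls_C (a : Zb 𝒮.F) : 𝒮.cls (C a) = algebraMap (K0 𝒮.F) 𝒮.L (toK 𝒮.F a) := by
  rw [Setup.cls_apply, map_C, IsScalarTower.algebraMap_apply (K0 𝒮.F) 𝒮.A 𝒮.L]
  congr 1

theorem Setup.cls_X_ne (v : ι) : 𝒮.cls (X v) ≠ 0 := by
  rw [ne_eq, 𝒮.cls_eq_zero_iff]
  intro h
  obtain ⟨ν, h1, z, hz⟩ := (h.and (large_nonempty 𝒮.F 𝒮.M 𝒮.T 𝒮.large)).exists
  have h2 := h1 z hz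
  rw [𝒮.ev_X] at h2
  have h3 := (𝒮.bdd ν z hz v).1
  omega

/-- Every element of the function field is a quotient of classes of polynomials over `Zb F`. -/
theorem Setup.exists_frac (y : 𝒮.L) : ∃ P Q : MvPolynomial ι (Zb 𝒮.F),
    𝒮.cls Q ≠ 0 ∧ 𝒮.cls Q * y = 𝒮.cls P := by
  obtain ⟨x, w, hw, rfl⟩ := IsFractionRing.div_surjective (A := 𝒮.A) y
  obtain ⟨p, rfl⟩ := 𝒮.qmk_surjective x
  obtain ⟨q, rfl⟩ := 𝒮.qmk_surjective w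
  obtain ⟨b, P, hb, hP⟩ := lift_mv (toK 𝒮.F) (toK_frac 𝒮.F) p
  obtain ⟨c, Q, hc, hQ⟩ := lift_mv (toK 𝒮.F) (toK_frac 𝒮.F) q
  have hinj := IsFractionRing.injective 𝒮.A 𝒮.L
  have hq0 : algebraMap 𝒮.A 𝒮.L (𝒮.qmk q) ≠ 0 := by
    intro h
    exact (mem_nonZeroDivisors_iff_ne_zero.mp hw) (hinj (by rw [h, map_zero]))
  have hCb : ∀ b : Zb 𝒮.F, toK 𝒮.F b ≠ 0 → 𝒮.cls (C b) ≠ 0 := by
    intro b hb h
    rw [𝒮.cls_C] at h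
    exact hb ((algebraMap (K0 𝒮.F) 𝒮.L).injective (by rw [h, map_zero]))
  have h1 : 𝒮.cls P = 𝒮.cls (C b) * algebraMap 𝒮.A 𝒮.L (𝒮.qmk p) := by
    rw [Setup.cls_apply, hP, map_mul, map_mul, Setup.cls_apply, map_C]
  have h2 : 𝒮.cls Q = 𝒮.cls (C c) * algebraMap 𝒮.A 𝒮.L (𝒮.qmk q) := by
    rw [Setup.cls_apply, hQ, map_mul, map_mul, Setup.cls_apply, map_C]
  refine ⟨C c * P, C b * Q, ?_, ?_⟩
  · rw [map_mul, h2]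
    exact mul_ne_zero (hCb b hb) (mul_ne_zero (hCb c hc) hq0)
  · rw [map_mul, map_mul, h1, h2]
    field_simp

/-! ### Small sets -/

theorem Setup.sub_subset {Q : ℕ → (ι → ℤ) → Prop} (ν : ℕ) : 𝒮.sub Q ν ⊆ 𝒮.T ν :=
  fun _ hz => (𝒮.mem_sub.mp hz).1

theorem Setup.Small.mono {𝒮 : Setup ι} {Q Q' : ℕ → (ι → ℤ) → Prop} (hQ : 𝒮.Small Q)
    (h : ∀ᶠ ν in (𝒮.F.U : Filter ℕ), ∀ z ∈ 𝒮.T ν, Q' ν z → Q ν z) : 𝒮.Small Q' := by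
  intro hL
  refine hQ (large_mono 𝒮.F 𝒮.M _ _ ?_ hL)
  filter_upwards [h] with ν h1 z hz
  rw [𝒮.mem_sub] at hz ⊢
  exact ⟨hz.1, h1 z hz.1 hz.2⟩

theorem Setup.Small.or {𝒮 : Setup ι} {Q Q' : ℕ → (ι → ℤ) → Prop} (hQ : 𝒮.Small Q)
    (hQ' : 𝒮.Small Q') : 𝒮.Small (fun ν z => Q ν z ∨ Q' ν z) := by
  intro hL
  have h1 := large_mono 𝒮.F 𝒮.M _ (fun ν => 𝒮.sub Q ν ∪ 𝒮.sub Q' ν)
    (Filter.Eventually.of_forall fun ν => by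
      intro z hz
      rw [𝒮.mem_sub] at hz
      rw [Finset.mem_union, 𝒮.mem_sub, 𝒮.mem_sub]
      rcases hz.2 with h | h
      · exact Or.inl ⟨hz.1, h⟩
      · exact Or.inr ⟨hz.1, h⟩) hL
  rcases large_union 𝒮.F 𝒮.M _ _ h1 with h | h
  · exact hQ h
  · exact hQ' h

theorem Setup.small_of_eventually {Q : ℕ → (ι → ℤ) → Prop}
    (h : ∀ᶠ ν in (𝒮.F.U : Filter ℕ), ∀ z ∈ 𝒮.T ν, ¬ Q ν z) : 𝒮.Small Q := by
  intro hL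
  obtain ⟨ν, h1, z, hz⟩ := (h.and (large_nonempty 𝒮.F 𝒮.M _ hL)).exists
  rw [𝒮.mem_sub] at hz
  exact h1 z hz.1 hz.2

theorem Setup.Small.exists {𝒮 : Setup ι} {κ : Type} [Finite κ] {Q : κ → ℕ → (ι → ℤ) → Prop}
    (hQ : ∀ a, 𝒮.Small (Q a)) : 𝒮.Small (fun ν z => ∃ a, Q a ν z) := by
  classical
  have := Fintype.ofFinite κ
  have key : ∀ s : Finset κ, 𝒮.Small (fun ν z => ∃ a ∈ s, Q a ν z) := by
    intro s
    induction s using Finset.induction_on with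
    | empty => exact 𝒮.small_of_eventually (Filter.Eventually.of_forall fun ν z _ h => by simp at h)
    | insert a s _ ih =>
      refine ((hQ a).or ih).mono (Filter.Eventually.of_forall fun ν z _ h => ?_)
      obtain ⟨b, hb, h⟩ := h
      rcases Finset.mem_insert.mp hb with rfl | hb
      · exact Or.inl h
      · exact Or.inr ⟨b, hb, h⟩
  refine (key Finset.univ).mono (Filter.Eventually.of_forall fun ν z _ h => ?_)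
  obtain ⟨a, h⟩ := h
  exact ⟨a, Finset.mem_univ a, h⟩

/-- If the points with `Q` do not form a small set then every family containing them is large. -/
theorem Setup.large_of_not_small {Q : ℕ → (ι → ℤ) → Prop} (h : ¬ 𝒮.Small Q)
    (T' : ℕ → Finset (ι → ℤ)) (hT' : ∀ᶠ ν in (𝒮.F.U : Filter ℕ), ∀ z ∈ 𝒮.T ν, Q ν z → z ∈ T' ν) :
    Large 𝒮.F 𝒮.M T' := by
  have h1 := not_not.mp h
  refine large_mono 𝒮.F 𝒮.M _ _ ?_ h1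
  filter_upwards [hT'] with ν h2 z hz
  rw [𝒮.mem_sub] at hz
  exact h2 z hz.1 hz.2

/-- The complement of a small set is large. -/
theorem Setup.Small.large_compl {𝒮 : Setup ι} {Q : ℕ → (ι → ℤ) → Prop} (hQ : 𝒮.Small Q) :
    Large 𝒮.F 𝒮.M (𝒮.sub (fun ν z => ¬ Q ν z)) := by
  have h1 := large_mono 𝒮.F 𝒮.M 𝒮.T (fun ν => 𝒮.sub Q ν ∪ 𝒮.sub (fun ν z => ¬ Q ν z) ν)
    (Filter.Eventually.of_forall fun ν => by
      intro z hz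
      rw [Finset.mem_union, 𝒮.mem_sub, 𝒮.mem_sub]
      by_cases h : Q ν z
      · exact Or.inl ⟨hz, h⟩
      · exact Or.inr ⟨hz, h⟩) 𝒮.large
  rcases large_union 𝒮.F 𝒮.M _ _ h1 with h | h
  · exact absurd h hQ
  · exact h

theorem Setup.Small.exists_not {𝒮 : Setup ι} {Q : ℕ → (ι → ℤ) → Prop} (hQ : 𝒮.Small Q) :
    ∀ᶠ ν in (𝒮.F.U : Filter ℕ), ∃ z ∈ 𝒮.T ν, ¬ Q ν z := by
  filter_upwards [large_nonempty 𝒮.F 𝒮.M _ hQ.large_compl] with ν h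
  obtain ⟨z, hz⟩ := h
  rw [𝒮.mem_sub] at hz
  exact ⟨z, hz.1, hz.2⟩

/-- The zeros of a polynomial of nonzero class form a small set. -/
theorem Setup.small_zero {p : MvPolynomial ι (Zb 𝒮.F)} (hp : 𝒮.cls p ≠ 0) :
    𝒮.Small (fun ν z => 𝒮.ev ν z p = 0) := by
  intro hL
  have he := 𝒮.max _ 𝒮.sub_subset hL
  apply hp
  rw [𝒮.cls_eq_zero_iff_mem, ← he]
  have hB : Bdd 𝒮.F (𝒮.sub (fun ν z => 𝒮.ev ν z p = 0)) :=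
    fun ν z hz => 𝒮.bdd ν z (𝒮.sub_subset ν hz)
  rw [los 𝒮.F _ hB p]
  exact Filter.Eventually.of_forall fun ν z hz => (𝒮.mem_sub.mp hz).2

/-- A polynomial vanishing on a set that is not small has class zero. -/
theorem Setup.cls_eq_zero_of_not_small {p : MvPolynomial ι (Zb 𝒮.F)} {Q : ℕ → (ι → ℤ) → Prop}
    (hQ : ¬ 𝒮.Small Q)
    (h : ∀ᶠ ν in (𝒮.F.U : Filter ℕ), ∀ z ∈ 𝒮.T ν, Q ν z → 𝒮.ev ν z p = 0) : 𝒮.cls p = 0 := by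
  by_contra hp
  exact hQ ((𝒮.small_zero hp).mono h)

end Pool.Agent.Helper85.VA
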