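import Pool.Agent.Helper85.VA.Defs

/-!
VA-C2. Campana points with few exponents and Darmon points have coordinates of the form `PowLike`.

Proof. `n = x.natAbs = ∏ p ∈ n.primeFactors, p ^ v_p`, `v_p = n.factorization p` (`Nat.factorization_prod_pow_eq_self`, or `Nat.prod_factorization_pow_eq_self`).
`powLike_of_few`: let `V` be the set of the exponents `v_p` of the primes `p ∣ n`, `p ∉ S ∪ A`, `card V ≤ k`: choose an injection/enumeration
`e : Fin k → ℕ` of `V` with the remaining values `m`, and `z j = ∏ (p ∣ n, p ∉ S ∪ A, v_p = e j) p` for the `j` used, `z j = 1` for the others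
(for example: `V` is the image of `f : Fin (card V) → ℕ`, `Finset.orderEmbOfFin`, and `j : Fin k` is used if `j < card V`). The factor is
`A0 = ∏ (p ∣ n, p ∈ S ∪ A) p ^ v_p`; its prime factors outside `S` are in `A`, so their product is at most `∏ p ∈ A, p ≤ R` (`Finset.prod_le_prod_of_subset..`,
the elements of `A` are `≥ 1`). The exponents satisfy `e j ≥ m` by the Campana condition.
`powLike_of_darmon`: one power. If `μ = ⊤` all primes of `n` are in `S`: `A0 = n`, `z = 1`, `e = m`. If `μ = M ≥ m`: `A0 = ∏ (p ∣ n, p ∈ S) p ^ v_p`,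
`z 0 = ∏ (p ∣ n, p ∉ S) p ^ (v_p / M)`, `e = M`; the radical of `A0` outside `S` is the empty product `1`.
-/

namespace Pool.Agent.Helper85.VA

/-- Campana condition: the valuation of `x` at a prime outside `S` is zero or at least `μ`. -/
def CampanaAt (S : Finset ℕ) (μ : ℕ∞) (x : ℤ) : Prop :=
  ∀ p : ℕ, p.Prime → p ∉ S → p ∣ x.natAbs → μ ≤ (x.natAbs.factorization p : ℕ∞)

/-- Darmon condition: the valuation of `x` at a prime outside `S` is divisible by `μ` (is zero if `μ = ⊤`). -/
def DarmonAt (S : Finset ℕ) (μ : ℕ∞) (x : ℤ) : Prop :=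
  ∀ p : ℕ, p.Prime → p ∉ S → (μ = ⊤ → ¬ p ∣ x.natAbs) ∧
    ∀ M : ℕ, μ = M → M ∣ x.natAbs.factorization p

/-- Apart from the primes in `S` and some primes whose product is at most `R`, at most `k` different exponents
occur in the factorization of `x`. -/
def FewExp (S : Finset ℕ) (k R : ℕ) (x : ℤ) : Prop :=
  ∃ A : Finset ℕ, (∀ p ∈ A, p.Prime) ∧ ∏ p ∈ A, p ≤ R ∧
    ((x.natAbs.primeFactors \ (S ∪ A)).image (fun p => x.natAbs.factorization p)).card ≤ k

private lemma few_aux (v : ℕ → ℕ) (m : ℕ) : ∀ (k : ℕ) (Q : Finset ℕ), (∀ p ∈ Q, m ≤ v p) →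
    (Q.image v).card ≤ k →
    ∃ z e : Fin k → ℕ, ∏ p ∈ Q, p ^ v p = ∏ j, z j ^ e j ∧ ∀ j, m ≤ e j := by
  intro k
  induction k with
  | zero =>
    intro Q hQ hc
    have h0 : Q.image v = ∅ := Finset.card_eq_zero.mp (Nat.le_zero.mp hc)
    have h1 : Q = ∅ := Finset.image_eq_empty.mp h0
    subst h1
    exact ⟨Fin.elim0, Fin.elim0, by simp, fun j => j.elim0⟩
  | succ k ih =>
    intro Q hQ hc
    rcases Q.eq_empty_or_nonempty with rfl | ⟨q, hq⟩
    · exact ⟨fun _ => 1, fun _ => m, by simp, fun _ => le_rfl⟩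
    · have hsub : (Q.filter (fun p => ¬ v p = v q)).image v ⊆ (Q.image v).erase (v q) := by
        intro a ha
        obtain ⟨p, hp, rfl⟩ := Finset.mem_image.mp ha
        rw [Finset.mem_filter] at hp
        exact Finset.mem_erase.mpr ⟨hp.2, Finset.mem_image_of_mem v hp.1⟩
      have hcard : ((Q.filter (fun p => ¬ v p = v q)).image v).card ≤ k := by
        have h1 := Finset.card_le_card hsub
        rw [Finset.card_erase_of_mem (Finset.mem_image_of_mem v hq)] at h1
        omega
      obtain ⟨z, e, hze, he⟩ := ih (Q.filter (fun p => ¬ v p = v q))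
        (fun p hp => hQ p (Finset.mem_filter.mp hp).1) hcard
      refine ⟨Fin.cons (∏ p ∈ Q.filter (fun p => v p = v q), p) z, Fin.cons (v q) e, ?_, ?_⟩
      · rw [Fin.prod_univ_succ]
        simp only [Fin.cons_zero, Fin.cons_succ]
        rw [← hze, ← Finset.prod_filter_mul_prod_filter_not Q (fun p => v p = v q),
          ← Finset.prod_pow]
        congr 1
        refine Finset.prod_congr rfl fun p hp => ?_
        rw [(Finset.mem_filter.mp hp).2]
      · intro j
        refine Fin.cases ?_ ?_ j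
        · exact hQ q hq
        · intro i
          exact he i

private lemma split_prod (n : ℕ) (hn : n ≠ 0) (T : Finset ℕ) :
    n = (∏ p ∈ n.primeFactors.filter (fun p => p ∈ T), p ^ n.factorization p) *
      ∏ p ∈ n.primeFactors \ T, p ^ n.factorization p := by
  have h1 : ∏ p ∈ n.primeFactors, p ^ n.factorization p = n :=
    Nat.prod_factorization_pow_eq_self hn
  have h2 : n.primeFactors \ T = n.primeFactors.filter (fun p => ¬ p ∈ T) := by
    ext p
    simp only [Finset.mem_sdiff, Finset.mem_filter]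
  rw [h2, Finset.prod_filter_mul_prod_filter_not, h1]

private lemma primeFactors_prod_sub (n : ℕ) (T : Finset ℕ) :
    (∏ p ∈ n.primeFactors.filter (fun p => p ∈ T), p ^ n.factorization p).primeFactors ⊆ T := by
  intro p hp
  have hpp := Nat.prime_of_mem_primeFactors hp
  have hd := Nat.dvd_of_mem_primeFactors hp
  obtain ⟨q, hq, hpq⟩ := (Prime.dvd_finsetProd_iff hpp.prime _).mp hd
  rw [Finset.mem_filter] at hq
  have hqp := Nat.prime_of_mem_primeFactors hq.1
  have h3 := hpp.dvd_of_dvd_pow hpq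
  rw [(Nat.prime_dvd_prime_iff_eq hpp hqp).mp h3]
  exact hq.2

theorem powLike_of_few (S : Finset ℕ) (m k R : ℕ) (x : ℤ) (hx : x ≠ 0) (μ : ℕ∞)
    (hμ : (m : ℕ∞) ≤ μ) (hC : CampanaAt S μ x) (hF : FewExp S k R x) : PowLike S m k R x := by
  have hn : x.natAbs ≠ 0 := Int.natAbs_ne_zero.mpr hx
  obtain ⟨A, hA, hAR, hV⟩ := hF
  obtain ⟨z, e, hze, he⟩ := few_aux (fun p => x.natAbs.factorization p) m k
    (x.natAbs.primeFactors \ (S ∪ A)) (by
      intro p hp
      rw [Finset.mem_sdiff, Finset.mem_union, not_or] at hp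
      have h1 := hC p (Nat.prime_of_mem_primeFactors hp.1) hp.2.1 (Nat.dvd_of_mem_primeFactors hp.1)
      exact_mod_cast hμ.trans h1) hV
  refine ⟨∏ p ∈ x.natAbs.primeFactors.filter (fun p => p ∈ S ∪ A),
    p ^ x.natAbs.factorization p, z, e, ?_, he, ?_⟩
  · exact split_prod x.natAbs hn (S ∪ A) |>.trans (by rw [← hze])
  · refine le_trans ?_ hAR
    refine Finset.prod_le_prod_of_subset_of_one_le' ?_ ?_
    · intro p hp
      rw [Finset.mem_sdiff] at hp
      have h1 := primeFactors_prod_sub x.natAbs (S ∪ A) hp.1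
      rw [Finset.mem_union] at h1
      exact h1.resolve_left hp.2
    · intro p hp _
      exact (hA p hp).one_lt.le


theorem powLike_of_darmon (S : Finset ℕ) (m : ℕ) (hm : 1 ≤ m) (x : ℤ) (hx : x ≠ 0) (μ : ℕ∞)
    (hμ : (m : ℕ∞) ≤ μ) (hD : DarmonAt S μ x) : PowLike S m 1 1 x := by
  have hn : x.natAbs ≠ 0 := Int.natAbs_ne_zero.mpr hx
  induction μ using ENat.recTopCoe with
  | top =>
    refine ⟨x.natAbs, fun _ => 1, fun _ => m, by simp, fun _ => le_rfl, ?_⟩
    have h0 : x.natAbs.primeFactors \ S = ∅ := by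
      rw [Finset.sdiff_eq_empty_iff_subset]
      intro p hp
      by_contra hpS
      exact (hD p (Nat.prime_of_mem_primeFactors hp) hpS).1 rfl (Nat.dvd_of_mem_primeFactors hp)
    rw [h0]
    simp
  | coe M =>
    refine ⟨∏ p ∈ x.natAbs.primeFactors.filter (fun p => p ∈ S), p ^ x.natAbs.factorization p,
      fun _ => ∏ p ∈ x.natAbs.primeFactors \ S, p ^ (x.natAbs.factorization p / M),
      fun _ => M, ?_, fun _ => by exact_mod_cast hμ, ?_⟩
    · exact (split_prod x.natAbs hn S).trans (by
        congr 1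
        simp only [Finset.univ_unique, Finset.prod_singleton]
        rw [← Finset.prod_pow]
        refine Finset.prod_congr rfl fun p hp => ?_
        rw [Finset.mem_sdiff] at hp
        rw [← pow_mul, Nat.div_mul_cancel
          ((hD p (Nat.prime_of_mem_primeFactors hp.1) hp.2).2 M rfl)])
    · have h0 : (∏ p ∈ x.natAbs.primeFactors.filter (fun p => p ∈ S),
          p ^ x.natAbs.factorization p).primeFactors \ S = ∅ := by
        rw [Finset.sdiff_eq_empty_iff_subset]
        exact primeFactors_prod_sub x.natAbs S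
      rw [h0]
      simp


end Pool.Agent.Helper85.VA
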