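import Pool.Agent.Helper85.VA.Defs

/-!
VA-A1. A subspace stable under twisted derivations is the sum of its parts over the classes.

Proof. `rel_refl`: `h = 1`. `rel_symm`: `h⁻¹` (`δ (h⁻¹) = - δ h / h ^ 2`, `Derivation.leibniz_inv`). `rel_trans`: `h h'`.
`class_mem`: strong induction on the cardinality of the support `{b | w b ≠ 0}` of `w`. If `w = 0` clear. Otherwise choose
`u ∈ W`, `u ≠ 0`, with support contained in the support of `w` and of minimal cardinality, and `b1` with `u b1 ≠ 0`. For a
derivation `δ` put `c = δ (u b1) / u b1 + om b1 δ`. The vector `b ↦ δ (u b) + om b δ * u b - c * u b` is in `W` by `hW`,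
vanishes where `u` vanishes and at `b1`, so it is `0` by minimality. So for all `b` with `u b ≠ 0` and all `δ`:
`δ (u b) / u b + om b δ = δ (u b1) / u b1 + om b1 δ`, i.e. `h = u b1 / u b` satisfies `δ h = (om b δ - om b1 δ) h`:
`Rel om b1 b`. So the support of `u` is contained in one class: by `rel_symm`, `rel_trans` either all `b` in the support of
`u` satisfy `Rel om b0 b` or none does, and the part of `u` in the class of `b0` is `u` or `0`, in both cases in `W`. The vector
`w' = w - (w b1 / u b1) u ∈ W` has smaller support than `w` (contained in that of `w`, without `b1`), so its part is in `W`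
by induction, and the part of `w` is the part of `w'` plus `(w b1 / u b1)` times the part of `u`.
-/

namespace Pool.Agent.Helper85.VA

variable {K L : Type} [Field K] [Field L] [Algebra K L] {β : Type}

theorem rel_refl (om : β → Derivation K L L → L) (b : β) : Rel om b b := by
  refine ⟨1, one_ne_zero, fun δ => ?_⟩
  rw [Derivation.map_one_eq_zero, sub_self, zero_mul]

theorem rel_symm (om : β → Derivation K L L → L) {b b' : β} (h : Rel om b b') : Rel om b' b := by
  obtain ⟨h, h0, hd⟩ := h
  refine ⟨h⁻¹, inv_ne_zero h0, fun δ => ?_⟩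
  rw [Derivation.leibniz_inv, hd δ, smul_eq_mul]
  field_simp
  ring

theorem rel_trans (om : β → Derivation K L L → L) {b b' b'' : β} (h : Rel om b b')
    (h' : Rel om b' b'') : Rel om b b'' := by
  obtain ⟨h, h0, hd⟩ := h
  obtain ⟨g, g0, gd⟩ := h'
  refine ⟨h * g, mul_ne_zero h0 g0, fun δ => ?_⟩
  rw [Derivation.leibniz, hd δ, gd δ, smul_eq_mul, smul_eq_mul]
  ring

private theorem rel_of_eq (om : β → Derivation K L L → L) (u : β → L) (b b1 : β) (h1 : u b1 ≠ 0)
    (hb : u b ≠ 0)
    (h : ∀ δ : Derivation K L L,
      δ (u b) + om b δ * u b - (δ (u b1) / u b1 + om b1 δ) * u b = 0) : Rel om b1 b := by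
  refine ⟨u b1 * (u b)⁻¹, mul_ne_zero h1 (inv_ne_zero hb), fun δ => ?_⟩
  have h2 := h δ
  have h3 : δ (u b) = (δ (u b1) / u b1 + om b1 δ - om b δ) * u b := by linear_combination h2
  rw [Derivation.leibniz, Derivation.leibniz_inv, h3, smul_eq_mul, smul_eq_mul, smul_eq_mul]
  field_simp
  ring

open scoped Classical in
theorem class_mem [Fintype β] (om : β → Derivation K L L → L) (W : Submodule L (β → L))
    (hW : ∀ δ : Derivation K L L, ∀ w ∈ W, (fun b => δ (w b) + om b δ * w b) ∈ W)
    (w : β → L) (hw : w ∈ W) (b0 : β) :
    (fun b => if Rel om b0 b then w b else 0) ∈ W := by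
  obtain ⟨n, hn⟩ : ∃ n, (Finset.univ.filter (fun b => w b ≠ 0)).card = n := ⟨_, rfl⟩
  induction n using Nat.strong_induction_on generalizing w with
  | _ n ih =>
  by_cases hw0 : w = 0
  · subst hw0
    have : (fun b => if Rel om b0 b then (0 : β → L) b else 0) = 0 := by
      funext b
      simp
    rw [this]
    exact W.zero_mem
  · -- minimal support
    have hex : ∃ k : ℕ, ∃ u ∈ W, u ≠ 0 ∧ (∀ b, u b ≠ 0 → w b ≠ 0) ∧
        (Finset.univ.filter (fun b => u b ≠ 0)).card = k := ⟨_, w, hw, hw0, fun b h => h, rfl⟩
    obtain ⟨u, hu, hu0, husub, hucard⟩ := Nat.find_spec hex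
    have hmin : ∀ v ∈ W, (∀ b, v b ≠ 0 → w b ≠ 0) →
        (Finset.univ.filter (fun b => v b ≠ 0)).card <
          (Finset.univ.filter (fun b => u b ≠ 0)).card → v = 0 := by
      intro v hv hvsub hlt
      by_contra hv0
      rw [hucard] at hlt
      exact Nat.find_min hex hlt ⟨v, hv, hv0, hvsub, rfl⟩
    obtain ⟨b1, hb1⟩ : ∃ b1, u b1 ≠ 0 := by
      by_contra hcon
      push Not at hcon
      exact hu0 (funext hcon)
    have hrel : ∀ b, u b ≠ 0 → Rel om b1 b := by
      intro b hb
      apply rel_of_eq om u b b1 hb1 hb
      intro δ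
      have hv : (fun b => δ (u b) + om b δ * u b) - (δ (u b1) / u b1 + om b1 δ) • u ∈ W :=
        W.sub_mem (hW δ u hu) (W.smul_mem _ hu)
      have hvz : ∀ b, u b = 0 → ((fun b => δ (u b) + om b δ * u b) -
          (δ (u b1) / u b1 + om b1 δ) • u) b = 0 := by
        intro b hb
        simp [hb]
      have hvb1 : ((fun b => δ (u b) + om b δ * u b) -
          (δ (u b1) / u b1 + om b1 δ) • u) b1 = 0 := by
        simp only [Pi.sub_apply, Pi.smul_apply, smul_eq_mul]
        field_simp
        ring
      have h0 := hmin _ hv (fun b hb => husub b (fun h => hb (hvz b h))) (by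
        apply Finset.card_lt_card
        rw [Finset.ssubset_iff_of_subset]
        · refine ⟨b1, ?_, ?_⟩
          · rw [Finset.mem_filter]
            exact ⟨Finset.mem_univ _, hb1⟩
          · rw [Finset.mem_filter]
            intro hcon
            exact hcon.2 hvb1
        · intro b hb
          rw [Finset.mem_filter] at hb ⊢
          exact ⟨Finset.mem_univ _, fun h => hb.2 (hvz b h)⟩)
      have h1 := congrFun h0 b
      simpa using h1
    have hupart : (fun b => if Rel om b0 b then u b else 0) ∈ W := by
      by_cases h : Rel om b0 b1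
      · have : (fun b => if Rel om b0 b then u b else 0) = u := by
          funext b
          by_cases hb : u b = 0
          · simp [hb]
          · rw [if_pos (rel_trans om h (hrel b hb))]
        rw [this]
        exact hu
      · have : (fun b => if Rel om b0 b then u b else 0) = 0 := by
          funext b
          by_cases hb : u b = 0
          · simp [hb]
          · rw [if_neg (fun h' => h (rel_trans om h' (rel_symm om (hrel b hb))))]
            rfl
        rw [this]
        exact W.zero_mem
    have hw' : w - (w b1 / u b1) • u ∈ W := W.sub_mem hw (W.smul_mem _ hu)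
    have hlt : (Finset.univ.filter (fun b => (w - (w b1 / u b1) • u) b ≠ 0)).card < n := by
      rw [← hn]
      apply Finset.card_lt_card
      rw [Finset.ssubset_iff_of_subset]
      · refine ⟨b1, ?_, ?_⟩
        · rw [Finset.mem_filter]
          exact ⟨Finset.mem_univ _, husub b1 hb1⟩
        · rw [Finset.mem_filter]
          intro hcon
          apply hcon.2
          simp only [Pi.sub_apply, Pi.smul_apply, smul_eq_mul]
          field_simp
          ring
      · intro b hb
        rw [Finset.mem_filter] at hb ⊢
        refine ⟨Finset.mem_univ _, fun h => hb.2 ?_⟩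
        have hub : u b = 0 := by
          by_contra hcon
          exact husub b hcon h
        simp [h, hub]
    have h1 := ih _ hlt _ hw' rfl
    have h2 : (fun b => if Rel om b0 b then w b else 0) =
        (fun b => if Rel om b0 b then (w - (w b1 / u b1) • u) b else 0) +
          (w b1 / u b1) • (fun b => if Rel om b0 b then u b else 0) := by
      funext b
      by_cases h : Rel om b0 b
      · simp [h]
      · simp [h]
    rw [h2]
    exact W.add_mem h1 (W.smul_mem _ hupart)

end Pool.Agent.Helper85.VA
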