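import Pool.Agent.Helper85.VA.RelMod
import Pool.Agent.Helper85.VA.LA

/-!
VA-B7. The sum of the terms over a class vanishes outside a small set.

Proof. `exists_relMod`, `class_mem` with `om b = 𝒮.om (τ.EZ b)` and `w = 1` (constant), which is in `relSet τ` with `s = 1`, `W = 1`:
`∑ τ_b = 0` on `T ν` (`𝒮.small_of_eventually`). So the indicator function of the class of `b0` is in `relSet τ`: there are `s`, `W` with
`𝒮.cls s ≠ 0`, `𝒮.cls (W b) = 𝒮.cls s` for `b` in the class and `𝒮.cls (W b) = 0` otherwise, and `∑ W_b(z) τ_b(z) = 0` outside a small set. By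
`𝒮.cls_eq_iff`, `𝒮.cls_eq_zero_iff` for the finitely many `b`: for almost all `ν` and all `z ∈ T ν`, `W_b(z) = s(z)` resp. `0`. So outside the union of
this small set and `{s(z) = 0}` (`𝒮.small_zero`) the sum over the class is zero.
-/

open MvPolynomial

namespace Pool.Agent.Helper85.VA

open Pool.Agent.Helper91.CPX

open scoped Classical in
theorem class_sum {ι : Type} [Fintype ι] [DecidableEq ι] (𝒮 : Setup ι) {β : Type} [Fintype β]
    (τ : Terms 𝒮 β)
    (h0 : ∀ᶠ ν in (𝒮.F.U : Filter ℕ), ∀ z ∈ 𝒮.T ν, ∑ b, τ.val ν b z = 0) (b0 : β) :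
    𝒮.Small (fun ν z =>
      ∑ b, (if Rel (fun b => 𝒮.om (τ.EZ b)) b0 b then τ.val ν b z else 0) ≠ 0) := by
  obtain ⟨W, hW1, hW2⟩ := exists_relMod 𝒮 τ
  have h1 : (fun _ : β => (1 : 𝒮.L)) ∈ W := by
    rw [hW1]
    refine ⟨1, fun _ => 1, ?_, fun b => ?_, ?_⟩
    · rw [map_one]
      exact one_ne_zero
    · rw [map_one, one_mul]
    · refine 𝒮.small_of_eventually ?_
      filter_upwards [h0] with ν h z hz hne
      apply hne
      rw [← h z hz]
      refine Finset.sum_congr rfl fun b _ => ?_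
      rw [map_one, one_mul]
  have h2 := class_mem (fun b => 𝒮.om (τ.EZ b)) W hW2 _ h1 b0
  rw [hW1] at h2
  obtain ⟨s, V, hs, hV, hsm⟩ := h2
  have h3 : ∀ b, ∀ᶠ ν in (𝒮.F.U : Filter ℕ), ∀ z ∈ 𝒮.T ν, 𝒮.ev ν z (V b) =
      if Rel (fun b => 𝒮.om (τ.EZ b)) b0 b then 𝒮.ev ν z s else 0 := by
    intro b
    by_cases hb : Rel (fun b => 𝒮.om (τ.EZ b)) b0 b
    · have h4 := hV b
      simp only [if_pos hb, mul_one] at h4 ⊢
      exact (𝒮.cls_eq_iff _ _).mp h4
    · have h4 := hV b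
      simp only [if_neg hb, mul_zero] at h4 ⊢
      exact (𝒮.cls_eq_zero_iff _).mp h4
  have h4 := Filter.eventually_all.mpr h3
  refine ((hsm.or (𝒮.small_zero hs)).mono ?_)
  filter_upwards [h4] with ν h5 z hz hne
  by_contra hcon
  push Not at hcon
  obtain ⟨h6, h7⟩ := hcon
  apply hne
  have h8 : 𝒮.ev ν z s * ∑ b, (if Rel (fun b => 𝒮.om (τ.EZ b)) b0 b then τ.val ν b z else 0) =
      0 := by
    refine Eq.trans ?_ h6
    rw [Finset.mul_sum]
    refine Finset.sum_congr rfl fun b _ => ?_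
    rw [h5 b z hz]
    split_ifs <;> ring
  exact (mul_eq_zero.mp h8).resolve_left h7

end Pool.Agent.Helper85.VA
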