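import Pool.Agent.Helper85.VA.Api
import Pool.Agent.Helper91.CPX.Noether
import Pool.Agent.Helper91.CPX.CoeffDeriv
import Pool.Agent.Helper91.CPX.KL
import Pool.Agent.Helper50.Forms.Basic

/-!
VA-B3. Noether normalization of the family and the derivations `δ_j`.

Proof. Compare `Pool.Agent.Helper91.CPX.ALG` (Alg.lean), whose first part is the same. `noether (toK F) (toK_frac F) (vanIdeal F T)` gives
`d`, `G` with `γ : MvPolynomial (Fin d) K → MvPolynomial ι K ⧸ vanIdeal = 𝒮.A` (definitionally) injective and finite, `γ (X j) =`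
class of `map φ (G j)`, `φ = toK F`. Make `𝒮.A` an algebra over `B = MvPolynomial (Fin d) K` by `γ`. `z i` = class of `X i`,
`f i = minpoly B (z i)` (`z i` is integral over `B`, `B` is integrally closed), `lift_poly` gives `b i`, `ρ i` with
`(ρ i).map (map φ) = C (C (φ (b i))) * f i`, `φ (b i) ≠ 0`. For `P` over `B`: class of `subst (map φ ∘ G) i P` is
`Polynomial.aeval (z i) P` (see `hsub` in Alg.lean), and `subst_map`, `coeffDeriv_map`, `coeffDeriv_C_mul`, `Polynomial.derivative_map`.
(1) injectivity of `γ`. (2) `f i (z i) = 0`. (3) `f i' (z i) ≠ 0`: `aeval_derivative_minpoly_ne_zero` in CPX/KL.lean or Alg.lean's import.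
(4) The elements `y j := 𝒮.cls (G j)` are a transcendence basis of `𝒮.L` over `K`: algebraically independent by the
injectivity of `γ` and of `𝒮.A → 𝒮.L`, and `𝒮.L` is algebraic over `K(y)` because `𝒮.A` is integral over the image of `γ` and
`𝒮.L` is its fraction field. `Pool.Agent.Helper50.Forms.exists_kaehler_basis` gives a basis `bb` of `Ω[𝒮.L⁄K]` with
`bb j = D y_j`. `δ j = (bb.coord j).compDer (KaehlerDifferential.D K 𝒮.L)`, so `δ j (y j') = if j = j' then 1 else 0`.
Formula: for `P` over `B` and a derivation `δ` of `𝒮.L` over `K`: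
`δ (P(y; z i)) = ∑_l (coeffDeriv l P)(y; z i) * δ (y l) + P'(y; z i) * δ (z i)` (induction on `P`; polynomials in `y` with coefficients in
`K`: `Derivation.map_aeval`/`MvPolynomial.pderiv` chain rule `MvPolynomial.mkDerivation`...). For `P = (ρ i).map (map φ)` the left side is `0`.
(5) `D = ∑ j, D (y j) * δ j`: both are derivations over `K`, `D x = D.liftKaehlerDifferential (KaehlerDifferential.D K 𝒮.L x)`, expand
`KaehlerDifferential.D K 𝒮.L x = ∑ j, (bb.coord j (..)) • bb j` (`Basis.sum_repr`).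
-/

open MvPolynomial

namespace Pool.Agent.Helper85.VA

open Pool.Agent.Helper91.CPX

section core

variable {K : Type} [Field K] {d : ℕ} {L : Type} [Field L] [Algebra K L]
  [Algebra (MvPolynomial (Fin d) K) L] [IsScalarTower K (MvPolynomial (Fin d) K) L]

private theorem chain1 (D : Derivation K L L) (a : MvPolynomial (Fin d) K) :
    D (algebraMap (MvPolynomial (Fin d) K) L a) =
      ∑ l, algebraMap (MvPolynomial (Fin d) K) L (pderiv l a) *
        D (algebraMap (MvPolynomial (Fin d) K) L (X l)) := by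
  induction a using MvPolynomial.induction_on with
  | C a =>
    have h1 : algebraMap (MvPolynomial (Fin d) K) L (C a) = algebraMap K L a := by
      rw [IsScalarTower.algebraMap_apply K (MvPolynomial (Fin d) K) L, algebraMap_eq]
    rw [h1, Derivation.map_algebraMap]
    simp
  | add p q hp hq =>
    rw [map_add, map_add, hp, hq, ← Finset.sum_add_distrib]
    apply Finset.sum_congr rfl
    intro l _
    rw [map_add, map_add, add_mul]
  | mul_X p n hp =>
    rw [map_mul, Derivation.leibniz, hp, smul_eq_mul, smul_eq_mul, Finset.mul_sum]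
    have h1 : ∀ l, algebraMap (MvPolynomial (Fin d) K) L (pderiv l (p * X n)) *
        D (algebraMap (MvPolynomial (Fin d) K) L (X l)) =
        (if l = n then algebraMap (MvPolynomial (Fin d) K) L p *
          D (algebraMap (MvPolynomial (Fin d) K) L (X l)) else 0) +
        algebraMap (MvPolynomial (Fin d) K) L (X n) *
          (algebraMap (MvPolynomial (Fin d) K) L (pderiv l p) *
          D (algebraMap (MvPolynomial (Fin d) K) L (X l))) := by
      intro l
      rw [pderiv_mul, map_add, map_mul, map_mul, pderiv_X]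
      by_cases h : l = n
      · subst h
        simp
        ring
      · rw [Pi.single_eq_of_ne (Ne.symm h), if_neg h]
        simp
        ring
    rw [Finset.sum_congr rfl fun l _ => h1 l, Finset.sum_add_distrib, Finset.sum_ite_eq',
      if_pos (Finset.mem_univ n)]

private theorem chain2 (D : Derivation K L L) (z : L) (P : Polynomial (MvPolynomial (Fin d) K)) :
    D (Polynomial.aeval z P) =
      ∑ l, Polynomial.aeval z (coeffDeriv l P) *
        D (algebraMap (MvPolynomial (Fin d) K) L (X l)) +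
        Polynomial.aeval z (Polynomial.derivative P) * D z := by
  induction P using Polynomial.induction_on' with
  | add P Q hP hQ =>
    rw [map_add, map_add, hP, hQ]
    have h1 : ∀ l, Polynomial.aeval z (coeffDeriv l (P + Q)) *
        D (algebraMap (MvPolynomial (Fin d) K) L (X l)) =
        Polynomial.aeval z (coeffDeriv l P) * D (algebraMap (MvPolynomial (Fin d) K) L (X l)) +
        Polynomial.aeval z (coeffDeriv l Q) *
          D (algebraMap (MvPolynomial (Fin d) K) L (X l)) := by
      intro l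
      rw [coeffDeriv_add, map_add, add_mul]
    rw [Finset.sum_congr rfl fun l _ => h1 l, Finset.sum_add_distrib, Polynomial.derivative_add,
      map_add]
    ring
  | monomial n a =>
    rw [Polynomial.aeval_monomial, Derivation.leibniz, Derivation.leibniz_pow, chain1 D a]
    have h1 : ∀ l, Polynomial.aeval z (coeffDeriv l (Polynomial.monomial n a)) *
        D (algebraMap (MvPolynomial (Fin d) K) L (X l)) =
        z ^ n * (algebraMap (MvPolynomial (Fin d) K) L (pderiv l a) *
          D (algebraMap (MvPolynomial (Fin d) K) L (X l))) := by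
      intro l
      rw [coeffDeriv_monomial, Polynomial.aeval_monomial]
      ring
    rw [Finset.sum_congr rfl fun l _ => h1 l, ← Finset.mul_sum, Polynomial.derivative_monomial,
      Polynomial.aeval_monomial, map_mul, map_natCast]
    simp only [smul_eq_mul, nsmul_eq_mul]
    ring

variable {A : Type} [CommRing A] [IsDomain A]
  [Algebra (MvPolynomial (Fin d) K) A] [Module.Finite (MvPolynomial (Fin d) K) A]
  [Algebra A L] [IsFractionRing A L] [IsScalarTower (MvPolynomial (Fin d) K) A L]

private theorem core [CharZero K] (hinj : Function.Injective (algebraMap (MvPolynomial (Fin d) K) A)) :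
    ∃ δ : Fin d → Derivation K L L,
      (∀ (z : A) (j : Fin d), algebraMap A L (Polynomial.aeval z
          (Polynomial.derivative (minpoly (MvPolynomial (Fin d) K) z))) * δ j (algebraMap A L z) =
        -algebraMap A L (Polynomial.aeval z
          (coeffDeriv j (minpoly (MvPolynomial (Fin d) K) z)))) ∧
      ∀ D : Derivation K L L, ∃ c : Fin d → L, ∀ y, D y = ∑ j, c j * δ j y := by
  classical
  have hLinj : Function.Injective (algebraMap A L) := IsFractionRing.injective A L
  have hBL : Function.Injective (algebraMap (MvPolynomial (Fin d) K) L) := by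
    rw [IsScalarTower.algebraMap_eq (MvPolynomial (Fin d) K) A L]
    exact hLinj.comp hinj
  have : FaithfulSMul (MvPolynomial (Fin d) K) A :=
    (faithfulSMul_iff_algebraMap_injective _ _).mpr hinj
  have : FaithfulSMul (MvPolynomial (Fin d) K) L :=
    (faithfulSMul_iff_algebraMap_injective _ _).mpr hBL
  have : Algebra.IsAlgebraic (MvPolynomial (Fin d) K) A := inferInstance
  have : Algebra.IsAlgebraic (MvPolynomial (Fin d) K) L :=
    (IsFractionRing.isAlgebraic_iff' (MvPolynomial (Fin d) K) A L).mp inferInstance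
  have hX : IsTranscendenceBasis K (X : Fin d → MvPolynomial (Fin d) K) := by
    rw [isTranscendenceBasis_iff_algebraicIndependent_isAlgebraic]
    refine ⟨MvPolynomial.algebraicIndependent_X _ _, ⟨fun x => ?_⟩⟩
    have hx : x ∈ Algebra.adjoin K (Set.range (X : Fin d → MvPolynomial (Fin d) K)) := by
      rw [MvPolynomial.adjoin_range_X]
      trivial
    exact isAlgebraic_algebraMap
      (⟨x, hx⟩ : Algebra.adjoin K (Set.range (X : Fin d → MvPolynomial (Fin d) K)))
  have hy : IsTranscendenceBasis K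
      (algebraMap (MvPolynomial (Fin d) K) L ∘ (X : Fin d → MvPolynomial (Fin d) K)) :=
    hX.algebraMap_comp
  obtain ⟨bb, hbb⟩ := Pool.Agent.Helper50.Forms.exists_kaehler_basis hy
  let δ : Fin d → Derivation K L L := fun j => (bb.coord j).compDer (KaehlerDifferential.D K L)
  have hδ : ∀ j y, δ j y = bb.coord j (KaehlerDifferential.D K L y) := fun j y => rfl
  have hδX : ∀ j l, δ j (algebraMap (MvPolynomial (Fin d) K) L (X l)) = if l = j then 1 else 0 := by
    intro j l
    have h1 := hbb l
    rw [hδ]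
    have h2 : KaehlerDifferential.D K L (algebraMap (MvPolynomial (Fin d) K) L (X l)) = bb l := by
      rw [h1]; rfl
    rw [h2, Module.Basis.coord_apply, Module.Basis.repr_self, Finsupp.single_apply]
  refine ⟨δ, ?_, ?_⟩
  · intro z j
    have h1 := chain2 (δ j) (algebraMap A L z) (minpoly (MvPolynomial (Fin d) K) z)
    have h2 : ∀ P : Polynomial (MvPolynomial (Fin d) K),
        Polynomial.aeval (algebraMap A L z) P = algebraMap A L (Polynomial.aeval z P) :=
      fun P => Polynomial.aeval_algebraMap_apply L z P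
    simp only [h2, minpoly.aeval, map_zero, hδX] at h1
    have h3 : ∑ l, algebraMap A L (Polynomial.aeval z
        (coeffDeriv l (minpoly (MvPolynomial (Fin d) K) z))) * (if l = j then (1 : L) else 0) =
        algebraMap A L (Polynomial.aeval z
        (coeffDeriv j (minpoly (MvPolynomial (Fin d) K) z))) := by
      simp
    rw [h3] at h1
    linear_combination -h1
  · intro D
    refine ⟨fun j => D.liftKaehlerDifferential (bb j), ?_⟩
    intro y
    have h1 : D y = D.liftKaehlerDifferential (KaehlerDifferential.D K L y) := by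
      rw [Derivation.liftKaehlerDifferential_comp_D]
    rw [h1]
    conv_lhs => rw [← bb.sum_repr (KaehlerDifferential.D K L y)]
    rw [map_sum]
    apply Finset.sum_congr rfl
    intro j _
    rw [map_smul, smul_eq_mul, hδ, Module.Basis.coord_apply]
    ring

end core

theorem exists_coords {ι : Type} [Fintype ι] [DecidableEq ι] (𝒮 : Setup ι) :
    ∃ (d : ℕ) (G : Fin d → MvPolynomial ι (Zb 𝒮.F))
      (ρ : ι → Polynomial (MvPolynomial (Fin d) (Zb 𝒮.F))) (δ : Fin d → 𝒮.Der),
      (∀ c : MvPolynomial (Fin d) (K0 𝒮.F),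
        aeval (fun j => map (toK 𝒮.F) (G j)) c ∈ vanIdeal 𝒮.F 𝒮.T → c = 0) ∧
      (∀ i, 𝒮.cls (subst G i (ρ i)) = 0) ∧
      (∀ i, 𝒮.cls (subst G i (Polynomial.derivative (ρ i))) ≠ 0) ∧
      (∀ i j, 𝒮.cls (subst G i (Polynomial.derivative (ρ i))) * δ j (𝒮.cls (X i)) =
        -𝒮.cls (subst G i (coeffDeriv j (ρ i)))) ∧
      ∀ D : 𝒮.Der, ∃ c : Fin d → 𝒮.L, ∀ y, D y = ∑ j, c j * δ j y := by
  classical
  obtain ⟨d, G, hinj, hfin⟩ := noether (toK 𝒮.F) (toK_frac 𝒮.F) (vanIdeal 𝒮.F 𝒮.T)
  let φ := toK 𝒮.F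
  let γ : MvPolynomial (Fin d) (K0 𝒮.F) →ₐ[K0 𝒮.F] 𝒮.A := aeval (fun j => 𝒮.qmk (map φ (G j)))
  let algA : Algebra (MvPolynomial (Fin d) (K0 𝒮.F)) 𝒮.A := γ.toRingHom.toAlgebra
  have finA : Module.Finite (MvPolynomial (Fin d) (K0 𝒮.F)) 𝒮.A := hfin
  have hinjA : Function.Injective (algebraMap (MvPolynomial (Fin d) (K0 𝒮.F)) 𝒮.A) := hinj
  let algL : Algebra (MvPolynomial (Fin d) (K0 𝒮.F)) 𝒮.L :=
    ((algebraMap 𝒮.A 𝒮.L).comp γ.toRingHom).toAlgebra
  have tow1 : IsScalarTower (MvPolynomial (Fin d) (K0 𝒮.F)) 𝒮.A 𝒮.L :=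
    IsScalarTower.of_algebraMap_eq fun _ => rfl
  have tow2 : IsScalarTower (K0 𝒮.F) (MvPolynomial (Fin d) (K0 𝒮.F)) 𝒮.L :=
    IsScalarTower.of_algebraMap_eq fun a => by
      change algebraMap (K0 𝒮.F) 𝒮.L a = algebraMap 𝒮.A 𝒮.L (γ (algebraMap _ _ a))
      rw [AlgHom.commutes, ← IsScalarTower.algebraMap_apply]
  obtain ⟨δ, h1, h2⟩ := core (K := K0 𝒮.F) (d := d) (L := 𝒮.L) (A := 𝒮.A) hinjA
  let z : ι → 𝒮.A := fun i => 𝒮.qmk (X i)
  let f : ι → Polynomial (MvPolynomial (Fin d) (K0 𝒮.F)) :=
    fun i => minpoly (MvPolynomial (Fin d) (K0 𝒮.F)) (z i)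
  choose b ρ hb hρ using fun i => lift_poly φ (toK_frac 𝒮.F) (f i)
  have hcomp : 𝒮.qmk.toRingHom.comp
      (aeval (fun j => map φ (G j)) :
        MvPolynomial (Fin d) (K0 𝒮.F) →ₐ[K0 𝒮.F] MvPolynomial ι (K0 𝒮.F)).toRingHom =
      algebraMap (MvPolynomial (Fin d) (K0 𝒮.F)) 𝒮.A := by
    change _ = γ.toRingHom
    apply MvPolynomial.ringHom_ext
    · intro a
      change 𝒮.qmk (aeval (fun j => map φ (G j)) (C a)) = γ (C a)
      rw [aeval_C]
      change 𝒮.qmk (algebraMap _ _ a) = γ (algebraMap _ _ a)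
      rw [AlgHom.commutes, AlgHom.commutes]
    · intro j
      change 𝒮.qmk (aeval (fun j => map φ (G j)) (X j)) = γ (X j)
      rw [aeval_X]
      change _ = aeval _ (X j)
      rw [aeval_X]
  have hsub : ∀ (i : ι) (P : Polynomial (MvPolynomial (Fin d) (K0 𝒮.F))),
      𝒮.qmk (subst (fun j => map φ (G j)) i P) = Polynomial.aeval (z i) P := by
    intro i P
    unfold subst
    change 𝒮.qmk.toRingHom _ = _
    rw [Polynomial.hom_eval₂, hcomp, Polynomial.aeval_def]
    rfl
  have hcls : ∀ (i : ι) (P : Polynomial (MvPolynomial (Fin d) (Zb 𝒮.F))),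
      𝒮.cls (subst G i P) = algebraMap 𝒮.A 𝒮.L (Polynomial.aeval (z i) (P.map (map φ))) := by
    intro i P
    rw [𝒮.cls_apply, subst_map]
    rw [← hsub]
  have hCb : ∀ i, algebraMap 𝒮.A 𝒮.L (Polynomial.aeval (z i)
      (Polynomial.C (C (φ (b i))) : Polynomial (MvPolynomial (Fin d) (K0 𝒮.F)))) =
      algebraMap (K0 𝒮.F) 𝒮.L (φ (b i)) := by
    intro i
    rw [Polynomial.aeval_C]
    change algebraMap 𝒮.A 𝒮.L (γ (algebraMap _ _ (φ (b i)))) = _
    rw [AlgHom.commutes, ← IsScalarTower.algebraMap_apply]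
  have hb0 : ∀ i, algebraMap (K0 𝒮.F) 𝒮.L (φ (b i)) ≠ 0 := by
    intro i h
    exact hb i ((algebraMap (K0 𝒮.F) 𝒮.L).injective (by rw [h, map_zero]))
  have hd : ∀ i, 𝒮.cls (subst G i (Polynomial.derivative (ρ i))) =
      algebraMap (K0 𝒮.F) 𝒮.L (φ (b i)) *
        algebraMap 𝒮.A 𝒮.L (Polynomial.aeval (z i) (Polynomial.derivative (f i))) := by
    intro i
    rw [hcls, ← Polynomial.derivative_map, hρ, Polynomial.derivative_C_mul, map_mul, map_mul, hCb]
  have hcd : ∀ i j, 𝒮.cls (subst G i (coeffDeriv j (ρ i))) =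
      algebraMap (K0 𝒮.F) 𝒮.L (φ (b i)) *
        algebraMap 𝒮.A 𝒮.L (Polynomial.aeval (z i) (coeffDeriv j (f i))) := by
    intro i j
    rw [hcls, coeffDeriv_map, hρ, coeffDeriv_C_mul, map_mul, map_mul, hCb]
  refine ⟨d, G, ρ, δ, ?_, ?_, ?_, ?_, h2⟩
  · intro c hc
    apply hinjA
    rw [map_zero, ← hcomp]
    change 𝒮.qmk _ = 0
    rw [𝒮.qmk_eq_zero_iff]
    exact hc
  · intro i
    rw [hcls, hρ, map_mul]
    have : Polynomial.aeval (z i) (f i) = 0 := minpoly.aeval _ _
    rw [this, mul_zero, map_zero]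
  · intro i
    rw [hd]
    apply mul_ne_zero (hb0 i)
    intro h
    exact aeval_derivative_minpoly_ne_zero hinjA (z i)
      (IsFractionRing.injective 𝒮.A 𝒮.L (by rw [map_zero]; exact h))
  · intro i j
    rw [hd, hcd]
    have h3 := h1 (z i) j
    have h4 : 𝒮.cls (X i) = algebraMap 𝒮.A 𝒮.L (z i) := by
      rw [𝒮.cls_apply, map_X]
    rw [h4]
    linear_combination (algebraMap (K0 𝒮.F) 𝒮.L (φ (b i))) * h3

end Pool.Agent.Helper85.VA
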