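import Pool.Agent.Helper85.VA.NSF

/-!
VA-B11. The count for fixed coefficients and exponents.

Proof. As `Pool.Agent.Helper91.CPX.R2` (R2.lean; copy it). Suppose not: for every `ν` (as `m0`) there are `m ν ≥ ν` and coefficients `c ν` such that for every `C` there are
`X ≥ 2, a, e, T` with the properties and `card > C X^ε`. Put `B ν = 2 ^ ((ν * m ν + ν + 1) ^ 2) + ∑ |c ν s b| + 1`, and take `C = B ν ^ ((N + 1) * k) + 1`: then
`X ν ≥ B ν` (otherwise the number of all points, at most `X^((N+1) k) ≤ B ν^((N+1) k)`, is less than `C X^ε`). Let `F` be the frame with `U = hyperfilter ℕ` and these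
`X ν`. For a constant `C'` and `ν ≥ C'`: `2 ^ ((C' m ν + C' + 1)^2) ≤ B ν ≤ X ν`. `m ν ≥ ν` tends to infinity, `e ν i j ≤ m ν * X ν ≤ X ν ^ 2`, as `m ν ≤ X ν` for `ν ≥ 1`.
The family is large for `M ν z = encode (xval (a ν) (e ν) z)`, with `δ = ε`: `encode` is injective, so the image of `M ν` has the cardinality of the image of `xval`
(`Finset.card_image_of_injective`, `Finset.image_image`). `NS_false'` gives the contradiction.
-/

open MvPolynomial

namespace Pool.Agent.Helper85.VA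

open Pool.Agent.Helper91.CPX

private theorem va_card {N k : ℕ} (X : ℕ) (T : Finset (Fin (N + 1) × Fin k → ℤ))
    (hT : ∀ z ∈ T, ∀ v, 1 ≤ z v ∧ z v ≤ (X : ℤ)) : T.card ≤ X ^ ((N + 1) * k) := by
  classical
  have hsub : T ⊆ Fintype.piFinset fun _ : Fin (N + 1) × Fin k => Finset.Icc (1 : ℤ) X := by
    intro z hz
    rw [Fintype.mem_piFinset]
    intro i
    rw [Finset.mem_Icc]
    exact hT z hz i
  refine (Finset.card_le_card hsub).trans (le_of_eq ?_)
  rw [Fintype.card_piFinset]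
  simp

theorem VA_count (N D r k : ℕ) (ε : ℝ) (hε : 0 < ε) :
    ∃ m0 : ℕ, ∀ m : ℕ, m0 ≤ m → ∀ c : Fin r → Exps N D → ℤ, ∃ C : ℝ, ∀ X : ℕ, 2 ≤ X →
      ∀ a : Fin (N + 1) → ℤ, (∀ i, a i ≠ 0) → ∀ e : Fin (N + 1) → Fin k → ℕ,
        (∀ i j, m ≤ e i j ∧ e i j ≤ m * X) →
      ∀ T : Finset (Fin (N + 1) × Fin k → ℤ),
        (∀ z ∈ T, (∀ v, 1 ≤ z v ∧ z v ≤ (X : ℤ)) ∧ (∀ i, |xval a e z i| ≤ (X : ℤ) ^ m) ∧
          (∀ s, fval (c s) (xval a e z) = 0) ∧ Prim (xval a e z) ∧ NonDeg c (xval a e z)) →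
        ((T.image (xval a e)).card : ℝ) ≤ C * (X : ℝ) ^ ε := by
  classical
  by_contra hcon
  push Not at hcon
  choose m hm c h using hcon
  let B : ℕ → ℕ := fun ν => 2 ^ ((ν * m ν + ν + 1) ^ 2) + (∑ s, ∑ b, (c ν s b).natAbs) + 1
  have h' := fun ν => h ν ((B ν : ℝ) ^ ((N + 1) * k) + 1)
  choose X hX2 a ha e he T hT hcard using h'
  have hX1 : ∀ ν, (1 : ℝ) ≤ (X ν : ℝ) ^ ε := by
    intro ν
    have : (1 : ℝ) ≤ (X ν : ℝ) := by exact_mod_cast (by have := hX2 ν; omega : 1 ≤ X ν)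
    exact Real.one_le_rpow this hε.le
  have hBX : ∀ ν, B ν ≤ X ν := by
    intro ν
    by_contra hlt
    push Not at hlt
    have h1 : (T ν).card ≤ X ν ^ ((N + 1) * k) := va_card (X ν) (T ν) (fun z hz => (hT ν z hz).1)
    have h2 : X ν ^ ((N + 1) * k) ≤ B ν ^ ((N + 1) * k) := Nat.pow_le_pow_left hlt.le _
    have h3 : (((T ν).image (xval (a ν) (e ν))).card : ℝ) ≤ (B ν : ℝ) ^ ((N + 1) * k) := by
      exact_mod_cast (Finset.card_image_le.trans (h1.trans h2))
    have h4 := hcard ν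
    have h5 : (B ν : ℝ) ^ ((N + 1) * k) + 1 ≤ ((B ν : ℝ) ^ ((N + 1) * k) + 1) * (X ν : ℝ) ^ ε :=
      le_mul_of_one_le_right (by positivity) (hX1 ν)
    linarith
  have hpow : ∀ C ν : ℕ, C ≤ ν → 2 ^ ((C * m ν + C + 1) ^ 2) ≤ X ν := by
    intro C ν hC
    have h1 : C * m ν + C + 1 ≤ ν * m ν + ν + 1 := by
      have := Nat.mul_le_mul_right (m ν) hC
      omega
    have h2 : 2 ^ ((C * m ν + C + 1) ^ 2) ≤ 2 ^ ((ν * m ν + ν + 1) ^ 2) :=
      Nat.pow_le_pow_right (by norm_num) (Nat.pow_le_pow_left h1 2)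
    have h3 : 2 ^ ((ν * m ν + ν + 1) ^ 2) ≤ B ν := (Nat.le_add_right _ _).trans (Nat.le_succ _)
    exact h2.trans (h3.trans (hBX ν))
  have hνX : ∀ ν, ν ≤ X ν := by
    intro ν
    have h1 := hpow ν ν le_rfl
    have h2 : ν ≤ (ν * m ν + ν + 1) ^ 2 := by nlinarith [Nat.zero_le (ν * m ν)]
    exact h2.trans ((Nat.lt_two_pow_self).le.trans h1)
  have hmX : ∀ ν, 1 ≤ ν → m ν ≤ X ν := by
    intro ν hν
    have h1 := hpow ν ν le_rfl
    have h2 : m ν ≤ (ν * m ν + ν + 1) ^ 2 := by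
      have h3 : m ν ≤ ν * m ν := Nat.le_mul_of_pos_left _ hν
      nlinarith [Nat.zero_le (ν * m ν)]
    exact h2.trans ((Nat.lt_two_pow_self).le.trans h1)
  have hat : ∀ C : ℕ, ∀ᶠ ν in (Filter.hyperfilter ℕ : Filter ℕ), C ≤ ν := by
    intro C
    exact Nat.hyperfilter_le_atTop (Filter.eventually_ge_atTop C)
  let F : Frame := ⟨Filter.hyperfilter ℕ, X, hX2, fun C => by
    filter_upwards [hat C] with ν hν
    exact hν.trans (hνX ν)⟩
  refine NS_false' F N D r k m ?_ ?_ c ?_ a ha e ?_ T ?_ ?_ ?_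
  · intro C
    filter_upwards [hat C] with ν hν
    exact hν.trans (hm ν)
  · intro C
    filter_upwards [hat C] with ν hν
    exact hpow C ν hν
  · refine Filter.Eventually.of_forall fun ν s b => ?_
    have h1 : (c ν s b).natAbs ≤ ∑ b, (c ν s b).natAbs :=
      Finset.single_le_sum (f := fun b => (c ν s b).natAbs) (fun _ _ => Nat.zero_le _) (Finset.mem_univ b)
    have h2 : ∑ b, (c ν s b).natAbs ≤ ∑ s, ∑ b, (c ν s b).natAbs :=
      Finset.single_le_sum (f := fun s => ∑ b, (c ν s b).natAbs) (fun _ _ => Nat.zero_le _) (Finset.mem_univ s)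
    have h3 : (c ν s b).natAbs ≤ B ν :=
      (h1.trans h2).trans ((Nat.le_add_left _ _).trans (Nat.le_succ _))
    have h4 : (c ν s b).natAbs ≤ X ν := h3.trans (hBX ν)
    rw [Int.abs_eq_natAbs]
    exact_mod_cast h4
  · filter_upwards [hat 1] with ν hν i j
    refine ⟨(he ν i j).1, ?_⟩
    have h1 : e ν i j ≤ X ν ^ 2 := by
      refine (he ν i j).2.trans ?_
      rw [pow_two]
      exact Nat.mul_le_mul_right _ (hmX ν hν)
    exact_mod_cast h1
  · intro ν z hz v
    exact (hT ν z hz).1 v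
  · exact Filter.Eventually.of_forall fun ν z hz => (hT ν z hz).2
  · refine ⟨ε, hε, Filter.Eventually.of_forall fun ν => ?_⟩
    have h4 := hcard ν
    have h5 : (X ν : ℝ) ^ ε ≤ ((B ν : ℝ) ^ ((N + 1) * k) + 1) * (X ν : ℝ) ^ ε := by
      have h6 : (1 : ℝ) ≤ (B ν : ℝ) ^ ((N + 1) * k) + 1 := by
        have : (0 : ℝ) ≤ (B ν : ℝ) ^ ((N + 1) * k) := by positivity
        linarith
      exact le_mul_of_one_le_left (by positivity) h6
    have h7 : ((T ν).image fun z => (Encodable.encode (xval (a ν) (e ν) z) : ℤ)).card =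
        ((T ν).image (xval (a ν) (e ν))).card := by
      have h8 : ((T ν).image fun z => (Encodable.encode (xval (a ν) (e ν) z) : ℤ)) =
          ((T ν).image (xval (a ν) (e ν))).image fun x => (Encodable.encode x : ℤ) := by
        rw [Finset.image_image]
        rfl
      rw [h8]
      refine Finset.card_image_of_injective _ fun x y hxy => ?_
      exact Encodable.encode_injective (by exact_mod_cast hxy)
    show (X ν : ℝ) ^ ε ≤ (((T ν).image fun z => (Encodable.encode (xval (a ν) (e ν) z) : ℤ)).card : ℝ)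
    rw [h7]
    exact h5.trans h4.le

end Pool.Agent.Helper85.VA
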