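import Pool.Agent.Helper91.CPX.Smooth

/-!
VA-C1. The number of `A ≤ B` whose radical outside `S` is at most `R`.

Proof. Let `s0 = ∏ p ∈ S with p ≠ 0, p ≥ 1` and for `A ∈ P` let `ρ(A) = ∏ p ∈ A.primeFactors \ S, p`, so `1 ≤ ρ(A) ≤ R`, and `ρ(A) ≤ A ≤ B`
(`Nat.prod_primeFactors_dvd`). All primes of `A` divide `s0 * ρ(A)`. For each value `ρ` the number of `A` with `ρ(A) = ρ` is at most
`C1 B^(η/2) (s0 ρ)^(η/2) ≤ C1 s0^(η/2) B^η` (`smooth_count (η/2)`), and there are at most `R` values `ρ`.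
-/

open Pool.Agent.Helper91.CPX

namespace Pool.Agent.Helper85.VA

theorem count_A (S : Finset ℕ) (η : ℝ) (hη : 0 < η) : ∃ C : ℝ, 1 ≤ C ∧ ∀ B R : ℕ, 1 ≤ B →
    1 ≤ R → ∀ P : Finset ℕ,
      (∀ A ∈ P, 1 ≤ A ∧ A ≤ B ∧ ∏ p ∈ A.primeFactors \ S, p ≤ R) →
      (P.card : ℝ) ≤ C * R * (B : ℝ) ^ η := by
  obtain ⟨C1, hC1, hsm⟩ := smooth_count (η / 2) (by linarith)
  set s0 : ℕ := ∏ p ∈ S.filter (fun p => 1 ≤ p), p with hs0
  have hs1 : 1 ≤ s0 := by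
    rw [hs0]
    exact Nat.one_le_iff_ne_zero.2 (Finset.prod_ne_zero_iff.2 (fun p hp => by
      have := (Finset.mem_filter.1 hp).2
      omega))
  have hs1R : (1 : ℝ) ≤ (s0 : ℝ) := by exact_mod_cast hs1
  have hsp : (1 : ℝ) ≤ (s0 : ℝ) ^ (η / 2) := Real.one_le_rpow hs1R (by linarith)
  refine ⟨C1 * (s0 : ℝ) ^ (η / 2), by nlinarith, fun B R hB hR P hP => ?_⟩
  have hB0 : (0 : ℝ) < (B : ℝ) := by exact_mod_cast hB
  have hrho1 : ∀ A ∈ P, 1 ≤ ∏ p ∈ A.primeFactors \ S, p := by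
    intro A hA
    refine Nat.one_le_iff_ne_zero.2 (Finset.prod_ne_zero_iff.2 (fun p hp => ?_))
    exact (Nat.prime_of_mem_primeFactors (Finset.mem_sdiff.1 hp).1).ne_zero
  have hrhoB : ∀ A ∈ P, ∏ p ∈ A.primeFactors \ S, p ≤ B := by
    intro A hA
    obtain ⟨h1, h2, -⟩ := hP A hA
    refine le_trans (Nat.le_of_dvd h1 ?_) h2
    exact (Finset.prod_dvd_prod_of_subset _ _ _ Finset.sdiff_subset).trans
      (Nat.prod_primeFactors_dvd A)
  have hmaps : ∀ A ∈ P, (∏ p ∈ A.primeFactors \ S, p) ∈ Finset.Icc 1 R := by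
    intro A hA
    exact Finset.mem_Icc.2 ⟨hrho1 A hA, (hP A hA).2.2⟩
  rw [Finset.card_eq_sum_card_fiberwise hmaps]
  push_cast
  have hfib : ∀ ρ ∈ Finset.Icc 1 R,
      ((P.filter (fun A => ∏ p ∈ A.primeFactors \ S, p = ρ)).card : ℝ) ≤
        C1 * (s0 : ℝ) ^ (η / 2) * (B : ℝ) ^ η := by
    intro ρ hρ
    rcases Finset.eq_empty_or_nonempty (P.filter (fun A => ∏ p ∈ A.primeFactors \ S, p = ρ)) with
      he | ⟨A0, hA0⟩
    · rw [he]
      simp only [Finset.card_empty, Nat.cast_zero]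
      positivity
    · have hρ1 : 1 ≤ ρ := (Finset.mem_Icc.1 hρ).1
      have hρB : ρ ≤ B := by
        obtain ⟨h1, h2⟩ := Finset.mem_filter.1 hA0
        rw [← h2]
        exact hrhoB A0 h1
      have hρB' : (ρ : ℝ) ≤ (B : ℝ) := by exact_mod_cast hρB
      have hb := hsm (s0 * ρ) (Nat.mul_pos hs1 hρ1) B hB
        (P.filter (fun A => ∏ p ∈ A.primeFactors \ S, p = ρ)) (by
          intro A hA
          obtain ⟨hA1, hA2⟩ := Finset.mem_filter.1 hA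
          obtain ⟨h1, h2, -⟩ := hP A hA1
          refine ⟨h1, h2, fun p hp hpA => ?_⟩
          by_cases hpS : p ∈ S
          · refine Dvd.dvd.mul_right ?_ _
            exact Finset.dvd_prod_of_mem (fun p => p) (Finset.mem_filter.2 ⟨hpS, hp.one_lt.le⟩)
          · refine Dvd.dvd.mul_left ?_ _
            rw [← hA2]
            exact Finset.dvd_prod_of_mem (fun p => p) (Finset.mem_sdiff.2
              ⟨Nat.mem_primeFactors.2 ⟨hp, hpA, by omega⟩, hpS⟩))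
      refine hb.trans ?_
      push_cast
      rw [Real.mul_rpow (by positivity) (by positivity)]
      have h3 : (ρ : ℝ) ^ (η / 2) ≤ (B : ℝ) ^ (η / 2) :=
        Real.rpow_le_rpow (by positivity) hρB' (by linarith)
      have h4 : (B : ℝ) ^ η = (B : ℝ) ^ (η / 2) * (B : ℝ) ^ (η / 2) := by
        rw [← Real.rpow_add hB0]
        ring_nf
      rw [h4]
      have h5 : 0 ≤ (B : ℝ) ^ (η / 2) := by positivity
      have h6 : 0 ≤ C1 * (B : ℝ) ^ (η / 2) * (s0 : ℝ) ^ (η / 2) := by positivity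
      calc C1 * (B : ℝ) ^ (η / 2) * ((s0 : ℝ) ^ (η / 2) * (ρ : ℝ) ^ (η / 2))
          = C1 * (B : ℝ) ^ (η / 2) * (s0 : ℝ) ^ (η / 2) * (ρ : ℝ) ^ (η / 2) := by ring
        _ ≤ C1 * (B : ℝ) ^ (η / 2) * (s0 : ℝ) ^ (η / 2) * (B : ℝ) ^ (η / 2) :=
          mul_le_mul_of_nonneg_left h3 h6
        _ = C1 * (s0 : ℝ) ^ (η / 2) * ((B : ℝ) ^ (η / 2) * (B : ℝ) ^ (η / 2)) := by ring
  refine (Finset.sum_le_sum hfib).trans ?_
  rw [Finset.sum_const, Nat.card_Icc, nsmul_eq_mul]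
  simp only [Nat.add_sub_cancel]
  apply le_of_eq
  ring

end Pool.Agent.Helper85.VA
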