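import Pool.Agent.Helper85.VA.CountA

/-!
VA-C1U. The number of `A ≤ B` whose radical outside `S` is at most `R`, uniform in `S` of bounded cardinality. (helper85)
-/

open Pool.Agent.Helper91.CPX

namespace Pool.Agent.Helper85.VA

theorem log_pow_le (s : ℕ) (η : ℝ) (hη : 0 < η) : ∃ C : ℝ, 1 ≤ C ∧ ∀ B : ℕ, 1 ≤ B →
    ((Nat.log 2 B + 1 : ℕ) : ℝ) ^ s ≤ C * (B : ℝ) ^ η := by
  set θ : ℝ := η / (s + 1) with hθ
  have hs : (0 : ℝ) < (s : ℝ) + 1 := by positivity
  have hθ0 : 0 < θ := div_pos hη hs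
  have hl2 : 0 < Real.log 2 := Real.log_pos (by norm_num)
  set K : ℝ := 1 + 1 / (θ * Real.log 2) with hK
  have hK1 : 1 ≤ K := by
    have : 0 < 1 / (θ * Real.log 2) := by positivity
    linarith
  refine ⟨K ^ s, one_le_pow₀ hK1, fun B hB => ?_⟩
  have hB0 : (0 : ℝ) < B := by exact_mod_cast hB
  have hB1 : (1 : ℝ) ≤ B := by exact_mod_cast hB
  set L : ℕ := Nat.log 2 B with hL
  have h1 : (2 : ℝ) ^ L ≤ B := by
    exact_mod_cast Nat.pow_log_le_self 2 (by omega)
  have h2 : (L : ℝ) * Real.log 2 ≤ Real.log B := by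
    rw [← Real.log_pow]
    exact Real.log_le_log (by positivity) h1
  have h3 : 1 + θ * ((L : ℝ) * Real.log 2) ≤ (B : ℝ) ^ θ := by
    rw [Real.rpow_def_of_pos hB0]
    have h4 := Real.add_one_le_exp (Real.log B * θ)
    have h5 : θ * ((L : ℝ) * Real.log 2) ≤ Real.log B * θ := by
      rw [mul_comm (Real.log B)]
      exact mul_le_mul_of_nonneg_left h2 hθ0.le
    linarith
  have h4 : ((L + 1 : ℕ) : ℝ) ≤ K * (B : ℝ) ^ θ := by
    refine le_trans ?_ (mul_le_mul_of_nonneg_left h3 (by linarith : (0 : ℝ) ≤ K))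
    push_cast
    have h5 : K * (1 + θ * ((L : ℝ) * Real.log 2)) =
        1 + θ * ((L : ℝ) * Real.log 2) + 1 / (θ * Real.log 2) + L := by
      rw [hK]
      field_simp
      ring
    rw [h5]
    have h6 : 0 < 1 / (θ * Real.log 2) := by positivity
    have h7 : 0 ≤ θ * ((L : ℝ) * Real.log 2) := by positivity
    linarith
  calc ((L + 1 : ℕ) : ℝ) ^ s ≤ (K * (B : ℝ) ^ θ) ^ s :=
        pow_le_pow_left₀ (Nat.cast_nonneg _) h4 s
    _ = K ^ s * (B : ℝ) ^ (θ * s) := by
        rw [mul_pow, Real.rpow_mul hB0.le, Real.rpow_natCast]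
    _ ≤ K ^ s * (B : ℝ) ^ η := by
        refine mul_le_mul_of_nonneg_left ?_ (by positivity)
        refine Real.rpow_le_rpow_of_exponent_le hB1 ?_
        rw [hθ, div_mul_eq_mul_div, div_le_iff₀ hs]
        nlinarith

theorem count_AU (s : ℕ) (η : ℝ) (hη : 0 < η) : ∃ C : ℝ, 1 ≤ C ∧ ∀ S : Finset ℕ, S.card ≤ s →
    ∀ B R : ℕ, 1 ≤ B → 1 ≤ R → ∀ P : Finset ℕ,
      (∀ A ∈ P, 1 ≤ A ∧ A ≤ B ∧ ∏ p ∈ A.primeFactors \ S, p ≤ R) →
      (P.card : ℝ) ≤ C * R * (B : ℝ) ^ η := by
  classical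
  obtain ⟨C1, hC1, h1⟩ := count_A ∅ (η / 2) (by linarith)
  obtain ⟨C2, hC2, h2⟩ := log_pow_le s (η / 2) (by linarith)
  refine ⟨C1 * C2, by nlinarith, fun S hS B R hB hR P hP => ?_⟩
  have hB0 : (0 : ℝ) < B := by exact_mod_cast hB
  set L : ℕ := Nat.log 2 B with hL
  let W : Finset ({p // p ∈ S} → ℕ) := Fintype.piFinset fun _ => Finset.range (L + 1)
  let w : ℕ → ({p // p ∈ S} → ℕ) := fun A p => A.factorization p
  let out : ℕ → ℕ := fun A => ∏ p ∈ A.primeFactors \ S, p ^ A.factorization p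
  have hdec : ∀ A ∈ P, A = (∏ p ∈ S, p ^ A.factorization p) * out A := by
    intro A hA
    have hA0 : A ≠ 0 := by have := (hP A hA).1; omega
    have e1 : ∏ p ∈ S, p ^ A.factorization p =
        ∏ p ∈ A.primeFactors ∩ S, p ^ A.factorization p := by
      symm
      refine Finset.prod_subset Finset.inter_subset_right fun p hp hp' => ?_
      have hp2 : p ∉ A.primeFactors := fun h => hp' (Finset.mem_inter.mpr ⟨h, hp⟩)
      rw [← Nat.support_factorization, Finsupp.notMem_support_iff] at hp2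
      rw [hp2, pow_zero]
    rw [e1]
    refine (Nat.prod_factorization_pow_eq_self hA0).symm.trans ?_
    exact (Finset.prod_inter_mul_prod_sdiff _ _ _).symm
  have hmaps : ∀ A ∈ P, w A ∈ W := by
    intro A hA
    rw [Fintype.mem_piFinset]
    intro p
    rw [Finset.mem_range]
    obtain ⟨h3, h4, -⟩ := hP A hA
    have h5 : A.factorization p ≤ Nat.log 2 A := by
      by_cases hp : (p : ℕ).Prime
      · refine Nat.le_log_of_pow_le (by norm_num) ?_
        refine le_trans (Nat.pow_le_pow_left hp.two_le _) ?_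
        exact Nat.le_of_dvd (by omega) (Nat.ordProj_dvd A p)
      · rw [Nat.factorization_eq_zero_of_not_prime A hp]
        exact Nat.zero_le _
    have h6 : Nat.log 2 A ≤ L := Nat.log_mono_right h4
    show A.factorization p < L + 1
    omega
  rw [Finset.card_eq_sum_card_fiberwise hmaps]
  push_cast
  have hfib : ∀ v ∈ W, ((P.filter (fun A => w A = v)).card : ℝ) ≤ C1 * R * (B : ℝ) ^ (η / 2) := by
    intro v _
    have hinj : Set.InjOn out (P.filter (fun A => w A = v)) := by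
      intro A hA A' hA' hAA
      rw [Finset.mem_coe, Finset.mem_filter] at hA hA'
      rw [hdec A hA.1, hdec A' hA'.1, hAA]
      congr 1
      refine Finset.prod_congr rfl fun p hp => ?_
      have e1 : w A ⟨p, hp⟩ = w A' ⟨p, hp⟩ := by rw [hA.2, hA'.2]
      have e2 : A.factorization p = A'.factorization p := e1
      rw [e2]
    rw [← Finset.card_image_of_injOn hinj]
    refine h1 B R hB hR _ fun A' hA' => ?_
    obtain ⟨A, hA, rfl⟩ := Finset.mem_image.mp hA'
    obtain ⟨hAP, -⟩ := Finset.mem_filter.mp hA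
    obtain ⟨h3, h4, h5⟩ := hP A hAP
    have hout1 : 1 ≤ out A := by
      refine Nat.one_le_iff_ne_zero.mpr (Finset.prod_ne_zero_iff.mpr fun p hp => ?_)
      exact pow_ne_zero _ (Nat.prime_of_mem_primeFactors (Finset.mem_sdiff.mp hp).1).ne_zero
    have hdvd : out A ∣ A := by
      conv_rhs => rw [hdec A hAP]
      exact Dvd.intro_left _ rfl
    refine ⟨hout1, (Nat.le_of_dvd h3 hdvd).trans h4, ?_⟩
    refine le_trans (Finset.prod_le_prod_of_subset_of_one_le' ?_ ?_) h5
    · intro p hp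
      rw [Finset.mem_sdiff] at hp ⊢
      have hpp := Nat.prime_of_mem_primeFactors hp.1
      have hpd := Nat.dvd_of_mem_primeFactors hp.1
      obtain ⟨q, hq, hpq⟩ := (Prime.dvd_finsetProd_iff hpp.prime _).mp hpd
      have h6 := hpp.dvd_of_dvd_pow hpq
      rw [Finset.mem_sdiff] at hq
      have h7 := (Nat.prime_dvd_prime_iff_eq hpp (Nat.prime_of_mem_primeFactors hq.1)).mp h6
      subst h7
      exact hq
    · intro p hp _
      exact (Nat.prime_of_mem_primeFactors (Finset.mem_sdiff.mp hp).1).one_lt.le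
  refine (Finset.sum_le_sum hfib).trans ?_
  rw [Finset.sum_const, nsmul_eq_mul]
  have hWc : (W.card : ℝ) ≤ C2 * (B : ℝ) ^ (η / 2) := by
    have e1 : W.card = (L + 1) ^ S.card := by
      rw [Fintype.card_piFinset]
      simp
    rw [e1]
    push_cast
    refine le_trans (pow_le_pow_right₀ ?_ hS) ?_
    · have : (0 : ℝ) ≤ (L : ℝ) := Nat.cast_nonneg _
      linarith
    · have := h2 B hB
      push_cast at this
      exact this
  have hR0 : (0 : ℝ) ≤ R := Nat.cast_nonneg _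
  calc (W.card : ℝ) * (C1 * R * (B : ℝ) ^ (η / 2))
      ≤ (C2 * (B : ℝ) ^ (η / 2)) * (C1 * R * (B : ℝ) ^ (η / 2)) :=
        mul_le_mul_of_nonneg_right hWc (by positivity)
    _ = C1 * C2 * R * ((B : ℝ) ^ (η / 2) * (B : ℝ) ^ (η / 2)) := by ring
    _ = C1 * C2 * R * (B : ℝ) ^ η := by
        rw [← Real.rpow_add hB0]
        ring_nf

end Pool.Agent.Helper85.VA
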