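import Pool.Agent.Helper91.CPX.Defs
import Pool.Agent.Helper91.CPX.Basic

/-!
Project VA (MP_464c42_nt), definitions (helper85). Memo: /team-store/memo_MP_464c42_nt_VA_helper85.md.

* `Setup ι`: a frame `F` (ultrafilter, `X ν`), a function `M` and a large family `T` of point sets whose vanishing ideal is
  prime and maximal (`Pool.Agent.Helper91.CPX.exists_maximal` produces these). `𝒮.L` is the field of fractions of
  `K0[z] / vanIdeal`, `𝒮.cls p` the class in `𝒮.L` of a polynomial `p` over the ring of sequences `Zb F`.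
* `𝒮.Small Q`: the subfamily `{z ∈ T ν : Q ν z}` is not large.
* `Terms 𝒮 β`: terms `t_b(ν) ∏ z_v ^ E_b(v)(ν)`, `b ∈ β`, of moderate size.
* `om 𝒮 e δ = ∑ e_v δ(z_v)/z_v`: the logarithmic derivative of `∏ z_v ^ e_v`.
* `Rel om b b'`: there is `h ≠ 0` with `δ h = (om b' δ - om b δ) h` for all derivations `δ`.
* `relMod τ`: the relations between the terms, a subspace of `β → 𝒮.L`.
* `nabla`: the numerator of the derivative of `W ∏ z_v ^ e_v`, divided by `∏ z_v ^ e_v`.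
-/

open MvPolynomial

namespace Pool.Agent.Helper85.VA

open Pool.Agent.Helper91.CPX

/-- A large family of point sets with prime and maximal vanishing ideal. -/
structure Setup (ι : Type) [Fintype ι] [DecidableEq ι] where
  F : Frame
  M : ℕ → (ι → ℤ) → ℤ
  T : ℕ → Finset (ι → ℤ)
  bdd : Bdd F T
  large : Large F M T
  prime : (vanIdeal F T).IsPrime
  max : ∀ T' : ℕ → Finset (ι → ℤ), (∀ ν, T' ν ⊆ T ν) → Large F M T' → vanIdeal F T' = vanIdeal F T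

section setup

variable {ι : Type} [Fintype ι] [DecidableEq ι]

instance (𝒮 : Setup ι) : (vanIdeal 𝒮.F 𝒮.T).IsPrime := 𝒮.prime

/-- The coordinate ring. -/
def Setup.A (𝒮 : Setup ι) : Type := MvPolynomial ι (K0 𝒮.F) ⧸ vanIdeal 𝒮.F 𝒮.T

noncomputable instance (𝒮 : Setup ι) : CommRing 𝒮.A :=
  inferInstanceAs (CommRing (MvPolynomial ι (K0 𝒮.F) ⧸ vanIdeal 𝒮.F 𝒮.T))

noncomputable instance (𝒮 : Setup ι) : Algebra (K0 𝒮.F) 𝒮.A :=
  inferInstanceAs (Algebra (K0 𝒮.F) (MvPolynomial ι (K0 𝒮.F) ⧸ vanIdeal 𝒮.F 𝒮.T))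

instance (𝒮 : Setup ι) : IsDomain 𝒮.A :=
  inferInstanceAs (IsDomain (MvPolynomial ι (K0 𝒮.F) ⧸ vanIdeal 𝒮.F 𝒮.T))

/-- The quotient map. -/
noncomputable def Setup.qmk (𝒮 : Setup ι) : MvPolynomial ι (K0 𝒮.F) →ₐ[K0 𝒮.F] 𝒮.A :=
  Ideal.Quotient.mkₐ (K0 𝒮.F) (vanIdeal 𝒮.F 𝒮.T)

/-- The function field. -/
def Setup.L (𝒮 : Setup ι) : Type := FractionRing 𝒮.A

noncomputable instance (𝒮 : Setup ι) : Field 𝒮.L := inferInstanceAs (Field (FractionRing 𝒮.A))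

noncomputable instance (𝒮 : Setup ι) : Algebra 𝒮.A 𝒮.L :=
  inferInstanceAs (Algebra 𝒮.A (FractionRing 𝒮.A))

instance (𝒮 : Setup ι) : IsFractionRing 𝒮.A 𝒮.L :=
  inferInstanceAs (IsFractionRing 𝒮.A (FractionRing 𝒮.A))

noncomputable instance (𝒮 : Setup ι) : Algebra (K0 𝒮.F) 𝒮.L :=
  inferInstanceAs (Algebra (K0 𝒮.F) (FractionRing 𝒮.A))

instance (𝒮 : Setup ι) : IsScalarTower (K0 𝒮.F) 𝒮.A 𝒮.L :=
  inferInstanceAs (IsScalarTower (K0 𝒮.F) 𝒮.A (FractionRing 𝒮.A))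

/-- The class of a polynomial over `Zb F` in the function field. -/
noncomputable def Setup.cls (𝒮 : Setup ι) : MvPolynomial ι (Zb 𝒮.F) →+* 𝒮.L :=
  ((algebraMap 𝒮.A 𝒮.L).comp 𝒮.qmk.toRingHom).comp (map (toK 𝒮.F))

instance (𝒮 : Setup ι) : CharZero 𝒮.L :=
  charZero_of_injective_algebraMap (algebraMap (K0 𝒮.F) 𝒮.L).injective

instance (𝒮 : Setup ι) : Algebra.EssFiniteType (K0 𝒮.F) 𝒮.L := by
  have : Algebra.FiniteType (K0 𝒮.F) 𝒮.A :=
    inferInstanceAs (Algebra.FiniteType (K0 𝒮.F) (MvPolynomial ι (K0 𝒮.F) ⧸ vanIdeal 𝒮.F 𝒮.T))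
  have : Algebra.EssFiniteType 𝒮.A 𝒮.L :=
    Algebra.EssFiniteType.of_isLocalization _ (nonZeroDivisors 𝒮.A)
  exact Algebra.EssFiniteType.comp (K0 𝒮.F) 𝒮.A 𝒮.L

open scoped Classical in
/-- The points of `T ν` with the property `Q ν`. -/
noncomputable def Setup.sub (𝒮 : Setup ι) (Q : ℕ → (ι → ℤ) → Prop) (ν : ℕ) : Finset (ι → ℤ) :=
  (𝒮.T ν).filter (Q ν)

theorem Setup.mem_sub (𝒮 : Setup ι) {Q : ℕ → (ι → ℤ) → Prop} {ν : ℕ} {z : ι → ℤ} :
    z ∈ 𝒮.sub Q ν ↔ z ∈ 𝒮.T ν ∧ Q ν z := by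
  simp [Setup.sub]

/-- The points of `T ν` with the property `Q ν` do not form a large family. -/
def Setup.Small (𝒮 : Setup ι) (Q : ℕ → (ι → ℤ) → Prop) : Prop :=
  ¬ Large 𝒮.F 𝒮.M (𝒮.sub Q)

/-- The value of a polynomial over `Zb F` at a point, at `ν`. -/
noncomputable def Setup.ev (𝒮 : Setup ι) (ν : ℕ) (z : ι → ℤ) : MvPolynomial ι (Zb 𝒮.F) →+* ℤ :=
  (eval z).comp (map (evAt 𝒮.F ν))

/-- Derivations of the function field over `K0`. -/
abbrev Setup.Der (𝒮 : Setup ι) : Type := Derivation (K0 𝒮.F) 𝒮.L 𝒮.L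

/-- The logarithmic derivative of `∏ z_v ^ e_v`. -/
noncomputable def Setup.om (𝒮 : Setup ι) (e : ι → Zb 𝒮.F) (δ : 𝒮.Der) : 𝒮.L :=
  ∑ v, algebraMap (K0 𝒮.F) 𝒮.L (toK 𝒮.F (e v)) * (δ (𝒮.cls (X v)) / 𝒮.cls (X v))

/-- Terms `t_b ∏ z_v ^ E_b(v)`, whose size is small compared to the growth of `X ν`. -/
structure Terms (𝒮 : Setup ι) (β : Type) where
  t : ℕ → β → ℤ
  E : ℕ → β → ι → ℕ
  EZ : β → ι → Zb 𝒮.F
  hEZ : ∀ ν b v, evAt 𝒮.F ν (EZ b v) = (E ν b v : ℤ)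
  G : ℕ → ℕ
  hG : ∀ C : ℕ, ∀ᶠ ν in (𝒮.F.U : Filter ℕ), 2 ^ ((G ν + C + 1) ^ 2) ≤ 𝒮.F.X ν
  hτ : ∀ᶠ ν in (𝒮.F.U : Filter ℕ), ∀ z ∈ 𝒮.T ν, ∀ b,
    |t ν b * ∏ v, z v ^ E ν b v| ≤ (𝒮.F.X ν : ℤ) ^ G ν

/-- The value of a term. -/
def Terms.val {𝒮 : Setup ι} {β : Type} (τ : Terms 𝒮 β) (ν : ℕ) (b : β) (z : ι → ℤ) : ℤ :=
  τ.t ν b * ∏ v, z v ^ τ.E ν b v

end setup

/-- `b` and `b'` are related: the difference of the logarithmic derivatives is that of some `h ≠ 0`. -/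
def Rel {K L : Type} [Field K] [Field L] [Algebra K L] {β : Type}
    (om : β → Derivation K L L → L) (b b' : β) : Prop :=
  ∃ h : L, h ≠ 0 ∧ ∀ δ : Derivation K L L, δ h = (om b' δ - om b δ) * h

section nabla

variable {S : Type} [CommRing S] {ι : Type} [Fintype ι] [DecidableEq ι] {d : ℕ}

/-- The denominator of all `δ_j z_v / z_v`. -/
noncomputable def den (G : Fin d → MvPolynomial ι S)
    (ρ : ι → Polynomial (MvPolynomial (Fin d) S)) : MvPolynomial ι S :=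
  ∏ v, (subst G v (Polynomial.derivative (ρ v)) * X v)

/-- The polynomial `den * (δ_j W + (∑ e_v δ_j z_v / z_v) W)`. -/
noncomputable def nabla (G : Fin d → MvPolynomial ι S)
    (ρ : ι → Polynomial (MvPolynomial (Fin d) S)) (j : Fin d) (e : ι → S) (W : MvPolynomial ι S) :
    MvPolynomial ι S :=
  -((∏ v, X v) * ∑ v, subst G v (coeffDeriv j (ρ v)) * pderiv v W *
      ∏ v' ∈ Finset.univ.erase v, subst G v' (Polynomial.derivative (ρ v')) +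
    W * gE e Finset.univ ρ G j)

/-- The polynomial `∑ t_b W_b ∏ z_v ^ E_b(v)`. -/
noncomputable def relPoly {β : Type} [Fintype β] (t : β → ℤ) (E : β → ι → ℕ)
    (W : β → MvPolynomial ι ℤ) : MvPolynomial ι ℤ :=
  ∑ b, C (t b) * W b * ∏ v, X v ^ E b v

end nabla

section forms

/-- The exponents of the monomials of degree `D` in `N + 1` variables. -/
abbrev Exps (N D : ℕ) : Type := {b : Fin (N + 1) → Fin (D + 1) // ∑ i, (b i : ℕ) = D}

/-- The value of a monomial. -/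
def mval {N D : ℕ} (b : Exps N D) (x : Fin (N + 1) → ℤ) : ℤ := ∏ i, x i ^ (b.1 i : ℕ)

/-- The value of the form with coefficients `c`. -/
def fval {N D : ℕ} (c : Exps N D → ℤ) (x : Fin (N + 1) → ℤ) : ℤ := ∑ b, c b * mval b x

/-- The weight of an exponent. -/
def wt {N D : ℕ} (lam : Fin (N + 1) → ℕ) (b : Exps N D) : ℕ := ∑ i, lam i * (b.1 i : ℕ)

/-- The point is not in a positive dimensional coset of a subtorus contained in the variety. -/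
def NonDeg {N D r : ℕ} (c : Fin r → Exps N D → ℤ) (x : Fin (N + 1) → ℤ) : Prop :=
  ∀ lam : Fin (N + 1) → ℕ, (∃ i j, lam i ≠ lam j) →
    ∃ (s : Fin r) (n : ℕ), ∑ b with wt lam b = n, c s b * mval b x ≠ 0

/-- `x_i = a_i ∏ z_ij ^ e_ij`. -/
def xval {N k : ℕ} (a : Fin (N + 1) → ℤ) (e : Fin (N + 1) → Fin k → ℕ)
    (z : Fin (N + 1) × Fin k → ℤ) : Fin (N + 1) → ℤ := fun i => a i * ∏ j, z (i, j) ^ e i j

/-- No prime divides all coordinates. -/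
def Prim {N : ℕ} (x : Fin (N + 1) → ℤ) : Prop := ∀ p : ℕ, p.Prime → ∃ i, ¬ (p : ℤ) ∣ x i

/-- Up to a factor `A` whose radical outside `S` is at most `R`, a product of `k` powers with exponents at least `m`. -/
def PowLike (S : Finset ℕ) (m k R : ℕ) (x : ℤ) : Prop :=
  ∃ (A : ℕ) (z e : Fin k → ℕ), x.natAbs = A * ∏ j, z j ^ e j ∧ (∀ j, m ≤ e j) ∧
    ∏ p ∈ A.primeFactors \ S, p ≤ R

end forms

end Pool.Agent.Helper85.VA
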