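import Pool.Agent.Helper85.VA.Defs

/-!
VA-C0. From arbitrarily many forms of degrees at most `D` to `R0` forms of degree exactly `D`, `R0` the number of monomials.

Proof. `coeffs f d`: for a homogeneous polynomial `f` of degree `d ≤ D` let `c b` be the coefficient of `x^b` in `f * X 0 ^ (D - d)`, `b ∈ Exps N D`
(as a `Finsupp`). The product is homogeneous of degree `D`, so (1) `fval c x = eval x f * x 0 ^ (D - d)` and (2) for all `lam, n`:
`∑ b with wt lam b = n, c b * mval b x` is the coefficient of `T^n` in `aeval (fun i => C (x i) * X ^ lam i) (f * X 0 ^ (D - d)) =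
aeval (..) f * (C (x 0) * X ^ lam 0) ^ (D - d)` (expand as the sum over the monomials: `MvPolynomial.aeval_eq_sum`/`as_sum`,
`∏ (C (x i) * X ^ lam i) ^ b i = C (mval b x) * X ^ wt lam b`). All exponents of the support have total degree `D`, so they are given by elements of `Exps N D`.
`few_forms`: let `c_s`, `s : Fin r`, be these vectors, `V` the span over `ℚ` of the `c_s` in `Exps N D → ℚ`, `dim V ≤ R0 = card (Exps N D)`; choose a subset of the
`c_s` that is a basis of `V` (`exists_linearIndependent`, `Submodule.exists_finset_of_..`), enumerate it in `Fin R0` and fill with `0`: `g : Fin R0 → Exps N D → ℤ`, every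
`g t` is `0` or some `c_s`, and every `c_s` is a rational combination of the `g t`.
Then for `x` with all `x i ≠ 0`: all `eval x (f s) = 0` implies all `fval (g t) x = 0`; and if `x` is off (for all nonconstant `lam` some `aeval (..) (f s) ≠ 0`) then
`NonDeg g x`: given `lam` take `s` with `aeval (..) (f s) ≠ 0`, so `aeval (..) (f s * X 0^(D - d)) ≠ 0` (`ℤ[T]` is a domain, `x 0 ≠ 0`), so some coefficient
`∑ b with wt lam b = n, c_s b * mval b x ≠ 0`, and this is a rational combination of the same sums for the `g t`, so one of those is nonzero.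
-/

open MvPolynomial

namespace Pool.Agent.Helper85.VA

/-- The exponent as a `Finsupp`. -/
private noncomputable def tf {N D : ℕ} (b : Exps N D) : Fin (N + 1) →₀ ℕ :=
  Finsupp.equivFunOnFinite.symm (fun i => (b.1 i : ℕ))

private lemma tf_apply {N D : ℕ} (b : Exps N D) (i : Fin (N + 1)) : tf b i = (b.1 i : ℕ) := rfl

private lemma tf_inj {N D : ℕ} : Function.Injective (tf (N := N) (D := D)) := by
  intro b b' h
  apply Subtype.ext
  funext i
  apply Fin.ext
  rw [← tf_apply, ← tf_apply, h]

private lemma exists_tf {N D : ℕ} {F : MvPolynomial (Fin (N + 1)) ℤ} (hF : F.IsHomogeneous D)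
    {d : Fin (N + 1) →₀ ℕ} (hd : d ∈ F.support) : ∃ b : Exps N D, tf b = d := by
  have h1 : ∑ i, d i = D := by
    have h2 := hF (mem_support_iff.mp hd)
    rw [Finsupp.weight_apply, Finsupp.sum_fintype _ _ (by simp)] at h2
    simpa using h2
  have h3 : ∀ i, d i ≤ D := by
    intro i
    rw [← h1]
    exact Finset.single_le_sum (f := fun i => d i) (fun _ _ => Nat.zero_le _) (Finset.mem_univ i)
  refine ⟨⟨fun i => ⟨d i, Nat.lt_succ_of_le (h3 i)⟩, h1⟩, ?_⟩
  ext i
  rfl

private lemma aeval_sum {N D : ℕ} {R : Type*} [CommRing R] [Algebra ℤ R] {F : MvPolynomial (Fin (N + 1)) ℤ}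
    (hF : F.IsHomogeneous D) (y : Fin (N + 1) → R) :
    aeval y F = ∑ b : Exps N D, algebraMap ℤ R (coeff (tf b) F) * ∏ i, y i ^ (b.1 i : ℕ) := by
  rw [aeval_def, eval₂_eq']
  have hsub : F.support ⊆ Finset.univ.image (tf (N := N) (D := D)) := by
    intro d hd
    obtain ⟨b, hb⟩ := exists_tf hF hd
    exact Finset.mem_image.mpr ⟨b, Finset.mem_univ _, hb⟩
  rw [Finset.sum_subset hsub, Finset.sum_image (fun _ _ _ _ h => tf_inj h)]
  · refine Finset.sum_congr rfl fun b _ => ?_
    simp [tf_apply]
  · intro d _ hd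
    rw [notMem_support_iff.mp hd]
    simp

private lemma coeff_aeval {N D : ℕ} {F : MvPolynomial (Fin (N + 1)) ℤ}
    (hF : F.IsHomogeneous D) (x : Fin (N + 1) → ℤ) (lam : Fin (N + 1) → ℕ) (n : ℕ) :
    (aeval (fun i => Polynomial.C (x i) * Polynomial.X ^ lam i) F : Polynomial ℤ).coeff n =
      ∑ b : Exps N D with wt lam b = n, coeff (tf b) F * mval b x := by
  rw [aeval_sum hF, Polynomial.finsetSum_coeff, Finset.sum_filter]
  refine Finset.sum_congr rfl fun b _ => ?_
  have h1 : algebraMap ℤ (Polynomial ℤ) (coeff (tf b) F) *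
      ∏ i, (Polynomial.C (x i) * Polynomial.X ^ lam i) ^ (b.1 i : ℕ) =
      Polynomial.C (coeff (tf b) F * mval b x) * Polynomial.X ^ (wt lam b) := by
    have h2 : ∏ i, (Polynomial.C (x i) * Polynomial.X ^ lam i : Polynomial ℤ) ^ (b.1 i : ℕ) =
        Polynomial.C (mval b x) * Polynomial.X ^ (wt lam b) := by
      unfold mval wt
      rw [map_prod, ← Finset.prod_pow_eq_pow_sum, ← Finset.prod_mul_distrib]
      refine Finset.prod_congr rfl fun i _ => ?_
      rw [mul_pow, ← pow_mul, map_pow]
    rw [h2, Polynomial.C_mul, mul_assoc]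
    rfl
  rw [h1, Polynomial.coeff_C_mul_X_pow]
  by_cases hn : wt lam b = n
  · rw [if_pos hn, if_pos hn.symm]
  · rw [if_neg hn, if_neg (fun h => hn h.symm)]

private lemma pick {E : Type} [Fintype E] {r : ℕ} (c : Fin r → E → ℤ) :
    ∃ g : Fin (Fintype.card E) → E → ℤ, (∀ t, g t = 0 ∨ ∃ s, g t = c s) ∧
      ∀ w : E → ℤ, (∀ t, ∑ b, g t b * w b = 0) → ∀ s, ∑ b, c s b * w b = 0 := by
  classical
  obtain ⟨cQ, hcQ⟩ : ∃ cQ : Fin r → E → ℚ, cQ = fun s b => (c s b : ℚ) := ⟨_, rfl⟩
  obtain ⟨B, hB, hspan, hli⟩ := exists_linearIndependent ℚ (Set.range cQ)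
  have hfin : Finite B := (Set.finite_range cQ).subset hB
  have : Fintype B := Fintype.ofFinite B
  have hcard : Fintype.card B ≤ Fintype.card (Fin (Fintype.card E)) := by
    have h1 := hli.fintype_card_le_finrank
    rw [Module.finrank_fintype_fun_eq_card] at h1
    rwa [Fintype.card_fin]
  obtain ⟨em⟩ := Function.Embedding.nonempty_of_card_le hcard
  have hs : ∀ v : B, ∃ s, cQ s = v.1 := fun v => hB v.2
  choose sv hsv using hs
  refine ⟨Function.extend em (fun v => c (sv v)) 0, ?_, ?_⟩
  · intro t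
    by_cases ht : ∃ v, em v = t
    · obtain ⟨v, rfl⟩ := ht
      right
      exact ⟨sv v, em.injective.extend_apply _ _ v⟩
    · left
      exact Function.extend_apply' _ _ _ ht
  · intro w hw s
    have hL : ∀ v ∈ Submodule.span ℚ B, ∑ b, v b * (w b : ℚ) = 0 := by
      intro v hv
      induction hv using Submodule.span_induction with
      | mem v hv =>
        have h1 := hw (em ⟨v, hv⟩)
        rw [em.injective.extend_apply] at h1
        have h2 : ∀ b, v b = (c (sv ⟨v, hv⟩) b : ℚ) := by
          intro b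
          have h3 := congrFun (hsv ⟨v, hv⟩) b
          rw [hcQ] at h3
          exact h3.symm
        simp only [h2]
        exact_mod_cast h1
      | zero => simp
      | add v v' _ _ h h' =>
        simp only [Pi.add_apply, add_mul, Finset.sum_add_distrib, h, h', add_zero]
      | smul a v _ h =>
        simp only [Pi.smul_apply, smul_eq_mul, mul_assoc, ← Finset.mul_sum, h, mul_zero]
    have h4 : cQ s ∈ Submodule.span ℚ B := by
      rw [hspan]
      exact Submodule.subset_span ⟨s, rfl⟩
    have h5 : ∑ b, cQ s b * (w b : ℚ) = 0 := hL _ h4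
    rw [hcQ] at h5
    change ∑ b, (c s b : ℚ) * (w b : ℚ) = 0 at h5
    exact_mod_cast h5

theorem few_forms (N D : ℕ) {r : ℕ} (f : Fin r → MvPolynomial (Fin (N + 1)) ℤ)
    (hf : ∀ s, ∃ d ≤ D, (f s).IsHomogeneous d) :
    ∃ g : Fin (Fintype.card (Exps N D)) → Exps N D → ℤ, ∀ x : Fin (N + 1) → ℤ,
      (∀ i, x i ≠ 0) → (∀ s, eval x (f s) = 0) →
      (∀ lam : Fin (N + 1) → ℕ, (∃ i j, lam i ≠ lam j) →
        ∃ s, aeval (fun i => Polynomial.C (x i) * Polynomial.X ^ lam i) (f s) ≠
          (0 : Polynomial ℤ)) →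
      (∀ t, fval (g t) x = 0) ∧ NonDeg g x := by
  classical
  choose d hdD hfd using hf
  obtain ⟨F, hFdef⟩ : ∃ F : Fin r → MvPolynomial (Fin (N + 1)) ℤ,
      F = fun s => f s * X 0 ^ (D - d s) := ⟨_, rfl⟩
  have hF : ∀ s, (F s).IsHomogeneous D := by
    intro s
    have h1 := (hfd s).mul ((isHomogeneous_X ℤ (0 : Fin (N + 1))).pow (D - d s))
    rw [one_mul, Nat.add_sub_cancel' (hdD s)] at h1
    rw [hFdef]
    exact h1
  obtain ⟨g, hg1, hg2⟩ := pick (fun s (b : Exps N D) => coeff (tf b) (F s))
  refine ⟨g, ?_⟩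
  intro x hx0 hxf hoff
  have hval : ∀ s, fval (fun b : Exps N D => coeff (tf b) (F s)) x = 0 := by
    intro s
    have h1 := aeval_sum (hF s) x
    have h2 : aeval x (F s) = 0 := by
      have h3 := hxf s
      rw [hFdef]
      change aeval x (f s * X 0 ^ (D - d s)) = 0
      rw [map_mul]
      change eval x (f s) * _ = 0
      rw [h3, zero_mul]
    rw [h2] at h1
    exact h1.symm
  refine ⟨?_, ?_⟩
  · intro t
    rcases hg1 t with h | ⟨s, h⟩
    · rw [h]
      simp [fval]
    · rw [h]
      exact hval s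
  · intro lam hlam
    obtain ⟨s, hs⟩ := hoff lam hlam
    have h1 : (aeval (fun i => Polynomial.C (x i) * Polynomial.X ^ lam i) (F s) : Polynomial ℤ)
        ≠ 0 := by
      rw [hFdef]
      change aeval _ (f s * X 0 ^ (D - d s)) ≠ 0
      rw [map_mul, map_pow, aeval_X]
      exact mul_ne_zero hs (pow_ne_zero _ (mul_ne_zero
        (Polynomial.C_ne_zero.mpr (hx0 0)) (pow_ne_zero _ Polynomial.X_ne_zero)))
    obtain ⟨n, hn⟩ : ∃ n, (aeval (fun i => Polynomial.C (x i) * Polynomial.X ^ lam i) (F s) :
        Polynomial ℤ).coeff n ≠ 0 := by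
      by_contra hcon
      push Not at hcon
      exact h1 (Polynomial.ext fun n => by rw [hcon n, Polynomial.coeff_zero])
    rw [coeff_aeval (hF s)] at hn
    by_contra hcon
    push Not at hcon
    apply hn
    have h2 := hg2 (fun b => if wt lam b = n then mval b x else 0) (by
      intro t
      have h3 := hcon t n
      rw [Finset.sum_filter] at h3
      simpa only [mul_ite, mul_zero] using h3) s
    rw [Finset.sum_filter]
    simpa only [mul_ite, mul_zero] using h2


end Pool.Agent.Helper85.VA
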