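import Pool.Agent.Helper91.CPX.Smooth

/-!
VA-B9b. Few products of large powers have a ratio of small height to a fixed one.

Proof. `full_count`: `n` with all `v_p(n) ≥ m` (for `p ∣ n`) is `n = r ^ m * s`, `r = ∏ p^(v_p(n) / m)`, `s = ∏ p^(v_p(n) % m)`: all primes of `s` divide `r`, as
`v_p(n) / m ≥ 1`. For `n ≤ Y`: `r ^ m ≤ Y`, so `r ≤ Y^(1/m)`, and for each `r` the number of `s ≤ Y` all of whose primes divide `r` is at
most `C Y^η r^η ≤ C Y^(2 η)` (`Pool.Agent.Helper91.CPX.smooth_count`). So the number of `n` is at most `C Y^(1/m + 2 η)`.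
`few_ratios`. Let `w0 = ∏ z0_j^(e_j)`, `R0 = ∏ z0_j ≤ X^k`; the primes of `w0` divide `R0`. For `w ∈ 𝒲` divide `g, S` by their gcd: `w g' = S' w0`,
`gcd(g', S') = 1`, and `w` is determined by `(g', S')`. `g' ∣ w0`, so all primes of `g'` divide `R0`: at most `C X^((C + k) η)` possibilities (`smooth_count`).
Write `S' = S1 S2`, all primes of `S1` divide `R0`, `S2` coprime to `R0` (`Nat.factorization`, products over the primes dividing / not dividing `R0`).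
`S1`: same bound. For a prime `p ∣ S2`: `p ∤ w0`, `p ∤ g'`, so `v_p(S2) = v_p(S') = v_p(w)`, which is positive, and `w = ∏ z_j^(e_j)`, so some
`z_j` is divisible by `p` and `v_p(w) ≥ e_j ≥ m`. So `S2 ≤ X^C` is `m`-full: at most `C (X^C)^(1/m + 2 η)` possibilities. Total: at most
`C' X^(2 (C + k) η + C/m + 2 C η)`, at most `X^δ` if `η` is small and `m`, `X` are large depending on `k, C, δ`.
(Case `k = 0` or `C = 0` need no special treatment; `m2 ≥ 1`, `X2 ≥ 2`.)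
-/

open Pool.Agent.Helper91.CPX

namespace Pool.Agent.Helper85.VA

/-- the decomposition `n = r ^ m * s` -/
private lemma full_split (m n : ℕ) (hm : 1 ≤ m) (hn : 1 ≤ n)
    (hf : ∀ p : ℕ, p.Prime → p ∣ n → m ≤ n.factorization p) :
    ∃ r s : ℕ, n = r ^ m * s ∧ ∀ p : ℕ, p.Prime → p ∣ s → p ∣ r := by
  refine ⟨∏ p ∈ n.primeFactors, p ^ (n.factorization p / m),
    ∏ p ∈ n.primeFactors, p ^ (n.factorization p % m), ?_, ?_⟩
  · rw [← Finset.prod_pow, ← Finset.prod_mul_distrib]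
    conv_lhs => rw [← Nat.prod_factorization_pow_eq_self (show n ≠ 0 by omega)]
    apply Finset.prod_congr rfl
    intro p _
    rw [← pow_mul, ← pow_add]
    congr 1
    exact (Nat.div_add_mod' _ _).symm
  · intro p hp hps
    obtain ⟨q, hq, hpq⟩ := (Prime.dvd_finsetProd_iff hp.prime _).1 hps
    have hqp := Nat.prime_of_mem_primeFactors hq
    have h1 : p = q := (Nat.prime_dvd_prime_iff_eq hp hqp).1 (hp.dvd_of_dvd_pow hpq)
    subst h1
    have h2 := hf p hp (Nat.dvd_of_mem_primeFactors hq)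
    have h3 : 1 ≤ n.factorization p / m := (Nat.one_le_div_iff (by omega)).2 h2
    exact (dvd_pow_self p (by omega)).trans
      (Finset.dvd_prod_of_mem (fun p => p ^ (n.factorization p / m)) hq)

theorem full_count (η : ℝ) (hη : 0 < η) : ∃ C : ℝ, 1 ≤ C ∧ ∀ m : ℕ, 1 ≤ m → ∀ Y : ℕ, 1 ≤ Y →
    ∀ F : Finset ℕ, (∀ n ∈ F, 1 ≤ n ∧ n ≤ Y ∧ ∀ p : ℕ, p.Prime → p ∣ n → m ≤ n.factorization p) →
      (F.card : ℝ) ≤ C * (Y : ℝ) ^ (1 / (m : ℝ) + 2 * η) := by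
  classical
  obtain ⟨C, hC1, hC⟩ := smooth_count η hη
  refine ⟨C, hC1, fun m hm Y hY F hF => ?_⟩
  have hY0 : (0 : ℝ) < Y := by exact_mod_cast hY
  have hY1 : (1 : ℝ) ≤ Y := by exact_mod_cast hY
  have hm0 : (0 : ℝ) < m := by exact_mod_cast hm
  have hm1 : (1 : ℝ) ≤ m := by exact_mod_cast hm
  have hsp : ∀ n : ℕ, ∃ q : ℕ × ℕ, n ∈ F → n = q.1 ^ m * q.2 ∧
      ∀ p : ℕ, p.Prime → p ∣ q.2 → p ∣ q.1 := by
    intro n
    by_cases hn : n ∈ F
    · obtain ⟨h1, -, h3⟩ := hF n hn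
      obtain ⟨r, s, h4, h5⟩ := full_split m n hm h1 h3
      exact ⟨(r, s), fun _ => ⟨h4, h5⟩⟩
    · exact ⟨(0, 0), fun h => absurd h hn⟩
  choose q hq using hsp
  obtain ⟨K, hK⟩ : ∃ K : ℕ, K = ⌊(Y : ℝ) ^ (1 / (m : ℝ))⌋₊ := ⟨_, rfl⟩
  have hKle : (K : ℝ) ≤ (Y : ℝ) ^ (1 / (m : ℝ)) := by
    rw [hK]
    exact Nat.floor_le (Real.rpow_nonneg hY0.le _)
  have hr : ∀ n ∈ F, 1 ≤ (q n).1 ∧ 1 ≤ (q n).2 ∧ (q n).1 ≤ K ∧ (q n).2 ≤ Y ∧ (q n).1 ≤ Y := by
    intro n hn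
    obtain ⟨h1, h2, -⟩ := hF n hn
    obtain ⟨h4, -⟩ := hq n hn
    have h5 : 0 < (q n).1 ^ m * (q n).2 := by omega
    have h6 : 0 < (q n).1 ^ m := by
      rcases Nat.eq_zero_or_pos ((q n).1 ^ m) with h | h
      · rw [h, zero_mul] at h5; omega
      · exact h
    have h7 : 0 < (q n).2 := by
      rcases Nat.eq_zero_or_pos (q n).2 with h | h
      · rw [h, mul_zero] at h5; omega
      · exact h
    have h8 : 0 < (q n).1 := by
      rcases Nat.eq_zero_or_pos (q n).1 with h | h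
      · rw [h, zero_pow (by omega)] at h6; omega
      · exact h
    have h9 : (q n).1 ^ m ≤ Y := by
      calc (q n).1 ^ m ≤ (q n).1 ^ m * (q n).2 := Nat.le_mul_of_pos_right _ h7
        _ = n := h4.symm
        _ ≤ Y := h2
    refine ⟨h8, h7, ?_, ?_, ?_⟩
    · rw [hK]
      apply Nat.le_floor
      have h10 : ((q n).1 : ℝ) ^ (m : ℝ) ≤ Y := by
        rw [Real.rpow_natCast]
        exact_mod_cast h9
      calc ((q n).1 : ℝ) = (((q n).1 : ℝ) ^ (m : ℝ)) ^ (1 / (m : ℝ)) := by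
            rw [← Real.rpow_mul (Nat.cast_nonneg _), mul_one_div_cancel hm0.ne', Real.rpow_one]
        _ ≤ (Y : ℝ) ^ (1 / (m : ℝ)) := Real.rpow_le_rpow (by positivity) h10 (by positivity)
    · calc (q n).2 ≤ (q n).1 ^ m * (q n).2 := Nat.le_mul_of_pos_left _ h6
        _ = n := h4.symm
        _ ≤ Y := h2
    · exact (Nat.le_self_pow (by omega) _).trans h9
  -- the fibres
  have hfib : ∀ r ∈ F.image (fun n => (q n).1),
      ((F.filter fun n => (q n).1 = r).card : ℝ) ≤ C * (Y : ℝ) ^ (2 * η) := by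
    intro r hrF
    obtain ⟨n0, hn0, hn0r⟩ := Finset.mem_image.1 hrF
    have hr1 : 1 ≤ r := by rw [← hn0r]; exact (hr n0 hn0).1
    have hrY : r ≤ Y := by rw [← hn0r]; exact (hr n0 hn0).2.2.2.2
    have h1 : ((F.filter fun n => (q n).1 = r).image (fun n => (q n).2)).card =
        (F.filter fun n => (q n).1 = r).card := by
      apply Finset.card_image_of_injOn
      intro a ha b hb hab
      rw [Finset.mem_coe, Finset.mem_filter] at ha hb
      have h2 := (hq a ha.1).1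
      have h3 := (hq b hb.1).1
      simp only at hab
      rw [h2, h3, ha.2, hb.2, hab]
    rw [← h1]
    have h2 := hC r hr1 Y hY ((F.filter fun n => (q n).1 = r).image (fun n => (q n).2)) (by
      intro v hv
      obtain ⟨n, hn, rfl⟩ := Finset.mem_image.1 hv
      rw [Finset.mem_filter] at hn
      obtain ⟨h3, h4, h5, h6, h7⟩ := hr n hn.1
      refine ⟨h4, h6, fun p hp hpv => ?_⟩
      rw [← hn.2]
      exact (hq n hn.1).2 p hp hpv)
    calc _ ≤ C * (Y : ℝ) ^ η * (r : ℝ) ^ η := h2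
      _ ≤ C * (Y : ℝ) ^ η * (Y : ℝ) ^ η := by
          apply mul_le_mul_of_nonneg_left
          · exact Real.rpow_le_rpow (Nat.cast_nonneg _) (by exact_mod_cast hrY) hη.le
          · positivity
      _ = C * (Y : ℝ) ^ (2 * η) := by
          rw [mul_assoc, ← Real.rpow_add hY0]
          congr 2
          ring
  have himg : ((F.image fun n => (q n).1).card : ℝ) ≤ (Y : ℝ) ^ (1 / (m : ℝ)) := by
    refine le_trans ?_ hKle
    have h1 : (F.image fun n => (q n).1) ⊆ Finset.Icc 1 K := by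
      intro r hrF
      obtain ⟨n, hn, rfl⟩ := Finset.mem_image.1 hrF
      obtain ⟨h3, h4, h5, h6, h7⟩ := hr n hn
      exact Finset.mem_Icc.2 ⟨h3, h5⟩
    have h2 := Finset.card_le_card h1
    rw [Nat.card_Icc, Nat.add_sub_cancel] at h2
    exact_mod_cast h2
  have hcard : (F.card : ℝ) = ∑ r ∈ F.image (fun n => (q n).1),
      ((F.filter fun n => (q n).1 = r).card : ℝ) := by
    rw [Finset.card_eq_sum_card_image (fun n => (q n).1) F]
    push_cast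
    rfl
  rw [hcard]
  calc _ ≤ ∑ r ∈ F.image (fun n => (q n).1), C * (Y : ℝ) ^ (2 * η) := Finset.sum_le_sum hfib
    _ = ((F.image fun n => (q n).1).card : ℝ) * (C * (Y : ℝ) ^ (2 * η)) := by
        rw [Finset.sum_const, nsmul_eq_mul]
    _ ≤ (Y : ℝ) ^ (1 / (m : ℝ)) * (C * (Y : ℝ) ^ (2 * η)) :=
        mul_le_mul_of_nonneg_right himg (by positivity)
    _ = C * (Y : ℝ) ^ (1 / (m : ℝ) + 2 * η) := by
        rw [Real.rpow_add hY0]
        ring

/-- the parts of `S` composed of primes dividing `R` and coprime to `R` -/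
private lemma split_coprime (R : ℕ) : ∀ S : ℕ, 1 ≤ S → ∃ a b : ℕ, S = a * b ∧ 1 ≤ a ∧ 1 ≤ b ∧
    (∀ p : ℕ, p.Prime → p ∣ a → p ∣ R) ∧ Nat.Coprime b R := by
  intro S
  induction S using Nat.strong_induction_on with
  | _ S ih =>
    intro hS
    by_cases hc : Nat.Coprime S R
    · exact ⟨1, S, (one_mul S).symm, le_rfl, hS,
        fun p hp hp1 => absurd (Nat.dvd_one.1 hp1) hp.ne_one, hc⟩
    · obtain ⟨p, hp, hpS, hpR⟩ := Nat.Prime.not_coprime_iff_dvd.1 hc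
      obtain ⟨T, hT⟩ := hpS
      have hT1 : 1 ≤ T := by
        rcases Nat.eq_zero_or_pos T with h | h
        · rw [h, mul_zero] at hT; omega
        · exact h
      have hTS : T < S := by
        rw [hT]
        exact lt_mul_of_one_lt_left (by omega) hp.one_lt
      obtain ⟨a, b, hab, ha, hb, h1, h2⟩ := ih T hTS hT1
      refine ⟨p * a, b, by rw [hT, hab, mul_assoc], Nat.mul_pos hp.pos ha, hb, ?_, h2⟩
      intro r hr hrpa
      rcases (Nat.Prime.dvd_mul hr).1 hrpa with h | h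
      · rw [(Nat.prime_dvd_prime_iff_eq hr hp).1 h]
        exact hpR
      · exact h1 r hr h

/-- the invariants of one element -/
private lemma few_one {k m : ℕ} {e : Fin k → ℕ} (he : ∀ j, m ≤ e j) {z0 z : Fin k → ℕ}
    (hz0 : ∀ j, 1 ≤ z0 j) (hz : ∀ j, 1 ≤ z j) {w g S N : ℕ} (hw : w = ∏ j, z j ^ e j)
    (hg : 1 ≤ g) (hgN : g ≤ N) (hS : 1 ≤ S) (hSN : S ≤ N) (h : w * g = S * ∏ j, z0 j ^ e j) :
    ∃ g' S1 S2 : ℕ, (1 ≤ g' ∧ g' ≤ N ∧ ∀ p : ℕ, p.Prime → p ∣ g' → p ∣ ∏ j, z0 j) ∧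
      (1 ≤ S1 ∧ S1 ≤ N ∧ ∀ p : ℕ, p.Prime → p ∣ S1 → p ∣ ∏ j, z0 j) ∧
      (1 ≤ S2 ∧ S2 ≤ N ∧ ∀ p : ℕ, p.Prime → p ∣ S2 → m ≤ S2.factorization p) ∧
      w * g' = S1 * S2 * ∏ j, z0 j ^ e j := by
  obtain ⟨w0, hw0⟩ : ∃ w0, w0 = ∏ j, z0 j ^ e j := ⟨_, rfl⟩
  have hw0pos : 0 < w0 := by
    rw [hw0]
    exact Finset.prod_pos fun j _ => pow_pos (hz0 j) _
  have hwpos : 0 < w := by
    rw [hw]
    exact Finset.prod_pos fun j _ => pow_pos (hz j) _
  rw [← hw0] at h ⊢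
  obtain ⟨d, hd⟩ : ∃ d, d = Nat.gcd g S := ⟨_, rfl⟩
  have hdpos : 0 < d := by rw [hd]; exact Nat.gcd_pos_of_pos_left _ hg
  obtain ⟨g', hg'⟩ : d ∣ g := by rw [hd]; exact Nat.gcd_dvd_left _ _
  obtain ⟨S', hS'⟩ : d ∣ S := by rw [hd]; exact Nat.gcd_dvd_right _ _
  have hg'1 : 1 ≤ g' := by
    rcases Nat.eq_zero_or_pos g' with h0 | h0
    · rw [h0, mul_zero] at hg'; omega
    · exact h0
  have hS'1 : 1 ≤ S' := by
    rcases Nat.eq_zero_or_pos S' with h0 | h0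
    · rw [h0, mul_zero] at hS'; omega
    · exact h0
  have hcop : Nat.Coprime g' S' := by
    have h1 : d * Nat.gcd g' S' = d * 1 := by
      rw [← Nat.gcd_mul_left, ← hg', ← hS', mul_one, hd]
    exact Nat.eq_of_mul_eq_mul_left hdpos h1
  have h' : w * g' = S' * w0 := by
    apply Nat.eq_of_mul_eq_mul_left hdpos
    calc d * (w * g') = w * (d * g') := by ring
      _ = w * g := by rw [← hg']
      _ = S * w0 := h
      _ = d * (S' * w0) := by rw [hS']; ring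
  have hprime0 : ∀ p : ℕ, p.Prime → p ∣ w0 → p ∣ ∏ j, z0 j := by
    intro p hp hpw
    rw [hw0] at hpw
    obtain ⟨j, -, hj⟩ := (Prime.dvd_finsetProd_iff hp.prime _).1 hpw
    exact (hp.dvd_of_dvd_pow hj).trans (Finset.dvd_prod_of_mem z0 (Finset.mem_univ j))
  have hgw : g' ∣ w0 := hcop.dvd_of_dvd_mul_left (Dvd.intro_left w h')
  obtain ⟨S1, S2, hS12, hS1, hS2, hp1, hc2⟩ := split_coprime (∏ j, z0 j) S' hS'1
  have hg'N : g' ≤ N := by
    calc g' ≤ d * g' := Nat.le_mul_of_pos_left _ hdpos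
      _ = g := hg'.symm
      _ ≤ N := hgN
  have hS'N : S' ≤ N := by
    calc S' ≤ d * S' := Nat.le_mul_of_pos_left _ hdpos
      _ = S := hS'.symm
      _ ≤ N := hSN
  refine ⟨g', S1, S2, ⟨hg'1, hg'N, fun p hp hpg => hprime0 p hp (hpg.trans hgw)⟩,
    ⟨hS1, ?_, hp1⟩, ⟨hS2, ?_, ?_⟩, ?_⟩
  · calc S1 ≤ S1 * S2 := Nat.le_mul_of_pos_right _ hS2
      _ = S' := hS12.symm
      _ ≤ N := hS'N
  · calc S2 ≤ S1 * S2 := Nat.le_mul_of_pos_left _ hS1
      _ = S' := hS12.symm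
      _ ≤ N := hS'N
  · intro p hp hpS2
    have hpR : ¬ p ∣ ∏ j, z0 j := by
      intro hpR
      exact hp.ne_one (Nat.dvd_one.1 (by rw [← hc2]; exact Nat.dvd_gcd hpS2 hpR))
    have hpg : g'.factorization p = 0 :=
      Nat.factorization_eq_zero_of_not_dvd fun h0 => hpR (hprime0 p hp (h0.trans hgw))
    have hpw0 : w0.factorization p = 0 :=
      Nat.factorization_eq_zero_of_not_dvd fun h0 => hpR (hprime0 p hp h0)
    have hpS1 : S1.factorization p = 0 :=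
      Nat.factorization_eq_zero_of_not_dvd fun h0 => hpR (hp1 p hp h0)
    have h1 : (w * g').factorization p = (S' * w0).factorization p := by rw [h']
    rw [hS12, Nat.factorization_mul hwpos.ne' (by omega), Nat.factorization_mul
      (Nat.mul_ne_zero (by omega) (by omega)) hw0pos.ne', Nat.factorization_mul (by omega)
      (by omega), Finsupp.add_apply, Finsupp.add_apply, Finsupp.add_apply, hpg, hpw0, hpS1,
      add_zero, zero_add, add_zero] at h1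
    rw [← h1]
    have hpw : p ∣ w := by
      apply (hp.dvd_iff_one_le_factorization hwpos.ne').2
      rw [h1]
      exact (hp.dvd_iff_one_le_factorization (by omega)).1 hpS2
    rw [hw] at hpw
    obtain ⟨j, -, hj⟩ := (Prime.dvd_finsetProd_iff hp.prime _).1 hpw
    have hpz := hp.dvd_of_dvd_pow hj
    have h2 : p ^ m ∣ w := by
      rw [hw]
      exact ((pow_dvd_pow p (he j)).trans (pow_dvd_pow_of_dvd hpz _)).trans
        (Finset.dvd_prod_of_mem (fun j => z j ^ e j) (Finset.mem_univ j))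
    exact (hp.pow_dvd_iff_le_factorization hwpos.ne').1 h2
  · rw [← hS12]
    exact h'

theorem few_ratios (k C : ℕ) (δ : ℝ) (hδ : 0 < δ) :
    ∃ m2 X2 : ℕ, ∀ m, m2 ≤ m → ∀ X : ℕ, X2 ≤ X → ∀ e : Fin k → ℕ, (∀ j, m ≤ e j) →
      ∀ z0 : Fin k → ℕ, (∀ j, 1 ≤ z0 j ∧ z0 j ≤ X) → ∀ 𝒲 : Finset ℕ,
        (∀ w ∈ 𝒲, (∃ z : Fin k → ℕ, (∀ j, 1 ≤ z j) ∧ w = ∏ j, z j ^ e j) ∧
          ∃ g S : ℕ, 1 ≤ g ∧ g ≤ X ^ C ∧ 1 ≤ S ∧ S ≤ X ^ C ∧ w * g = S * ∏ j, z0 j ^ e j) →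
        (𝒲.card : ℝ) ≤ (X : ℝ) ^ δ := by
  classical
  obtain ⟨η, hη⟩ : ∃ η : ℝ, η = δ / (4 * (2 * ((C : ℝ) + k) + 2 * C + 1)) := ⟨_, rfl⟩
  have hη0 : 0 < η := by rw [hη]; positivity
  obtain ⟨C0, hC01, hC0⟩ := smooth_count η hη0
  obtain ⟨C1, hC11, hC1⟩ := full_count η hη0
  obtain ⟨m2, hm2⟩ := exists_nat_ge (4 * (C : ℝ) / δ)
  obtain ⟨X2, hX2⟩ := exists_nat_ge ((C0 * C0 * C1) ^ (4 / δ))
  refine ⟨m2 + 1, X2 + 1, fun m hm X hX e he z0 hz0 𝒲 h𝒲 => ?_⟩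
  have hX1 : 1 ≤ X := by omega
  have hX0' : (0 : ℝ) < X := by exact_mod_cast hX1
  have hX1' : (1 : ℝ) ≤ X := by exact_mod_cast hX1
  have hm1 : 1 ≤ m := by omega
  have hm0' : (0 : ℝ) < m := by exact_mod_cast hm1
  obtain ⟨N, hN⟩ : ∃ N, N = X ^ C := ⟨_, rfl⟩
  have hN1 : 1 ≤ N := by rw [hN]; exact Nat.one_le_pow _ _ hX1
  obtain ⟨R, hR⟩ : ∃ R, R = ∏ j, z0 j := ⟨_, rfl⟩
  have hR1 : 1 ≤ R := by
    rw [hR]
    have h0 : 0 < ∏ j, z0 j := Finset.prod_pos fun j _ => Nat.lt_of_lt_of_le zero_lt_one (hz0 j).1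
    exact h0
  have hRX : R ≤ X ^ k := by
    rw [hR]
    calc ∏ j, z0 j ≤ ∏ _j : Fin k, X := Finset.prod_le_prod' fun j _ => (hz0 j).2
      _ = X ^ k := by simp
  obtain ⟨A, hA⟩ : ∃ A : Finset ℕ, A = (Finset.Icc 1 N).filter
    fun v => ∀ p : ℕ, p.Prime → p ∣ v → p ∣ R := ⟨_, rfl⟩
  obtain ⟨B, hB⟩ : ∃ B : Finset ℕ, B = (Finset.Icc 1 N).filter
    fun v => ∀ p : ℕ, p.Prime → p ∣ v → m ≤ v.factorization p := ⟨_, rfl⟩
  have hAc : (A.card : ℝ) ≤ C0 * (N : ℝ) ^ η * (R : ℝ) ^ η := by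
    apply hC0 R hR1 N hN1 A
    intro v hv
    rw [hA, Finset.mem_filter, Finset.mem_Icc] at hv
    exact ⟨hv.1.1, hv.1.2, hv.2⟩
  have hBc : (B.card : ℝ) ≤ C1 * (N : ℝ) ^ (1 / (m : ℝ) + 2 * η) := by
    apply hC1 m hm1 N hN1 B
    intro v hv
    rw [hB, Finset.mem_filter, Finset.mem_Icc] at hv
    exact ⟨hv.1.1, hv.1.2, hv.2⟩
  have hex : ∀ w : ℕ, ∃ t : ℕ × ℕ × ℕ, w ∈ 𝒲 → t.1 ∈ A ∧ t.2.1 ∈ A ∧ t.2.2 ∈ B ∧
      w * t.1 = t.2.1 * t.2.2 * ∏ j, z0 j ^ e j := by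
    intro w
    by_cases hw : w ∈ 𝒲
    · obtain ⟨⟨z, hz, hwz⟩, g, S, hg, hgN, hS, hSN, h⟩ := h𝒲 w hw
      rw [← hN] at hgN hSN
      obtain ⟨g', S1, S2, h1, h2, h3, h4⟩ := few_one he (fun j => (hz0 j).1) hz hwz hg hgN hS hSN h
      rw [← hR] at h1 h2
      refine ⟨(g', S1, S2), fun _ => ⟨?_, ?_, ?_, h4⟩⟩
      · rw [hA, Finset.mem_filter, Finset.mem_Icc]
        exact ⟨⟨h1.1, h1.2.1⟩, h1.2.2⟩
      · rw [hA, Finset.mem_filter, Finset.mem_Icc]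
        exact ⟨⟨h2.1, h2.2.1⟩, h2.2.2⟩
      · rw [hB, Finset.mem_filter, Finset.mem_Icc]
        exact ⟨⟨h3.1, h3.2.1⟩, h3.2.2⟩
    · exact ⟨(0, 0, 0), fun h => absurd h hw⟩
  choose t ht using hex
  have hcard : 𝒲.card ≤ (A ×ˢ (A ×ˢ B)).card := by
    apply Finset.card_le_card_of_injOn t
    · intro w hw
      obtain ⟨h1, h2, h3, -⟩ := ht w hw
      exact Finset.mem_coe.2 (Finset.mem_product.2 ⟨h1, Finset.mem_product.2 ⟨h2, h3⟩⟩)
    · intro w hw w' hw' hww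
      obtain ⟨h1, h2, h3, h4⟩ := ht w hw
      obtain ⟨h1', h2', h3', h4'⟩ := ht w' hw'
      rw [← hww] at h4'
      have h5 : 0 < (t w).1 := by
        rw [hA, Finset.mem_filter, Finset.mem_Icc] at h1
        omega
      exact Nat.eq_of_mul_eq_mul_right h5 (h4.trans h4'.symm)
  rw [Finset.card_product, Finset.card_product] at hcard
  have hcard' : (𝒲.card : ℝ) ≤ (A.card : ℝ) * ((A.card : ℝ) * (B.card : ℝ)) := by
    exact_mod_cast hcard
  -- the exponents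
  have hNe : ∀ s : ℝ, (N : ℝ) ^ s = (X : ℝ) ^ ((C : ℝ) * s) := by
    intro s
    rw [hN]
    push_cast
    rw [← Real.rpow_natCast, ← Real.rpow_mul hX0'.le]
  have hRe : (R : ℝ) ^ η ≤ (X : ℝ) ^ ((k : ℝ) * η) := by
    have h1 : (R : ℝ) ≤ (X : ℝ) ^ (k : ℝ) := by
      rw [Real.rpow_natCast]
      exact_mod_cast hRX
    rw [Real.rpow_mul hX0'.le]
    exact Real.rpow_le_rpow (Nat.cast_nonneg _) h1 hη0.le
  have hA' : (A.card : ℝ) ≤ C0 * (X : ℝ) ^ (((C : ℝ) + k) * η) := by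
    calc (A.card : ℝ) ≤ C0 * (N : ℝ) ^ η * (R : ℝ) ^ η := hAc
      _ ≤ C0 * (X : ℝ) ^ ((C : ℝ) * η) * (X : ℝ) ^ ((k : ℝ) * η) := by
          rw [hNe]
          exact mul_le_mul_of_nonneg_left hRe (by positivity)
      _ = C0 * (X : ℝ) ^ (((C : ℝ) + k) * η) := by
          rw [mul_assoc, ← Real.rpow_add hX0', add_mul]
  have hB' : (B.card : ℝ) ≤ C1 * (X : ℝ) ^ ((C : ℝ) * (1 / (m : ℝ) + 2 * η)) := by
    rw [← hNe]
    exact hBc
  have hexp : ((C : ℝ) + k) * η + (((C : ℝ) + k) * η + (C : ℝ) * (1 / (m : ℝ) + 2 * η)) ≤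
      3 * δ / 4 := by
    have h1 : (2 * ((C : ℝ) + k) + 2 * C) * η ≤ δ / 4 := by
      rw [hη, mul_div_assoc', div_le_div_iff₀ (by positivity) (by norm_num)]
      have h0 : (0 : ℝ) ≤ δ := hδ.le
      nlinarith
    have h2 : (C : ℝ) * (1 / (m : ℝ)) ≤ δ / 4 := by
      have h3 : 4 * (C : ℝ) / δ ≤ m := by
        refine hm2.trans ?_
        exact_mod_cast (by omega : m2 ≤ m)
      rw [div_le_iff₀ hδ] at h3
      rw [mul_one_div, div_le_div_iff₀ hm0' (by norm_num)]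
      linarith
    nlinarith
  have hconst : C0 * C0 * C1 ≤ (X : ℝ) ^ (δ / 4) := by
    have h1 : (C0 * C0 * C1) ^ (4 / δ) ≤ X := by
      refine hX2.trans ?_
      exact_mod_cast (by omega : X2 ≤ X)
    have h0 : 0 < C0 * C0 * C1 := by positivity
    calc C0 * C0 * C1 = ((C0 * C0 * C1) ^ (4 / δ)) ^ (δ / 4) := by
          rw [← Real.rpow_mul h0.le]
          have : 4 / δ * (δ / 4) = 1 := by field_simp
          rw [this, Real.rpow_one]
      _ ≤ (X : ℝ) ^ (δ / 4) := Real.rpow_le_rpow (by positivity) h1 (by positivity)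
  calc (𝒲.card : ℝ) ≤ (A.card : ℝ) * ((A.card : ℝ) * (B.card : ℝ)) := hcard'
    _ ≤ (C0 * (X : ℝ) ^ (((C : ℝ) + k) * η)) * ((C0 * (X : ℝ) ^ (((C : ℝ) + k) * η)) *
        (C1 * (X : ℝ) ^ ((C : ℝ) * (1 / (m : ℝ) + 2 * η)))) := by
        gcongr
    _ = (C0 * C0 * C1) * (X : ℝ) ^ (((C : ℝ) + k) * η + (((C : ℝ) + k) * η +
        (C : ℝ) * (1 / (m : ℝ) + 2 * η))) := by
        rw [Real.rpow_add hX0', Real.rpow_add hX0']
        ring
    _ ≤ (X : ℝ) ^ (δ / 4) * (X : ℝ) ^ (3 * δ / 4) := by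
        apply mul_le_mul hconst _ (by positivity) (by positivity)
        exact Real.rpow_le_rpow_of_exponent_le hX1' hexp
    _ = (X : ℝ) ^ δ := by
        rw [← Real.rpow_add hX0']
        congr 1
        ring

end Pool.Agent.Helper85.VA
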