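import Pool.Agent.Helper85.VA.MainCount
import Pool.Agent.Helper85.VA.FewForms
import Pool.Agent.Helper85.VA.Camp

/-!
VA-C4. The theorem. (helper85)
-/

open MvPolynomial

namespace Pool.Agent.Helper85.VA

/-- `x` is a primitive vector with nonzero coordinates that represents a point of the projective variety `f = 0` which is not in a
positive dimensional coset of a subtorus (of the torus of all points with nonzero coordinates) contained in the variety. -/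
structure OffZ {N r : ℕ} (f : Fin r → MvPolynomial (Fin (N + 1)) ℤ) (x : Fin (N + 1) → ℤ) :
    Prop where
  ne : ∀ i, x i ≠ 0
  prim : Prim x
  zero : ∀ s, eval x (f s) = 0
  off : ∀ lam : Fin (N + 1) → ℕ, (∃ i j, lam i ≠ lam j) →
    ∃ s, aeval (fun i => Polynomial.C (x i) * Polynomial.X ^ lam i) (f s) ≠ (0 : Polynomial ℤ)

theorem final (N D k : ℕ) (ε : ℝ) (hε : 0 < ε) :
    ∃ m1 : ℕ, ∀ m : ℕ, m1 ≤ m → ∀ (r : ℕ) (f : Fin r → MvPolynomial (Fin (N + 1)) ℤ),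
      (∀ s, ∃ d ≤ D, (f s).IsHomogeneous d) → ∀ S : Finset ℕ, ∃ C : ℝ,
        ∀ B R : ℕ, 1 ≤ B → 1 ≤ R → ∀ μ : Fin (N + 1) → ℕ∞, (∀ i, (m : ℕ∞) ≤ μ i) →
          ∀ P : Finset (Fin (N + 1) → ℤ),
            ((∀ x ∈ P, OffZ f x ∧ ∀ i, |x i| ≤ (B : ℤ) ∧ CampanaAt S (μ i) (x i) ∧
                FewExp S k R (x i)) →
              (P.card : ℝ) ≤ C * (R : ℝ) ^ (N + 1) * (B : ℝ) ^ (ε / m)) ∧
            ((∀ x ∈ P, OffZ f x ∧ ∀ i, |x i| ≤ (B : ℤ) ∧ DarmonAt S (μ i) (x i)) →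
              (P.card : ℝ) ≤ C * (B : ℝ) ^ (ε / m)) := by
  obtain ⟨m1, h1⟩ := main_count N D (Fintype.card (Exps N D)) k ε hε
  obtain ⟨m2, h2⟩ := main_count N D (Fintype.card (Exps N D)) 1 ε hε
  refine ⟨m1 + m2 + 1, fun m hm r f hf S => ?_⟩
  obtain ⟨g, hg⟩ := few_forms N D f hf
  obtain ⟨C1, hC1, h1⟩ := h1 m (by omega) g S
  obtain ⟨C2, hC2, h2⟩ := h2 m (by omega) g S
  refine ⟨C1 + C2, fun B R hB hR μ hμ P => ⟨fun hP => ?_, fun hP => ?_⟩⟩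
  · have h3 := h1 B R hB hR P fun x hx => by
      obtain ⟨ho, hx⟩ := hP x hx
      obtain ⟨h4, h5⟩ := hg x ho.ne ho.zero ho.off
      exact ⟨fun i => ⟨ho.ne i, (hx i).1⟩, h4, ho.prim, h5, fun i =>
        powLike_of_few S m k R (x i) (ho.ne i) (μ i) (hμ i) (hx i).2.1 (hx i).2.2⟩
    refine h3.trans ?_
    have h4 : (0 : ℝ) ≤ (R : ℝ) ^ (N + 1) * (B : ℝ) ^ (ε / m) := by positivity
    nlinarith [mul_nonneg hC2 h4]
  · have h3 := h2 B 1 hB le_rfl P fun x hx => by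
      obtain ⟨ho, hx⟩ := hP x hx
      obtain ⟨h4, h5⟩ := hg x ho.ne ho.zero ho.off
      exact ⟨fun i => ⟨ho.ne i, (hx i).1⟩, h4, ho.prim, h5, fun i =>
        powLike_of_darmon S m (by omega) (x i) (ho.ne i) (μ i) (hμ i) (hx i).2⟩
    refine h3.trans ?_
    rw [Nat.cast_one, one_pow, mul_one]
    have h4 : (0 : ℝ) ≤ (B : ℝ) ^ (ε / m) := by positivity
    nlinarith [mul_nonneg hC1 h4]

end Pool.Agent.Helper85.VA
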