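import Pool.Agent.Helper85.VA.MainCount
import Pool.Agent.Helper85.VA.FewForms
import Pool.Agent.Helper85.VA.Adm

/-!
VA-C4. The theorem. (helper85)
-/

open MvPolynomial

namespace Pool.Agent.Helper85.VA

theorem final2 (N D k : ℕ) (ε : ℝ) (hε : 0 < ε) :
    ∃ m1 : ℕ, ∀ m : ℕ, m1 ≤ m → ∀ (r : ℕ) (f : Fin r → MvPolynomial (Fin (N + 1)) ℤ),
      (∀ s, ∃ d ≤ D, (f s).IsHomogeneous d) → ∀ S : Finset ℕ, ∃ C : ℝ,
        ∀ B R : ℕ, 1 ≤ B → 1 ≤ R → ∀ P : Finset (Fin (N + 1) → ℤ),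
          (∀ x ∈ P, (∀ i, x i ≠ 0 ∧ |x i| ≤ (B : ℤ)) ∧ Prim x ∧ (∀ s, eval x (f s) = 0) ∧
            (∀ lam : Fin (N + 1) → ℕ, (∃ i j, lam i ≠ lam j) → ∃ s,
              aeval (fun i => Polynomial.C (x i) * Polynomial.X ^ lam i) (f s) ≠
                (0 : Polynomial ℤ)) ∧ ∀ i, Adm S m k R (x i)) →
          (P.card : ℝ) ≤ C * (R : ℝ) ^ (N + 1) * (B : ℝ) ^ (ε / m) := by
  obtain ⟨m1, h1⟩ := main_count N D (Fintype.card (Exps N D)) k ε hε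
  refine ⟨m1, fun m hm r f hf S => ?_⟩
  obtain ⟨g, hg⟩ := few_forms N D f hf
  obtain ⟨C1, hC1, h1⟩ := h1 m hm g S
  refine ⟨C1, fun B R hB hR P hP => ?_⟩
  refine h1 B R hB hR P fun x hx => ?_
  obtain ⟨h2, h3, h4, h5, h6⟩ := hP x hx
  obtain ⟨h7, h8⟩ := hg x (fun i => (h2 i).1) h4 h5
  exact ⟨h2, h7, h3, h8, fun i => powLike_of_adm S m k R (x i) (h2 i).1 (h6 i)⟩

end Pool.Agent.Helper85.VA
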