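import Pool.Agent.Helper91.CPX.Minors

/-!
VA-C0a. The relations between integer valued functions on a finite set have a basis of small height. (helper85)
-/

namespace Pool.Agent.Helper85.VA

open Pool.Agent.Helper91.CPX

theorem small_relations {E α : Type} [Fintype E] [DecidableEq E] [DecidableEq α] (u : E → α → ℤ)
    (T : Finset α) (W : ℤ) (hW : 1 ≤ W) (hu : ∀ b, ∀ z ∈ T, |u b z| ≤ W) :
    ∃ g : E → E → ℤ,
      (∀ t b, |g t b| ≤ ((Fintype.card E).factorial : ℤ) * W ^ (Fintype.card E)) ∧
      (∀ t, ∀ z ∈ T, ∑ b, g t b * u b z = 0) ∧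
      ∀ c : E → ℤ, (∀ z ∈ T, ∑ b, c b * u b z = 0) →
        ∃ q : ℤ, q ≠ 0 ∧ ∃ a : E → ℤ, ∀ b, q * c b = ∑ t, a t * g t b := by
  classical
  let Ind : Finset E → Prop := fun J => ∀ c : E → ℤ, (∀ b, b ∉ J → c b = 0) →
    (∀ z ∈ T, ∑ b, c b * u b z = 0) → c = 0
  have h0 : Ind ∅ := by
    intro c hc _
    funext b
    exact hc b (Finset.notMem_empty b)
  obtain ⟨J, hJ, hmax⟩ := Finset.exists_max_image (Finset.univ.filter Ind) Finset.card
    ⟨∅, Finset.mem_filter.mpr ⟨Finset.mem_univ _, h0⟩⟩
  have hJ' : Ind J := (Finset.mem_filter.mp hJ).2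
  -- the small relations
  have hex : ∀ j, j ∉ J → ∃ g : E → ℤ, (∀ b, b ∉ insert j J → g b = 0) ∧ g j ≠ 0 ∧
      (∀ b, |g b| ≤ ((Fintype.card E).factorial : ℤ) * W ^ (Fintype.card E)) ∧
      ∀ z ∈ T, ∑ b, g b * u b z = 0 := by
    intro j hj
    have hnot : ¬ Ind (insert j J) := by
      intro h
      have h1 := hmax (insert j J) (Finset.mem_filter.mpr ⟨Finset.mem_univ _, h⟩)
      rw [Finset.card_insert_of_notMem hj] at h1
      omega
    simp only [Ind] at hnot
    push Not at hnot
    obtain ⟨c, hc1, hc2, hc3⟩ := hnot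
    set s : ℕ := (insert j J).card with hs
    have hs1 : 1 ≤ s := Finset.card_pos.mpr ⟨j, Finset.mem_insert_self j J⟩
    have hsn : s ≤ Fintype.card E := Finset.card_le_univ _
    let ε : {b // b ∈ insert j J} ≃ Fin s := (insert j J).equivFin
    have hsum : ∀ (d : E → ℤ), (∀ b, b ∉ insert j J → d b = 0) → ∀ z,
        ∑ b, d b * u b z = ∑ a : Fin s, d (ε.symm a) * u (ε.symm a) z := by
      intro d hd z
      rw [← Equiv.sum_comp ε]
      simp only [Equiv.symm_apply_apply]
      rw [Finset.sum_coe_sort (insert j J) (fun b => d b * u b z)]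
      symm
      refine Finset.sum_subset (Finset.subset_univ _) fun b _ hb => ?_
      rw [hd b hb, zero_mul]
    obtain ⟨c', hc'0, hc'1, hc'2⟩ := minors hs1 (fun a => u (ε.symm a)) T W hW
      (fun a z hz => hu _ z hz) (by
        intro z hz
        rw [← Matrix.exists_vecMul_eq_zero_iff]
        refine ⟨fun a => c (ε.symm a), ?_, ?_⟩
        · intro h
          apply hc3
          funext b
          by_cases hb : b ∈ insert j J
          · have h1 := congrFun h (ε ⟨b, hb⟩)
            simp only [Equiv.symm_apply_apply, Pi.zero_apply] at h1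
            exact h1
          · exact hc1 b hb
        · funext k
          have h1 := hc2 (z k) (hz k)
          rw [hsum c hc1] at h1
          exact h1)
    refine ⟨fun b => if h : b ∈ insert j J then c' (ε ⟨b, h⟩) else 0, ?_, ?_, ?_, ?_⟩
    · intro b hb
      exact dif_neg hb
    · intro h
      apply hc'0
      have hg : (fun b => if h : b ∈ insert j J then c' (ε ⟨b, h⟩) else 0) = (0 : E → ℤ) := by
        refine hJ' _ ?_ ?_
        · intro b hb
          by_cases hbj : b = j
          · rw [hbj]
            exact h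
          · exact dif_neg (by rw [Finset.mem_insert, not_or]; exact ⟨hbj, hb⟩)
        · intro z hz
          rw [hsum _ (fun b hb => dif_neg hb)]
          refine Eq.trans ?_ (hc'2 z hz)
          refine Finset.sum_congr rfl fun a _ => ?_
          rw [dif_pos (ε.symm a).2]
          simp
      funext a
      have h1 := congrFun hg (ε.symm a)
      simp only [Pi.zero_apply] at h1
      rw [dif_pos (ε.symm a).2] at h1
      simpa using h1
    · intro b
      by_cases hb : b ∈ insert j J
      · simp only [dif_pos hb]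
        refine (hc'1 _).trans ?_
        have h1 : (s.factorial : ℤ) ≤ ((Fintype.card E).factorial : ℤ) := by
          exact_mod_cast Nat.factorial_le hsn
        have h2 : W ^ s ≤ W ^ (Fintype.card E) := pow_le_pow_right₀ hW hsn
        exact mul_le_mul h1 h2 (by positivity) (by positivity)
      · simp only [dif_neg hb, abs_zero]
        positivity
    · intro z hz
      rw [hsum _ (fun b hb => dif_neg hb)]
      refine Eq.trans ?_ (hc'2 z hz)
      refine Finset.sum_congr rfl fun a _ => ?_
      rw [dif_pos (ε.symm a).2]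
      simp
  have hex' : ∀ j, ∃ g : E → ℤ, (j ∉ J → (∀ b, b ∉ insert j J → g b = 0) ∧ g j ≠ 0) ∧
      (j ∈ J → g = 0) ∧
      (∀ b, |g b| ≤ ((Fintype.card E).factorial : ℤ) * W ^ (Fintype.card E)) ∧
      ∀ z ∈ T, ∑ b, g b * u b z = 0 := by
    intro j
    by_cases hj : j ∈ J
    · refine ⟨0, fun h => absurd hj h, fun _ => rfl, fun b => ?_, fun z _ => by simp⟩
      rw [Pi.zero_apply, abs_zero]
      positivity
    · obtain ⟨g, h1, h2, h3, h4⟩ := hex j hj
      exact ⟨g, fun _ => ⟨h1, h2⟩, fun h => absurd h hj, h3, h4⟩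
  choose g hg1 hg2 hg3 hg4 using hex'
  refine ⟨g, hg3, hg4, fun c hc => ?_⟩
  set q : ℤ := ∏ j ∈ Jᶜ, g j j with hq
  have hq0 : q ≠ 0 := Finset.prod_ne_zero_iff.mpr fun j hj =>
    (hg1 j (Finset.mem_compl.mp hj)).2
  let a : E → ℤ := fun t => if t ∈ J then 0 else (∏ j ∈ Jᶜ.erase t, g j j) * c t
  refine ⟨q, hq0, a, fun b => ?_⟩
  have hd : (fun b => q * c b - ∑ t, a t * g t b) = (0 : E → ℤ) := by
    refine hJ' _ ?_ ?_
    · intro b hb
      have h1 : ∑ t, a t * g t b = a b * g b b := by
        refine Finset.sum_eq_single b (fun t _ htb => ?_) (fun h => absurd (Finset.mem_univ b) h)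
        by_cases ht : t ∈ J
        · simp only [a, if_pos ht, zero_mul]
        · rw [(hg1 t ht).1 b (by
            rw [Finset.mem_insert, not_or]
            exact ⟨fun h => htb h.symm, hb⟩), mul_zero]
      rw [h1]
      simp only [a, if_neg hb]
      rw [hq, ← Finset.mul_prod_erase (Jᶜ) (fun j => g j j) (Finset.mem_compl.mpr hb)]
      ring
    · intro z hz
      have h1 : ∀ b, (q * c b - ∑ t, a t * g t b) * u b z =
          q * (c b * u b z) - ∑ t, a t * (g t b * u b z) := by
        intro b
        rw [sub_mul, Finset.sum_mul]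
        congr 1
        · ring
        · exact Finset.sum_congr rfl fun t _ => by ring
      simp only [h1]
      rw [Finset.sum_sub_distrib, ← Finset.mul_sum, hc z hz, mul_zero, Finset.sum_comm]
      simp only [← Finset.mul_sum]
      rw [Finset.sum_eq_zero fun t _ => by rw [hg4 t z hz, mul_zero], sub_zero]
  have h1 := congrFun hd b
  simp only [Pi.zero_apply] at h1
  linarith

end Pool.Agent.Helper85.VA
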