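import Pool.Agent.Helper85.VA.NSF
import Pool.Agent.Helper85.VA.SmallRel

/-!
VA-C0U. Replacing forms by forms with small coefficients, for points of bounded height. (helper85)
-/

open MvPolynomial

namespace Pool.Agent.Helper85.VA

theorem forms_uniform (N D : ℕ) : ∃ H : ℕ, ∀ (r : ℕ) (g : Fin r → Exps N D → ℤ) (B : ℕ), 2 ≤ B →
    ∀ P : Finset (Fin (N + 1) → ℤ), (∀ x ∈ P, (∀ i, |x i| ≤ (B : ℤ)) ∧ (∀ t, fval (g t) x = 0) ∧
      NonDeg g x) →
    ∃ g' : Fin (Fintype.card (Exps N D)) → Exps N D → ℤ, (∀ t b, |g' t b| ≤ (B : ℤ) ^ H) ∧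
      ∀ x ∈ P, (∀ t, fval (g' t) x = 0) ∧ NonDeg g' x := by
  classical
  set n : ℕ := Fintype.card (Exps N D) with hn
  refine ⟨n * n + D * n, fun r g B hB P hP => ?_⟩
  have hB1 : (1 : ℤ) ≤ (B : ℤ) := by exact_mod_cast (by omega : 1 ≤ B)
  obtain ⟨h, hh1, hh2, hh3⟩ := small_relations (E := Exps N D) (fun b x => mval b x) P
    ((B : ℤ) ^ D) (one_le_pow₀ hB1) (fun b x hx => abs_mval_le b x _ (hP x hx).1)
  let ε : Exps N D ≃ Fin n := Fintype.equivFin (Exps N D)
  refine ⟨fun t => h (ε.symm t), fun t b => ?_, fun x hx => ⟨fun t => ?_, ?_⟩⟩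
  · refine (hh1 _ _).trans ?_
    rw [← pow_mul, pow_add]
    refine mul_le_mul_of_nonneg_right ?_ (by positivity)
    have h1 : n.factorial ≤ B ^ (n * n) := by
      calc n.factorial ≤ n ^ n := Nat.factorial_le_pow n
        _ ≤ (B ^ n) ^ n := by
            refine Nat.pow_le_pow_left ?_ n
            exact (Nat.lt_two_pow_self).le.trans (Nat.pow_le_pow_left hB n)
        _ = B ^ (n * n) := by rw [pow_mul]
    exact_mod_cast h1
  · exact hh2 _ x hx
  · intro lam hlam
    obtain ⟨h1, h2, h3⟩ := hP x hx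
    obtain ⟨s, m, hsm⟩ := h3 lam hlam
    by_contra hcon
    push Not at hcon
    apply hsm
    obtain ⟨q, hq0, a, ha⟩ := hh3 (g s) (fun y hy => (hP y hy).2.1 s)
    have h4 : q * ∑ b with wt lam b = m, g s b * mval b x = 0 := by
      rw [Finset.mul_sum]
      have h5 : ∀ b, q * (g s b * mval b x) = ∑ t, a t * (h t b * mval b x) := by
        intro b
        rw [← mul_assoc, ha b, Finset.sum_mul]
        exact Finset.sum_congr rfl fun t _ => by ring
      rw [Finset.sum_congr rfl fun b _ => h5 b, Finset.sum_comm]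
      refine Finset.sum_eq_zero fun t _ => ?_
      rw [← Finset.mul_sum]
      have h6 := hcon (ε t) m
      simp only [Equiv.symm_apply_apply] at h6
      rw [h6, mul_zero]
    exact (mul_eq_zero.mp h4).resolve_left hq0

end Pool.Agent.Helper85.VA
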