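import Pool.Agent.Helper85.VA.MainCountU
import Pool.Agent.Helper85.VA.FewForms
import Pool.Agent.Helper85.VA.FormsU
import Pool.Agent.Helper85.VA.Adm

/-!
VA-C4U. The theorem, uniform in the variety and in the set of primes. (helper85)
-/

open MvPolynomial

namespace Pool.Agent.Helper85.VA

theorem finalU (N D k : ℕ) (ε : ℝ) (hε : 0 < ε) :
    ∃ m1 : ℕ, ∀ m : ℕ, m1 ≤ m → ∀ s0 : ℕ, ∃ C : ℝ, ∀ (r : ℕ)
      (f : Fin r → MvPolynomial (Fin (N + 1)) ℤ), (∀ s, ∃ d ≤ D, (f s).IsHomogeneous d) →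
      ∀ S : Finset ℕ, S.card ≤ s0 → ∀ B R : ℕ, 1 ≤ B → 1 ≤ R →
        ∀ P : Finset (Fin (N + 1) → ℤ),
          (∀ x ∈ P, (∀ i, x i ≠ 0 ∧ |x i| ≤ (B : ℤ)) ∧ Prim x ∧ (∀ s, eval x (f s) = 0) ∧
            (∀ lam : Fin (N + 1) → ℕ, (∃ i j, lam i ≠ lam j) → ∃ s,
              aeval (fun i => Polynomial.C (x i) * Polynomial.X ^ lam i) (f s) ≠
                (0 : Polynomial ℤ)) ∧ ∀ i, Adm S m k R (x i)) →
          (P.card : ℝ) ≤ C * (R : ℝ) ^ (N + 1) * (B : ℝ) ^ (ε / m) := by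
  classical
  obtain ⟨H, hH⟩ := forms_uniform N D
  obtain ⟨m1, h1⟩ := main_countU N D (Fintype.card (Exps N D)) k H ε hε
  refine ⟨m1, fun m hm s0 => ?_⟩
  obtain ⟨C1, hC1, h1⟩ := h1 m hm s0
  refine ⟨C1 + 3 ^ (N + 1), fun r f hf S hS B R hB hR P hP => ?_⟩
  have hR1 : (1 : ℝ) ≤ (R : ℝ) ^ (N + 1) := one_le_pow₀ (by exact_mod_cast hR)
  have hB1 : (1 : ℝ) ≤ (B : ℝ) ^ (ε / m) :=
    Real.one_le_rpow (by exact_mod_cast hB) (by positivity)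
  have hRB : (1 : ℝ) ≤ (R : ℝ) ^ (N + 1) * (B : ℝ) ^ (ε / m) := by nlinarith
  rcases Nat.lt_or_ge B 2 with hB2 | hB2
  · -- B = 1
    have hB' : B = 1 := by omega
    have hsub : P ⊆ Fintype.piFinset fun _ : Fin (N + 1) => Finset.Icc (-1 : ℤ) 1 := by
      intro x hx
      rw [Fintype.mem_piFinset]
      intro i
      have h2 := ((hP x hx).1 i).2
      rw [hB'] at h2
      exact Finset.mem_Icc.mpr (abs_le.mp (by exact_mod_cast h2))
    have h2 : (P.card : ℝ) ≤ 3 ^ (N + 1) := by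
      have h3 := Finset.card_le_card hsub
      rw [Fintype.card_piFinset] at h3
      simp only [Int.card_Icc, Finset.prod_const, Finset.card_univ, Fintype.card_fin] at h3
      exact_mod_cast h3
    have h4 : (0 : ℝ) ≤ (R : ℝ) ^ (N + 1) * (B : ℝ) ^ (ε / m) := by positivity
    calc (P.card : ℝ) ≤ 3 ^ (N + 1) * 1 := by linarith
      _ ≤ (C1 + 3 ^ (N + 1)) * ((R : ℝ) ^ (N + 1) * (B : ℝ) ^ (ε / m)) :=
          mul_le_mul (by linarith) hRB zero_le_one (by positivity)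
      _ = _ := by ring
  · obtain ⟨g, hg⟩ := few_forms N D f hf
    obtain ⟨g', hg1, hg2⟩ := hH _ g B hB2 P (fun x hx => by
      obtain ⟨h2, h3, h4, h5, h6⟩ := hP x hx
      obtain ⟨h7, h8⟩ := hg x (fun i => (h2 i).1) h4 h5
      exact ⟨fun i => (h2 i).2, h7, h8⟩)
    have h2 := h1 S hS B R hB hR g' hg1 P (fun x hx => by
      obtain ⟨h2, h3, h4, h5, h6⟩ := hP x hx
      obtain ⟨h7, h8⟩ := hg2 x hx
      exact ⟨h2, h7, h3, h8, fun i => powLike_of_adm S m k R (x i) (h2 i).1 (h6 i)⟩)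
    refine h2.trans ?_
    have h3 : (0 : ℝ) ≤ (R : ℝ) ^ (N + 1) * (B : ℝ) ^ (ε / m) := by positivity
    have h4 : (0 : ℝ) ≤ 3 ^ (N + 1) * ((R : ℝ) ^ (N + 1) * (B : ℝ) ^ (ε / m)) := by positivity
    calc C1 * (R : ℝ) ^ (N + 1) * (B : ℝ) ^ (ε / m)
        = C1 * ((R : ℝ) ^ (N + 1) * (B : ℝ) ^ (ε / m)) := by ring
      _ ≤ C1 * ((R : ℝ) ^ (N + 1) * (B : ℝ) ^ (ε / m)) +
          3 ^ (N + 1) * ((R : ℝ) ^ (N + 1) * (B : ℝ) ^ (ε / m)) := by linarith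
      _ = _ := by ring

end Pool.Agent.Helper85.VA
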