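import Pool.Agent.Helper85.VA.Defs
import Pool.Agent.Helper91.CPX.Arrow
import Pool.Agent.Helper91.CPX.CoeffDeriv

/-!
VA-B4b. The Jacobian determinant of `(∑ t_b W_b z^(E_b), ρ_v(t, z_v))`.

Proof. As `Pool.Agent.Helper91.CPX.jac_formula` (JacFormula.lean; copy its proof). With `Q = graphPt G z`, the matrix of `jac` is an arrow
matrix: row `some v`: `D v = eval z (subst G v (ρ v)')` on the diagonal, `u v = eval z (subst G v (coeffDeriv j0 (ρ v)))` in
column `none` (`conv_pderiv_inr`, `conv_pderiv_inl`, `conv_eval`); row `none`: `w v = ∂P/∂z_v (z)`, `P = relPoly t E W`, in column `some v`, and `0`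
in column `none` (the polynomial `rename Sum.inr P` does not contain the variables `inl j`); `pderiv (inr v) (rename inr P) =
rename inr (pderiv v P)` (`MvPolynomial.pderiv_rename` for injective maps, else induction) and `eval Q (rename inr p) = eval z p`.
`det_arrow`: `jac = - ∑ v, u v * w v * ∏_{v' ≠ v} D v'`. So
`(∏ z) * jac = - ∑ v, u v * (z v * w v) * ∏_{v' ≠ v} (D v' * z v')`, and
`z v * w v = ∑_b t_b (z v * ∂_v W_b (z) + W_b(z) * E_b(v)) ∏ z^(E_b)`, (`z v * ∂_v (z^E) = E(v) z^E`: see `mul_pderiv_prod` there, private, copy it).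
Comparing with `nabla` (over `ℤ`, `e v = (E b v : ℤ)`, and `gE` with `x = univ`):
`eval z (nabla ..) = - ((∏ z) ∑_v u_v ∂_v W_b ∏_{v' ≠ v} D_v' + W_b ∑_v E_b(v) u_v ∏_{v' ≠ v} (D_v' z_v'))`, and
`(∏ z) ∏_{v' ≠ v} D_v' = z_v ∏_{v' ≠ v} (D_v' z_v')`.
-/

open MvPolynomial

namespace Pool.Agent.Helper85.VA

open Pool.Agent.Helper91.CPX

private lemma pderiv_prod_zero {τ κ : Type} [DecidableEq κ] (k : τ) (s : Finset κ)
    (q : κ → MvPolynomial τ ℤ) (h : ∀ i ∈ s, pderiv k (q i) = 0) :
    pderiv k (∏ i ∈ s, q i) = 0 := by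
  induction s using Finset.induction_on with
  | empty => simp
  | insert a s ha ih =>
    rw [Finset.prod_insert ha, Derivation.leibniz,
      ih fun i hi => h i (Finset.mem_insert_of_mem hi), h a (Finset.mem_insert_self a s)]
    simp

private lemma pderiv_pow_zero {τ : Type} (k v : τ) (hv : v ≠ k) (m : ℕ) :
    pderiv k ((X v : MvPolynomial τ ℤ) ^ m) = 0 := by
  rw [Derivation.leibniz_pow, pderiv_X_of_ne hv]
  simp

private lemma mul_pderiv_pow {τ : Type} (v : τ) (m : ℕ) (Q : τ → ℤ) :
    Q v * eval Q (pderiv v ((X v : MvPolynomial τ ℤ) ^ m)) = m * Q v ^ m := by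
  rw [Derivation.leibniz_pow, pderiv_X_self]
  rcases m with _ | m
  · simp
  · simp only [Nat.add_sub_cancel, smul_eq_mul, mul_one, nsmul_eq_mul, map_mul, map_natCast,
      map_pow, eval_X]
    rw [pow_succ]
    ring

private lemma mul_pderiv_prod {κ : Type} [Fintype κ] [DecidableEq κ]
    (e : κ → ℕ) (i : κ) (Q : κ → ℤ) :
    Q i * eval Q (pderiv i (∏ i', (X i' : MvPolynomial κ ℤ) ^ e i')) =
      e i * ∏ i', Q i' ^ e i' := by
  rw [← Finset.mul_prod_erase Finset.univ _ (Finset.mem_univ i), Derivation.leibniz,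
    pderiv_prod_zero i (Finset.univ.erase i) (fun i' => (X i' : MvPolynomial κ ℤ) ^ e i')
      (fun i' hi' => pderiv_pow_zero _ _ (fun h => (Finset.mem_erase.1 hi').1 h) _),
    smul_zero, zero_add, smul_eq_mul, map_mul, map_prod]
  rw [← Finset.mul_prod_erase Finset.univ (fun i' => Q i' ^ e i') (Finset.mem_univ i)]
  have h := mul_pderiv_pow i (e i) Q
  simp only [map_pow, eval_X]
  calc Q i * ((∏ x ∈ Finset.univ.erase i, Q x ^ e x) *
        eval Q (pderiv i ((X i : MvPolynomial κ ℤ) ^ e i)))
      = (Q i * eval Q (pderiv i ((X i : MvPolynomial κ ℤ) ^ e i))) *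
        ∏ x ∈ Finset.univ.erase i, Q x ^ e x := by ring
    _ = _ := by rw [h]; ring

private lemma pderiv_inl_rename {ι : Type} {d : ℕ} (j : Fin d) (p : MvPolynomial ι ℤ) :
    pderiv (Sum.inl j : Fin d ⊕ ι) (rename Sum.inr p : MvPolynomial (Fin d ⊕ ι) ℤ) = 0 := by
  induction p using MvPolynomial.induction_on with
  | C a => rw [rename_C, pderiv_C]
  | add p q hp hq => rw [map_add, map_add, hp, hq, add_zero]
  | mul_X p i hp =>
    rw [map_mul, rename_X, Derivation.leibniz, hp, pderiv_X_of_ne (by simp)]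
    simp

theorem jac_formula' {ι β : Type} [Fintype ι] [DecidableEq ι] [Fintype β] {d : ℕ} (t : β → ℤ)
    (E : β → ι → ℕ) (W : β → MvPolynomial ι ℤ) (G : Fin d → MvPolynomial ι ℤ)
    (ρ : ι → Polynomial (MvPolynomial (Fin d) ℤ)) (j0 : Fin d) (z : ι → ℤ) :
    (∏ i, z i) * jac (fun a : Option ι =>
        a.elim (rename Sum.inr (relPoly t E W)) (fun i => conv i (ρ i))) j0 (graphPt G z) =
      ∑ b, eval z (nabla G ρ j0 (fun v => (E b v : ℤ)) (W b)) * (t b * ∏ v, z v ^ E b v) := by
  classical
  set Q := graphPt G z with hQ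
  set D : ι → ℤ := fun i => eval z (subst G i (Polynomial.derivative (ρ i))) with hD
  set u : ι → ℤ := fun i => eval z (subst G i (coeffDeriv j0 (ρ i))) with hu
  set w : ι → ℤ := fun i => eval z (pderiv i (relPoly t E W)) with hw
  have hren : ∀ p : MvPolynomial ι ℤ, eval Q (rename Sum.inr p) = eval z p := by
    intro p
    rw [eval_rename]
    rfl
  have hjac : jac (fun a : Option ι =>
        a.elim (rename Sum.inr (relPoly t E W)) (fun i => conv i (ρ i))) j0 Q =
      -∑ i, u i * w i * ∏ i' ∈ Finset.univ.erase i, D i' := by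
    unfold jac
    apply det_arrow D u w
    · intro i i'
      simp only [Matrix.of_apply, Option.elim_some]
      rw [conv_pderiv_inr]
      by_cases h : i' = i
      · rw [if_pos h, if_pos h, hQ, conv_eval]
      · rw [if_neg h, if_neg h, map_zero]
    · intro i
      simp only [Matrix.of_apply, Option.elim_some, Option.elim_none]
      rw [conv_pderiv_inl, hQ, conv_eval]
    · intro i
      simp only [Matrix.of_apply, Option.elim_some, Option.elim_none]
      rw [pderiv_rename Sum.inr_injective, hren]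
    · simp only [Matrix.of_apply, Option.elim_none]
      rw [pderiv_inl_rename, map_zero]
  have hwz : ∀ i, z i * w i = ∑ b, t b * (∏ v, z v ^ E b v) *
      (z i * eval z (pderiv i (W b)) + eval z (W b) * E b i) := by
    intro i
    simp only [hw]
    unfold relPoly
    rw [map_sum, map_sum, Finset.mul_sum]
    refine Finset.sum_congr rfl fun b _ => ?_
    rw [Derivation.leibniz, pderiv_C_mul, map_add]
    simp only [smul_eq_mul, map_mul, eval_C, map_prod, map_pow, eval_X]
    have h := mul_pderiv_prod (E b) i z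
    linear_combination (t b * eval z (W b)) * h
  have hnab : ∀ b, eval z (nabla G ρ j0 (fun v => (E b v : ℤ)) (W b)) =
      -∑ i, u i * (z i * eval z (pderiv i (W b)) + eval z (W b) * E b i) *
        ∏ i' ∈ Finset.univ.erase i, (D i' * z i') := by
    intro b
    unfold nabla gE
    simp only [map_neg, map_add, map_mul, map_sum, map_prod, eval_X, eval_C]
    rw [Finset.mul_sum, Finset.mul_sum, ← Finset.sum_add_distrib]
    congr 1
    refine Finset.sum_congr rfl fun i _ => ?_
    rw [← Finset.mul_prod_erase Finset.univ z (Finset.mem_univ i)]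
    simp only [hD, hu]
    rw [Finset.prod_mul_distrib]
    ring
  have hterm : ∀ i, (∏ i, z i) * (u i * w i * ∏ i' ∈ Finset.univ.erase i, D i') =
      u i * (z i * w i) * ∏ i' ∈ Finset.univ.erase i, (D i' * z i') := by
    intro i
    rw [← Finset.mul_prod_erase Finset.univ _ (Finset.mem_univ i), Finset.prod_mul_distrib]
    ring
  rw [hjac, mul_neg, Finset.mul_sum, Finset.sum_congr rfl fun i _ => hterm i]
  simp only [hnab, hwz, neg_mul, Finset.sum_neg_distrib]
  congr 1
  simp only [Finset.mul_sum, Finset.sum_mul]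
  rw [Finset.sum_comm]
  refine Finset.sum_congr rfl fun b _ => Finset.sum_congr rfl fun i _ => ?_
  ring

/-- The value of the first equation. -/
theorem eval_relPoly {ι β : Type} [Fintype ι] [DecidableEq ι] [Fintype β] {d : ℕ} (t : β → ℤ)
    (E : β → ι → ℕ) (W : β → MvPolynomial ι ℤ) (G : Fin d → MvPolynomial ι ℤ) (z : ι → ℤ) :
    eval (graphPt G z) (rename Sum.inr (relPoly t E W)) =
      ∑ b, eval z (W b) * (t b * ∏ v, z v ^ E b v) := by
  rw [eval_rename]
  have h : graphPt G z ∘ Sum.inr = z := rfl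
  rw [h]
  unfold relPoly
  rw [map_sum]
  refine Finset.sum_congr rfl fun b _ => ?_
  simp only [map_mul, eval_C, map_prod, map_pow, eval_X]
  ring

end Pool.Agent.Helper85.VA
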