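import Pool.Agent.Helper85.VA.CountU
import Pool.Agent.Helper85.VA.CountAU

/-!
VA-C3U. The main count, uniform in the coefficients and in `S`. (helper5, helper85: the proof of MainCount.lean)
-/

open MvPolynomial

namespace Pool.Agent.Helper85.VA

/-- One coordinate: the decomposition with all data in range. -/
private theorem mcu_decomp (S : Finset ℕ) (m k R B X : ℕ) (hm : 1 ≤ m) (hBX : B ≤ X ^ m) (x : ℤ)
    (hx : x ≠ 0) (hxB : |x| ≤ (B : ℤ)) (hP : PowLike S m k R x) :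
    ∃ (a : ℤ) (e : Fin k → ℕ) (z : Fin k → ℤ), x = a * ∏ j, z j ^ e j ∧
      1 ≤ a.natAbs ∧ a.natAbs ≤ B ∧ ∏ p ∈ a.natAbs.primeFactors \ S, p ≤ R ∧
      (∀ j, m ≤ e j ∧ e j ≤ max m (Nat.log 2 B)) ∧ ∀ j, 1 ≤ z j ∧ z j ≤ (X : ℤ) := by
  obtain ⟨A, z, e, hA, he, hr⟩ := hP
  have hx0 : x.natAbs ≠ 0 := Int.natAbs_ne_zero.2 hx
  have hxB' : x.natAbs ≤ B := by
    rw [Int.abs_eq_natAbs] at hxB
    exact_mod_cast hxB
  have hB0 : B ≠ 0 := by omega
  have hA0 : A ≠ 0 := by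
    rintro rfl
    rw [zero_mul] at hA
    exact hx0 hA
  have hp0 : ∏ j, z j ^ e j ≠ 0 := by
    intro h
    rw [h, mul_zero] at hA
    exact hx0 hA
  have hz0 : ∀ j, z j ≠ 0 := by
    intro j hj
    have h1 := Finset.prod_ne_zero_iff.1 hp0 j (Finset.mem_univ j)
    rw [hj] at h1
    exact h1 (zero_pow (by have := he j; omega))
  have hle : ∀ j, z j ^ e j ≤ B := by
    intro j
    have h1 : z j ^ e j ∣ ∏ j, z j ^ e j := Finset.dvd_prod_of_mem _ (Finset.mem_univ j)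
    have h2 : z j ^ e j ∣ x.natAbs := by
      rw [hA]
      exact h1.trans (Dvd.intro_left _ rfl)
    exact (Nat.le_of_dvd (Nat.pos_of_ne_zero hx0) h2).trans hxB'
  have hAB : A ≤ B := by
    have h2 : A ∣ x.natAbs := by
      rw [hA]
      exact Dvd.intro _ rfl
    exact (Nat.le_of_dvd (Nat.pos_of_ne_zero hx0) h2).trans hxB'
  have hsgn : (x.sign).natAbs = 1 := Int.natAbs_sign_of_ne_zero hx
  have hnat : (x.sign * (A : ℤ)).natAbs = A := by
    rw [Int.natAbs_mul, hsgn, one_mul, Int.natAbs_natCast]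
  refine ⟨x.sign * A, fun j => if z j = 1 then m else e j, fun j => (z j : ℤ), ?_, ?_, ?_, ?_, ?_,
    ?_⟩
  · have h1 : ∀ j, ((z j : ℤ)) ^ (if z j = 1 then m else e j) = ((z j ^ e j : ℕ) : ℤ) := by
      intro j
      split_ifs with h
      · rw [h]
        simp
      · push_cast
        rfl
    rw [Finset.prod_congr rfl fun j _ => h1 j, ← Nat.cast_prod, mul_assoc, ← Nat.cast_mul, ← hA]
    exact (Int.sign_mul_natAbs x).symm
  · rw [hnat]
    omega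
  · rw [hnat]
    exact hAB
  · rw [hnat]
    exact hr
  · intro j
    by_cases h : z j = 1
    · simp [h]
    · simp only [h, if_false]
      refine ⟨he j, ?_⟩
      have h2 : 2 ≤ z j := by
        have := hz0 j
        omega
      have h3 : 2 ^ e j ≤ B := (Nat.pow_le_pow_left h2 _).trans (hle j)
      exact le_max_of_le_right (Nat.le_log_of_pow_le (by norm_num) h3)
  · intro j
    refine ⟨by have := hz0 j; show (1 : ℤ) ≤ (z j : ℤ); omega, ?_⟩
    have h1 : z j ^ m ≤ X ^ m :=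
      ((Nat.pow_le_pow_right (Nat.pos_of_ne_zero (hz0 j)) (he j)).trans (hle j)).trans hBX
    have h2 : z j ≤ X := by
      by_contra hlt
      push Not at hlt
      exact absurd h1 (not_le.2 (Nat.pow_lt_pow_left hlt (by omega)))
    show ((z j : ℕ) : ℤ) ≤ (X : ℤ)
    exact_mod_cast h2

/-- Powers of the logarithm. -/
private theorem mcu_log (n : ℕ) (η : ℝ) (hη : 0 < η) : ∃ C : ℝ, 0 ≤ C ∧ ∀ B : ℕ, 1 ≤ B →
    ((Nat.log 2 B + 1 : ℕ) : ℝ) ^ n ≤ C * (B : ℝ) ^ η := by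
  set θ : ℝ := η / (n + 1) with hθ
  have hn : (0 : ℝ) < n + 1 := by positivity
  have hθ0 : 0 < θ := div_pos hη hn
  have hl2 : 0 < Real.log 2 := Real.log_pos (by norm_num)
  set K : ℝ := 1 / (θ * Real.log 2) + 1 with hK
  have hK0 : 0 ≤ K := by positivity
  refine ⟨K ^ n, by positivity, fun B hB => ?_⟩
  have hB1 : (1 : ℝ) ≤ (B : ℝ) := by exact_mod_cast hB
  have hB0 : (0 : ℝ) < (B : ℝ) := by linarith
  have h1 : ((Nat.log 2 B : ℕ) : ℝ) * Real.log 2 ≤ Real.log B := by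
    have h2 : 2 ^ Nat.log 2 B ≤ B := Nat.pow_log_le_self 2 (by omega)
    have h3 : ((2 : ℝ)) ^ Nat.log 2 B ≤ (B : ℝ) := by exact_mod_cast h2
    rw [← Real.log_pow]
    exact Real.log_le_log (by positivity) h3
  have h4 : Real.log B ≤ (B : ℝ) ^ θ / θ := Real.log_le_rpow_div hB0.le hθ0
  have h5 : (1 : ℝ) ≤ (B : ℝ) ^ θ := Real.one_le_rpow hB1 hθ0.le
  have h6 : ((Nat.log 2 B + 1 : ℕ) : ℝ) ≤ K * (B : ℝ) ^ θ := by
    push_cast
    have h7 : ((Nat.log 2 B : ℕ) : ℝ) ≤ 1 / (θ * Real.log 2) * (B : ℝ) ^ θ := by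
      have h8 : ((Nat.log 2 B : ℕ) : ℝ) ≤ ((B : ℝ) ^ θ / θ) / Real.log 2 := by
        rw [le_div_iff₀ hl2]
        exact h1.trans h4
      refine h8.trans (le_of_eq ?_)
      field_simp
    rw [hK, add_mul, one_mul]
    exact add_le_add h7 h5
  calc ((Nat.log 2 B + 1 : ℕ) : ℝ) ^ n ≤ (K * (B : ℝ) ^ θ) ^ n :=
        pow_le_pow_left₀ (by positivity) h6 n
    _ = K ^ n * (B : ℝ) ^ (θ * n) := by
        rw [mul_pow, ← Real.rpow_natCast ((B : ℝ) ^ θ) n, ← Real.rpow_mul hB0.le]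
    _ ≤ K ^ n * (B : ℝ) ^ η := by
        refine mul_le_mul_of_nonneg_left ?_ (by positivity)
        refine Real.rpow_le_rpow_of_exponent_le hB1 ?_
        rw [hθ, div_mul_eq_mul_div, div_le_iff₀ hn]
        nlinarith

/-- The choice of `X`. -/
private theorem mcu_exists_X (m B : ℕ) (hm : 1 ≤ m) (hB : 1 ≤ B) :
    ∃ X : ℕ, 2 ≤ X ∧ B ≤ X ^ m ∧ (X : ℝ) ≤ 3 * (B : ℝ) ^ ((1 : ℝ) / m) := by
  have hB1 : (1 : ℝ) ≤ (B : ℝ) := by exact_mod_cast hB
  have hm0 : (0 : ℝ) < m := by exact_mod_cast hm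
  set t : ℝ := (B : ℝ) ^ ((1 : ℝ) / m) with ht
  have ht1 : 1 ≤ t := Real.one_le_rpow hB1 (by positivity)
  have htm : t ^ m = B := by
    rw [ht, ← Real.rpow_natCast, ← Real.rpow_mul (by positivity), one_div,
      inv_mul_cancel₀ hm0.ne', Real.rpow_one]
  have hc : t ≤ (⌈t⌉₊ : ℝ) := Nat.le_ceil t
  have hc2 : (⌈t⌉₊ : ℝ) < t + 1 := Nat.ceil_lt_add_one (by linarith)
  refine ⟨⌈t⌉₊ + 1, ?_, ?_, ?_⟩
  · have : 1 ≤ ⌈t⌉₊ := by
      have : (1 : ℝ) ≤ (⌈t⌉₊ : ℝ) := ht1.trans hc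
      exact_mod_cast this
    omega
  · have h1 : (B : ℝ) ≤ ((⌈t⌉₊ + 1 : ℕ) : ℝ) ^ m := by
      rw [← htm]
      refine pow_le_pow_left₀ (by linarith) ?_ m
      push_cast
      linarith
    exact_mod_cast h1
  · push_cast
    linarith

theorem main_countU (N D r k H : ℕ) (ε : ℝ) (hε : 0 < ε) :
    ∃ m1 : ℕ, ∀ m : ℕ, m1 ≤ m → ∀ s0 : ℕ, ∃ C : ℝ, 0 ≤ C ∧ ∀ S : Finset ℕ, S.card ≤ s0 →
      ∀ B R : ℕ, 1 ≤ B → 1 ≤ R → ∀ c : Fin r → Exps N D → ℤ, (∀ s b, |c s b| ≤ (B : ℤ) ^ H) →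
        ∀ P : Finset (Fin (N + 1) → ℤ),
        (∀ x ∈ P, (∀ i, x i ≠ 0 ∧ |x i| ≤ (B : ℤ)) ∧ (∀ s, fval (c s) x = 0) ∧ Prim x ∧
          NonDeg c x ∧ ∀ i, PowLike S m k R (x i)) →
        (P.card : ℝ) ≤ C * (R : ℝ) ^ (N + 1) * (B : ℝ) ^ (ε / m) := by
  classical
  obtain ⟨m0, hm0⟩ := VA_countU N D r k H (ε / 2) (by linarith)
  refine ⟨m0 + 1, fun m hm s0 => ?_⟩
  obtain ⟨C1, hC1⟩ := hm0 m (by omega)
  have hmR : (0 : ℝ) < m := by exact_mod_cast (by omega : 0 < m)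
  have hN : (0 : ℝ) < ((N + 1 : ℕ) : ℝ) := by positivity
  obtain ⟨C2, hC2, hcA⟩ := count_AU s0 (ε / (4 * m * ((N + 1 : ℕ) : ℝ))) (by positivity)
  obtain ⟨C3, hC3, hlog⟩ := mcu_log (k * (N + 1)) (ε / (4 * m)) (by positivity)
  set C1' : ℝ := max C1 0 with hC1'
  have hC10 : 0 ≤ C1' := le_max_right _ _
  refine ⟨(2 * C2) ^ (N + 1) * C3 * (C1' * 3 ^ (ε / 2)), by positivity, ?_⟩
  intro S hS B R hB hR c hc P hP
  have hB1 : (1 : ℝ) ≤ (B : ℝ) := by exact_mod_cast hB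
  have hB0 : (0 : ℝ) < (B : ℝ) := by linarith
  obtain ⟨X, hX2, hBX, hX3⟩ := mcu_exists_X m B (by omega) hB
  have hcX : ∀ s b, |c s b| ≤ (X : ℤ) ^ (H * m) := by
    intro s b
    refine (hc s b).trans ?_
    rw [mul_comm H m, pow_mul]
    exact pow_le_pow_left₀ (by positivity) (by exact_mod_cast hBX) H
  -- the data
  set QA : Finset ℕ := (Finset.Icc 1 B).filter fun A => ∏ p ∈ A.primeFactors \ S, p ≤ R with hQA
  have hQAc : (QA.card : ℝ) ≤ C2 * R * (B : ℝ) ^ (ε / (4 * m * ((N + 1 : ℕ) : ℝ))) := by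
    refine hcA S hS B R hB hR QA fun A hA => ?_
    obtain ⟨h1, h2⟩ := Finset.mem_filter.1 hA
    obtain ⟨h3, h4⟩ := Finset.mem_Icc.1 h1
    exact ⟨h3, h4, h2⟩
  set QZ : Finset ℤ := QA.image (fun A : ℕ => (A : ℤ)) ∪ QA.image (fun A : ℕ => -(A : ℤ)) with hQZ
  have hQZm : ∀ a : ℤ, a ∈ QZ ↔ a.natAbs ∈ QA := by
    intro a
    rw [hQZ, Finset.mem_union, Finset.mem_image, Finset.mem_image]
    constructor
    · rintro (⟨A, hA, rfl⟩ | ⟨A, hA, rfl⟩)
      · simpa using hA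
      · simpa using hA
    · intro h
      rcases Int.natAbs_eq a with h1 | h1
      · exact Or.inl ⟨a.natAbs, h, h1.symm⟩
      · exact Or.inr ⟨a.natAbs, h, h1.symm⟩
  have hQZc : (QZ.card : ℝ) ≤ 2 * QA.card := by
    have h1 : QZ.card ≤ QA.card + QA.card :=
      (Finset.card_union_le _ _).trans (add_le_add Finset.card_image_le Finset.card_image_le)
    have h2 : (QZ.card : ℝ) ≤ QA.card + QA.card := by exact_mod_cast h1
    linarith
  set L : ℕ := max m (Nat.log 2 B) with hL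
  set 𝒟 : Finset ((Fin (N + 1) → ℤ) × (Fin (N + 1) → Fin k → ℕ)) :=
    (Fintype.piFinset fun _ : Fin (N + 1) => QZ) ×ˢ
      (Fintype.piFinset fun _ : Fin (N + 1) => Fintype.piFinset fun _ : Fin k => Finset.Icc m L)
    with h𝒟
  have h𝒟c : (𝒟.card : ℝ) ≤ (2 * (C2 * R * (B : ℝ) ^ (ε / (4 * m * ((N + 1 : ℕ) : ℝ))))) ^ (N + 1) *
      (C3 * (B : ℝ) ^ (ε / (4 * m))) := by
    have h1 : 𝒟.card = QZ.card ^ (N + 1) * ((L + 1 - m) ^ k) ^ (N + 1) := by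
      rw [h𝒟, Finset.card_product, Fintype.card_piFinset, Fintype.card_piFinset,
        Fintype.card_piFinset]
      simp
    rw [h1, Nat.cast_mul, Nat.cast_pow, Nat.cast_pow, Nat.cast_pow]
    refine mul_le_mul ?_ ?_ (by positivity) (by positivity)
    · refine pow_le_pow_left₀ (by positivity) ?_ _
      linarith
    · rw [← pow_mul]
      refine le_trans ?_ (hlog B hB)
      refine pow_le_pow_left₀ (by positivity) ?_ _
      have : L + 1 - m ≤ Nat.log 2 B + 1 := by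
        rw [hL]
        rcases le_total m (Nat.log 2 B) with h | h
        · rw [max_eq_right h]
          omega
        · rw [max_eq_left h]
          omega
      exact_mod_cast this
  have hLX : L ≤ m * X := by
    rw [hL]
    refine max_le (Nat.le_mul_of_pos_right m (by omega)) ?_
    have h1 : B ≤ 2 ^ (m * X) := by
      refine hBX.trans ?_
      rw [mul_comm m X, pow_mul]
      exact Nat.pow_le_pow_left (Nat.lt_two_pow_self).le m
    calc Nat.log 2 B ≤ Nat.log 2 (2 ^ (m * X)) := Nat.log_mono_right h1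
      _ = m * X := Nat.log_pow (by norm_num) _
  -- the points with given data
  let T : (Fin (N + 1) → ℤ) × (Fin (N + 1) → Fin k → ℕ) → Finset (Fin (N + 1) × Fin k → ℤ) :=
    fun d => (Fintype.piFinset fun _ : Fin (N + 1) × Fin k => Finset.Icc (1 : ℤ) X).filter
      fun z => xval d.1 d.2 z ∈ P
  have hTc : ∀ d ∈ 𝒟, (((T d).image (xval d.1 d.2)).card : ℝ) ≤ C1' * (X : ℝ) ^ (ε / 2) := by
    intro d hd
    rw [h𝒟, Finset.mem_product] at hd
    obtain ⟨hd1, hd2⟩ := hd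
    rw [Fintype.mem_piFinset] at hd1 hd2
    refine (hC1 X hX2 c hcX d.1 ?_ d.2 ?_ (T d) ?_).trans ?_
    · intro i h
      have h1 := (hQZm _).1 (hd1 i)
      rw [h] at h1
      rw [hQA, Finset.mem_filter, Finset.mem_Icc] at h1
      simp at h1
    · intro i j
      have h1 := hd2 i
      rw [Fintype.mem_piFinset] at h1
      obtain ⟨h2, h3⟩ := Finset.mem_Icc.1 (h1 j)
      exact ⟨h2, h3.trans hLX⟩
    · intro z hz
      obtain ⟨h1, h2⟩ := Finset.mem_filter.1 hz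
      rw [Fintype.mem_piFinset] at h1
      obtain ⟨h3, h4, h5, h6, -⟩ := hP _ h2
      refine ⟨fun v => Finset.mem_Icc.1 (h1 v), fun i => ?_, h4, h5, h6⟩
      refine (h3 i).2.trans ?_
      exact_mod_cast hBX
    · exact mul_le_mul_of_nonneg_right (le_max_left _ _) (by positivity)
  have hcov : P ⊆ 𝒟.biUnion fun d => (T d).image (xval d.1 d.2) := by
    intro x hx
    obtain ⟨h1, -, -, -, h5⟩ := hP x hx
    choose a e z hxe ha1 haB har he hz using fun i =>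
      mcu_decomp S m k R B X (by omega) hBX (x i) (h1 i).1 (h1 i).2 (h5 i)
    have hxv : xval a e (fun v => z v.1 v.2) = x := by
      funext i
      exact (hxe i).symm
    refine Finset.mem_biUnion.2 ⟨(a, e), ?_, Finset.mem_image.2 ⟨fun v => z v.1 v.2, ?_, hxv⟩⟩
    · rw [h𝒟, Finset.mem_product, Fintype.mem_piFinset, Fintype.mem_piFinset]
      refine ⟨fun i => (hQZm _).2 ?_, fun i => Fintype.mem_piFinset.2 fun j => Finset.mem_Icc.2 (he i j)⟩
      rw [hQA, Finset.mem_filter, Finset.mem_Icc]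
      exact ⟨⟨ha1 i, haB i⟩, har i⟩
    · refine Finset.mem_filter.2 ⟨Fintype.mem_piFinset.2 fun v => Finset.mem_Icc.2 (hz v.1 v.2), ?_⟩
      show xval a e (fun v => z v.1 v.2) ∈ P
      rw [hxv]
      exact hx
  have hXr : (X : ℝ) ^ (ε / 2) ≤ 3 ^ (ε / 2) * (B : ℝ) ^ (ε / (2 * m)) := by
    calc (X : ℝ) ^ (ε / 2) ≤ (3 * (B : ℝ) ^ ((1 : ℝ) / m)) ^ (ε / 2) :=
          Real.rpow_le_rpow (by positivity) hX3 (by positivity)
      _ = 3 ^ (ε / 2) * (B : ℝ) ^ (ε / (2 * m)) := by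
          rw [Real.mul_rpow (by norm_num) (by positivity), ← Real.rpow_mul hB0.le]
          congr 2
          field_simp
  have hsum : (P.card : ℝ) ≤ 𝒟.card * (C1' * (X : ℝ) ^ (ε / 2)) := by
    have h1 : P.card ≤ ∑ d ∈ 𝒟, ((T d).image (xval d.1 d.2)).card :=
      (Finset.card_le_card hcov).trans Finset.card_biUnion_le
    calc (P.card : ℝ) ≤ ((∑ d ∈ 𝒟, ((T d).image (xval d.1 d.2)).card : ℕ) : ℝ) := by exact_mod_cast h1
      _ = ∑ d ∈ 𝒟, (((T d).image (xval d.1 d.2)).card : ℝ) := by push_cast; rfl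
      _ ≤ ∑ _d ∈ 𝒟, C1' * (X : ℝ) ^ (ε / 2) := Finset.sum_le_sum hTc
      _ = 𝒟.card * (C1' * (X : ℝ) ^ (ε / 2)) := by rw [Finset.sum_const, nsmul_eq_mul]
  have hexp : ((B : ℝ) ^ (ε / (4 * m * ((N + 1 : ℕ) : ℝ)))) ^ (N + 1) = (B : ℝ) ^ (ε / (4 * m)) := by
    rw [← Real.rpow_natCast, ← Real.rpow_mul hB0.le]
    congr 1
    field_simp
  have hexp2 : (B : ℝ) ^ (ε / (4 * m)) * (B : ℝ) ^ (ε / (4 * m)) * (B : ℝ) ^ (ε / (2 * m)) =
      (B : ℝ) ^ (ε / m) := by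
    rw [← Real.rpow_add hB0, ← Real.rpow_add hB0]
    congr 1
    field_simp
    ring
  calc (P.card : ℝ) ≤ 𝒟.card * (C1' * (X : ℝ) ^ (ε / 2)) := hsum
    _ ≤ ((2 * (C2 * R * (B : ℝ) ^ (ε / (4 * m * ((N + 1 : ℕ) : ℝ))))) ^ (N + 1) *
      (C3 * (B : ℝ) ^ (ε / (4 * m)))) * (C1' * (3 ^ (ε / 2) * (B : ℝ) ^ (ε / (2 * m)))) := by
        refine mul_le_mul h𝒟c (mul_le_mul_of_nonneg_left hXr hC10) (by positivity) (by positivity)
    _ = (2 * C2) ^ (N + 1) * C3 * (C1' * 3 ^ (ε / 2)) * (R : ℝ) ^ (N + 1) *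
        (((B : ℝ) ^ (ε / (4 * m * ((N + 1 : ℕ) : ℝ)))) ^ (N + 1) * (B : ℝ) ^ (ε / (4 * m)) *
          (B : ℝ) ^ (ε / (2 * m))) := by
        ring
    _ = (2 * C2) ^ (N + 1) * C3 * (C1' * 3 ^ (ε / 2)) * (R : ℝ) ^ (N + 1) * (B : ℝ) ^ (ε / m) := by
        rw [hexp, hexp2]

end Pool.Agent.Helper85.VA
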