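import Mathlib

/-!
VA-B9a. Two primitive vectors whose ratios of coordinates agree up to small factors are proportional up to small factors.

Proof. For every `i` let `s_i / t_i` be the fraction `(u_i u0_0) / (u_0 u0_i)` in lowest terms: `u_i u0_0 t_i = u_0 u0_i s_i`, `gcd(s_i, t_i) = 1`
(divide by the gcd). Then `s_i ^ D' * Q_i = t_i ^ D' * P_i` (cancel), and `s_i ^ D'`, `t_i ^ D'` are coprime, so `s_i ^ D' ∣ P_i`, `t_i ^ D' ∣ Q_i`, so
`1 ≤ s_i, t_i ≤ Y`. Put `T = ∏ t_i`, `S_i = s_i * ∏_{l ≠ i} t_l`, so `S_i ≤ Y ^ (N + 1)` and `u_i u0_0 T = u_0 u0_i S_i`. Let `G` be the gcd of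
the numbers `u0_i S_i` (`Finset.univ.gcd`). The gcd of the `u_i` is `1` (no prime divides all), so the gcd of the left sides is `u0_0 T` and that of the right
sides `u_0 G` (`Finset.gcd_mul_left`/`right`): `u_0 G = u0_0 T`. So `u_i u_0 G = u_0 u0_i S_i`, `u_i G = S_i u0_i`. `G` divides `u0_i ∏ S_l` for every `i`, so it
divides `gcd(u0_i) ∏ S_l = ∏ S_l`, so `1 ≤ G ≤ Y ^ ((N + 1) ^ 2)`.
-/

namespace Pool.Agent.Helper85.VA

/-- The gcd of a vector of natural numbers which is not divisible by a prime is `1`. -/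
private theorem gcd_one {N : ℕ} (u : Fin (N + 1) → ℕ)
    (hp : ∀ p : ℕ, p.Prime → ∃ i, ¬ p ∣ u i) : Finset.univ.gcd u = 1 := by
  by_contra hne
  obtain ⟨p, hpp, hpd⟩ := Nat.exists_prime_and_dvd hne
  obtain ⟨i, hi⟩ := hp p hpp
  exact hi (hpd.trans (Finset.gcd_dvd (Finset.mem_univ i)))

/-- The fraction in lowest terms. -/
private theorem lowest (Y D' a b P Q : ℕ) (hD : 0 < D') (ha : 0 < a) (hb : 0 < b)
    (hP : 1 ≤ P ∧ P ≤ Y) (hQ : 1 ≤ Q ∧ Q ≤ Y) (h : a ^ D' * Q = b ^ D' * P) :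
    ∃ s t : ℕ, 1 ≤ s ∧ s ≤ Y ∧ 1 ≤ t ∧ t ≤ Y ∧ a * t = b * s := by
  have hg : 0 < Nat.gcd a b := Nat.gcd_pos_of_pos_left b ha
  obtain ⟨s, hs⟩ : Nat.gcd a b ∣ a := Nat.gcd_dvd_left a b
  obtain ⟨t, ht⟩ : Nat.gcd a b ∣ b := Nat.gcd_dvd_right a b
  have hcop : Nat.Coprime s t := by
    have h1 : Nat.gcd (a / Nat.gcd a b) (b / Nat.gcd a b) = 1 := Nat.coprime_div_gcd_div_gcd hg
    have h2 : a / Nat.gcd a b = s := Nat.div_eq_of_eq_mul_right hg hs
    have h3 : b / Nat.gcd a b = t := Nat.div_eq_of_eq_mul_right hg ht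
    rw [h2, h3] at h1
    exact h1
  set g := Nat.gcd a b with hgdef
  have hs0 : 0 < s := by
    rcases Nat.eq_zero_or_pos s with h0 | h0
    · rw [h0, mul_zero] at hs; omega
    · exact h0
  have ht0 : 0 < t := by
    rcases Nat.eq_zero_or_pos t with h0 | h0
    · rw [h0, mul_zero] at ht; omega
    · exact h0
  have heq : s ^ D' * Q = t ^ D' * P := by
    have h1 : g ^ D' * (s ^ D' * Q) = g ^ D' * (t ^ D' * P) := by
      rw [← mul_assoc, ← mul_pow, ← mul_assoc, ← mul_pow, ← hs, ← ht]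
      exact h
    exact Nat.eq_of_mul_eq_mul_left (pow_pos hg _) h1
  have hc : Nat.Coprime (s ^ D') (t ^ D') := Nat.Coprime.pow _ _ hcop
  have hsP : s ^ D' ∣ P := hc.dvd_of_dvd_mul_left ⟨Q, heq.symm⟩
  have htQ : t ^ D' ∣ Q := hc.symm.dvd_of_dvd_mul_left ⟨P, heq⟩
  refine ⟨s, t, hs0, ?_, ht0, ?_, ?_⟩
  · exact ((Nat.le_self_pow hD.ne' s).trans (Nat.le_of_dvd hP.1 hsP)).trans hP.2
  · exact ((Nat.le_self_pow hD.ne' t).trans (Nat.le_of_dvd hQ.1 htQ)).trans hQ.2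
  · conv_lhs => rw [hs]
    conv_rhs => rw [ht]
    ring

theorem prim_ratio {N : ℕ} (Y D' : ℕ) (hD : 0 < D') (hY : 1 ≤ Y) (u u0 : Fin (N + 1) → ℕ)
    (hu : ∀ i, 0 < u i) (hu0 : ∀ i, 0 < u0 i) (hp : ∀ p : ℕ, p.Prime → ∃ i, ¬ p ∣ u i)
    (hp0 : ∀ p : ℕ, p.Prime → ∃ i, ¬ p ∣ u0 i) (P Q : Fin (N + 1) → ℕ)
    (hP : ∀ i, 1 ≤ P i ∧ P i ≤ Y) (hQ : ∀ i, 1 ≤ Q i ∧ Q i ≤ Y)
    (h : ∀ i, (u i * u0 0) ^ D' * Q i = (u 0 * u0 i) ^ D' * P i) :
    ∃ (g : ℕ) (S : Fin (N + 1) → ℕ), 1 ≤ g ∧ g ≤ Y ^ ((N + 1) ^ 2) ∧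
      ∀ i, 1 ≤ S i ∧ S i ≤ Y ^ ((N + 1) ^ 2) ∧ u i * g = S i * u0 i := by
  have hlow : ∀ i, ∃ s t : ℕ, 1 ≤ s ∧ s ≤ Y ∧ 1 ≤ t ∧ t ≤ Y ∧
      (u i * u0 0) * t = (u 0 * u0 i) * s := fun i =>
    lowest Y D' _ _ (P i) (Q i) hD (Nat.mul_pos (hu i) (hu0 0)) (Nat.mul_pos (hu 0) (hu0 i))
      (hP i) (hQ i) (h i)
  choose s t hs1 hsY ht1 htY hst using hlow
  set T := ∏ l, t l with hT
  set S : Fin (N + 1) → ℕ := fun i => s i * ∏ l ∈ Finset.univ.erase i, t l with hS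
  have hkey : ∀ i, u i * (u0 0 * T) = u 0 * (u0 i * S i) := by
    intro i
    have h1 : T = t i * ∏ l ∈ Finset.univ.erase i, t l :=
      (Finset.mul_prod_erase Finset.univ t (Finset.mem_univ i)).symm
    calc u i * (u0 0 * T) = ((u i * u0 0) * t i) * ∏ l ∈ Finset.univ.erase i, t l := by
          rw [h1]; ring
      _ = ((u 0 * u0 i) * s i) * ∏ l ∈ Finset.univ.erase i, t l := by rw [hst i]
      _ = u 0 * (u0 i * S i) := by simp only [hS]; ring
  have hS1 : ∀ i, 1 ≤ S i := fun i =>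
    Nat.mul_pos (hs1 i) (Finset.prod_pos fun l _ => ht1 l)
  have hSY : ∀ i, S i ≤ Y ^ (N + 1) := by
    intro i
    have h1 : ∏ l ∈ Finset.univ.erase i, t l ≤ Y ^ N := by
      calc ∏ l ∈ Finset.univ.erase i, t l ≤ ∏ _l ∈ Finset.univ.erase i, Y :=
            Finset.prod_le_prod' fun l _ => htY l
        _ = Y ^ N := by
            rw [Finset.prod_const, Finset.card_erase_of_mem (Finset.mem_univ i),
              Finset.card_univ, Fintype.card_fin, Nat.add_sub_cancel]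
    calc S i ≤ Y * Y ^ N := Nat.mul_le_mul (hsY i) h1
      _ = Y ^ (N + 1) := by rw [pow_succ]; ring
  set G := Finset.univ.gcd fun i => u0 i * S i with hG
  have hGe : u 0 * G = u0 0 * T := by
    have h1 : Finset.univ.gcd (fun i => u i * (u0 0 * T)) = u0 0 * T := by
      rw [Finset.gcd_mul_right, gcd_one u hp]
      simp
    have h2 : Finset.univ.gcd (fun i => u 0 * (u0 i * S i)) = u 0 * G := by
      rw [Finset.gcd_mul_left]
      simp [hG]
    rw [← h1, ← h2]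
    exact Finset.gcd_congr rfl fun i _ => (hkey i).symm
  have hGpos : 1 ≤ G := by
    rcases Nat.eq_zero_or_pos G with h0 | h0
    · exfalso
      have h1 := Finset.gcd_dvd (s := Finset.univ) (f := fun i => u0 i * S i)
        (Finset.mem_univ (0 : Fin (N + 1)))
      rw [← hG, h0] at h1
      have h2 := Nat.mul_pos (hu0 0) (hS1 0)
      have h3 : u0 0 * S 0 = 0 := zero_dvd_iff.mp h1
      omega
    · exact h0
  have hGle : G ≤ Y ^ ((N + 1) ^ 2) := by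
    have h1 : G ∣ ∏ l, S l := by
      have h2 : Finset.univ.gcd (fun i => u0 i * ∏ l, S l) = ∏ l, S l := by
        rw [Finset.gcd_mul_right, gcd_one u0 hp0]
        simp
      rw [← h2]
      refine Finset.dvd_gcd fun i _ => ?_
      refine (Finset.gcd_dvd (Finset.mem_univ i)).trans ?_
      exact Nat.mul_dvd_mul_left _ (Finset.dvd_prod_of_mem _ (Finset.mem_univ i))
    have h3 : ∏ l, S l ≤ Y ^ ((N + 1) ^ 2) := by
      calc ∏ l, S l ≤ ∏ _l : Fin (N + 1), Y ^ (N + 1) :=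
            Finset.prod_le_prod' fun l _ => hSY l
        _ = Y ^ ((N + 1) ^ 2) := by
            rw [Finset.prod_const, Finset.card_univ, Fintype.card_fin, ← pow_mul, sq]
    exact (Nat.le_of_dvd (Finset.prod_pos fun l _ => hS1 l) h1).trans h3
  refine ⟨G, S, hGpos, hGle, fun i => ⟨hS1 i, (hSY i).trans ?_, ?_⟩⟩
  · exact Nat.pow_le_pow_right hY (by nlinarith)
  · have h1 : u 0 * (u i * G) = u 0 * (S i * u0 i) := by
      calc u 0 * (u i * G) = u i * (u 0 * G) := by ring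
        _ = u i * (u0 0 * T) := by rw [hGe]
        _ = u 0 * (u0 i * S i) := hkey i
        _ = u 0 * (S i * u0 i) := by ring
    exact Nat.eq_of_mul_eq_mul_left (hu 0) h1

end Pool.Agent.Helper85.VA
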