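import Mathlib

/-!
VA-A2. Either there is a functional separating the coordinates `i`, `j` and vanishing on all `r k`, or a multiple of
`e_i - e_j` is an integer combination of the `r k`.

Proof. Let `V` be the `ℚ`-span in `Fin n → ℚ` of the vectors `r k`. If `e_i - e_j ∈ V`: write it as `∑ q_k r_k`
(`Submodule.mem_span_range_iff_exists_fun`) and multiply by a common denominator `D0` of the `q_k`
(e.g. `D0 = ∏ (q k).den`). Otherwise there is a linear functional `f` on `Fin n → ℚ` vanishing on `V` with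
`f (e_i - e_j) ≠ 0` (`Submodule.exists_dual_map_eq_bot_of_notMem`, `Submodule.exists_le_ker_of_notMem`, or
`Submodule.exists_le_ker_of_lt_top`...); let `lam t = N * f (e_t)` with `N` a common denominator of the `f (e_t)`.
-/

namespace Pool.Agent.Helper85.VA

/-- common denominators of finitely many rational numbers -/
private theorem clear {ι : Type} [Fintype ι] (q : ι → ℚ) :
    ∃ N : ℕ, 0 < N ∧ ∃ c : ι → ℤ, ∀ k, (c k : ℚ) = N * q k := by
  classical
  refine ⟨∏ k, (q k).den, Finset.prod_pos fun k _ => (q k).den_pos,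
    fun k => (∏ l ∈ Finset.univ.erase k, ((q l).den : ℤ)) * (q k).num, fun k => ?_⟩
  have h1 : ((∏ k, (q k).den : ℕ) : ℚ) =
      ((q k).den : ℚ) * ∏ l ∈ Finset.univ.erase k, ((q l).den : ℚ) := by
    rw [Finset.mul_prod_erase Finset.univ (fun l => ((q l).den : ℚ)) (Finset.mem_univ k)]
    push_cast
    rfl
  have h2 : ((q k).den : ℚ) * q k = (q k).num := Rat.den_mul_eq_num (q k)
  rw [h1]
  push_cast
  rw [← h2]
  ring

theorem span_or {n : ℕ} {κ : Type} [Fintype κ] (r : κ → Fin n → ℤ) (i j : Fin n) :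
    (∃ lam : Fin n → ℤ, lam i ≠ lam j ∧ ∀ k, ∑ t, lam t * r k t = 0) ∨
      ∃ D0 : ℕ, 0 < D0 ∧ ∃ c : κ → ℤ, ∀ t,
        (D0 : ℤ) * ((if t = i then 1 else 0) - (if t = j then 1 else 0)) = ∑ k, c k * r k t := by
  classical
  set w : κ → Fin n → ℚ := fun k t => (r k t : ℚ) with hw
  set v : Fin n → ℚ := Pi.single i 1 - Pi.single j 1 with hv
  by_cases hmem : v ∈ Submodule.span ℚ (Set.range w)
  · right
    obtain ⟨q, hq⟩ := (Submodule.mem_span_range_iff_exists_fun ℚ).1 hmem
    obtain ⟨N, hN, c, hc⟩ := clear q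
    refine ⟨N, hN, c, fun t => ?_⟩
    have h1 := congrFun hq t
    rw [Finset.sum_apply] at h1
    simp only [Pi.smul_apply, smul_eq_mul, hv, Pi.sub_apply, Pi.single_apply, hw] at h1
    have h2 : ((N : ℚ)) * ((if t = i then 1 else 0) - (if t = j then 1 else 0)) =
        ∑ k, (c k : ℚ) * (r k t : ℚ) := by
      rw [← h1, Finset.mul_sum]
      refine Finset.sum_congr rfl fun k _ => ?_
      rw [hc]
      ring
    have h3 : (((N : ℤ) * ((if t = i then 1 else 0) - (if t = j then 1 else 0)) : ℤ) : ℚ) =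
        ((∑ k, c k * r k t : ℤ) : ℚ) := by
      push_cast
      exact h2
    exact_mod_cast h3
  · left
    obtain ⟨f, hf, hle⟩ := Submodule.exists_le_ker_of_notMem hmem
    obtain ⟨N, hN, c, hc⟩ := clear (fun t => f (Pi.single t 1))
    have hN' : (N : ℚ) ≠ 0 := by exact_mod_cast hN.ne'
    have hfv : f v = f (Pi.single i 1) - f (Pi.single j 1) := by rw [hv, map_sub]
    refine ⟨c, fun h => hf ?_, fun k => ?_⟩
    · have h1 : (c i : ℚ) = c j := by rw [h]
      rw [hc, hc] at h1
      rw [hfv, mul_left_cancel₀ hN' h1, sub_self]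
    · have h1 : f (w k) = 0 := hle (Submodule.subset_span ⟨k, rfl⟩)
      have h2 : w k = ∑ t, w k t • (Pi.single t (1 : ℚ) : Fin n → ℚ) := by
        funext s
        rw [Finset.sum_apply]
        simp [Pi.single_apply]
      rw [h2, map_sum] at h1
      have h3 : ∑ t, (c t : ℚ) * (r k t : ℚ) = 0 := by
        calc ∑ t, (c t : ℚ) * (r k t : ℚ) = (N : ℚ) * ∑ t, f (w k t • (Pi.single t (1 : ℚ) : Fin n → ℚ)) := by
              rw [Finset.mul_sum]
              refine Finset.sum_congr rfl fun t _ => ?_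
              rw [hc, map_smul, smul_eq_mul, hw]
              ring
          _ = 0 := by rw [h1, mul_zero]
      exact_mod_cast h3

end Pool.Agent.Helper85.VA
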