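import Pool.Agent.Helper85.VA.Constancy
import Pool.Agent.Helper85.VA.Span

/-!
VA-B10a. If no nonconstant functional is constant on the classes of monomials then the ratios `x_i / x_0` are, up to a power, values of
fixed rational functions times a constant.

Notation: `v = (i, j)`, `om_i (δ) = ∑_j e_ij δ z_ij / z_ij`; the exponents of the monomial `b` are `b_i e_ij`, so `𝒮.om (eb b) δ = ∑_i b_i om_i (δ)`.
Proof. For `i = 0`: `P = Q = 1`, `D1 = 1`, the empty small set. Let `i ≠ 0`. Apply `span_or` with `κ = {p : Exps N D × Exps N D // Rel om p.1 p.2}`,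
`r p t = (p.1 t : ℤ) - (p.2 t : ℤ)`, and `i`, `0`. The first alternative contradicts `hlam`. So there are `D0 > 0` and integers `c_p` with
`D0 (δ_ti - δ_t0) = ∑_p c_p (b_t - b'_t)`. Choose `h_p ≠ 0` with `δ h_p = (om b' δ - om b δ) h_p`, `H = ∏ h_p ^ c_p`. For every `δ`:
`δ H / H = ∑ c_p (om b' δ - om b δ) = - ∑_t (∑_p c_p (b_t - b'_t)) om_t (δ) = - D0 (om_i (δ) - om_0 (δ))`. (Logarithmic derivative of a product of powers: prove
`δ (x * y) / (x y) = δ x / x + δ y / y`, `δ (x ^ n) / x ^ n = n δ x / x`, `Derivation.leibniz_zpow` or by cases.) Write `H = 𝒮.cls P' / 𝒮.cls Q'`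
(`𝒮.exists_frac`; both nonzero). Apply `constancy` with the index type `Option (Fin (N + 1) × Fin k)`: `none`: `P', Q', κ = 1`; `some v`: `P = X v`, `Q = 1`,
`κ_v = D0 * (if v.1 = i then eZ v else 0) - D0 * (if v.1 = 0 then eZ v else 0)`. It gives `D` and that
`(P'(z)/Q'(z)) ^ D * ∏_v z_v ^ (D κ_v(ν)) = (P'(z)/Q'(z)) ^ D * (mono_i(z) / mono_0(z)) ^ (D D0)` is the same for all good `z`, where
`mono_i(z) = ∏_j z_ij ^ (ez ν (i, j))`. So `D1 = D D0`, `P = P' ^ D`, `Q = Q' ^ D`; clear denominators (`z_v ≥ 1` by `𝒮.bdd`) and cast back to `ℤ`.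
-/

open MvPolynomial

namespace Pool.Agent.Helper85.VA

open Pool.Agent.Helper91.CPX

/-- The exponents of the monomial `b` in the `z_ij`. -/
noncomputable def eb {N D k : ℕ} {F : Frame} (eZ : Fin (N + 1) × Fin k → Zb F) (b : Exps N D) :
    Fin (N + 1) × Fin k → Zb F := fun v => ((b.1 v.1 : ℕ) : Zb F) * eZ v

section logder

variable {K L : Type} [Field K] [Field L] [Algebra K L]

private theorem ld_mul (δ : Derivation K L L) {x y : L} (hx : x ≠ 0) (hy : y ≠ 0) :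
    δ (x * y) / (x * y) = δ x / x + δ y / y := by
  rw [Derivation.leibniz, smul_eq_mul, smul_eq_mul]
  field_simp
  ring

private theorem ld_zpow (δ : Derivation K L L) {x : L} (hx : x ≠ 0) (n : ℤ) :
    δ (x ^ n) / x ^ n = (n : L) * (δ x / x) := by
  rw [Derivation.leibniz_zpow, zsmul_eq_mul, smul_eq_mul, zpow_sub_one₀ hx]
  have h1 : x ^ n ≠ 0 := zpow_ne_zero n hx
  field_simp

private theorem ld_prod (δ : Derivation K L L) {κ : Type} [Fintype κ] (x : κ → L)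
    (hx : ∀ p, x p ≠ 0) (c : κ → ℤ) :
    δ (∏ p, x p ^ c p) / (∏ p, x p ^ c p) = ∑ p, (c p : L) * (δ (x p) / x p) := by
  classical
  have key : ∀ s : Finset κ, δ (∏ p ∈ s, x p ^ c p) / (∏ p ∈ s, x p ^ c p) =
      ∑ p ∈ s, (c p : L) * (δ (x p) / x p) := by
    intro s
    induction s using Finset.induction_on with
    | empty => simp
    | insert a s ha ih =>
      rw [Finset.prod_insert ha, Finset.sum_insert ha, ld_mul δ (zpow_ne_zero _ (hx a))
        (Finset.prod_ne_zero_iff.mpr fun p _ => zpow_ne_zero _ (hx p)), ih, ld_zpow δ (hx a)]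
  exact key Finset.univ

end logder

/-- The product of the powers of the coordinates, with exponents `D * κ`, in terms of the monomials. -/
private theorem prod_coord {N k : ℕ} (i : Fin (N + 1)) (hi : i ≠ 0) (z : Fin (N + 1) × Fin k → ℤ)
    (e : Fin (N + 1) × Fin k → ℕ) (D D0 : ℕ) (hz : ∀ v, z v ≠ 0) :
    ∏ v : Fin (N + 1) × Fin k, ((z v : ℚ)) ^ ((D : ℤ) * ((D0 : ℤ) *
      ((if v.1 = i then (e v : ℤ) else 0) - (if v.1 = 0 then (e v : ℤ) else 0)))) =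
    ((((∏ j, z (i, j) ^ e (i, j) : ℤ) : ℚ)) ^ (D * D0)) /
      ((((∏ j, z (0, j) ^ e (0, j) : ℤ) : ℚ)) ^ (D * D0)) := by
  have hz' : ∀ v, (z v : ℚ) ≠ 0 := fun v => by exact_mod_cast hz v
  have h1 : ∀ v : Fin (N + 1) × Fin k, ((z v : ℚ)) ^ ((D : ℤ) * ((D0 : ℤ) *
      ((if v.1 = i then (e v : ℤ) else 0) - (if v.1 = 0 then (e v : ℤ) else 0)))) =
      (if v.1 = i then ((z v : ℚ) ^ e v) ^ (D * D0) else 1) *
        (if v.1 = 0 then (((z v : ℚ) ^ e v) ^ (D * D0))⁻¹ else 1) := by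
    intro v
    have h2 : (z v : ℚ) ^ ((D : ℤ) * ((D0 : ℤ) * (e v : ℤ))) = ((z v : ℚ) ^ e v) ^ (D * D0) := by
      rw [← pow_mul, ← zpow_natCast]
      congr 1
      push_cast
      ring
    by_cases ha : v.1 = i
    · have hb : v.1 ≠ 0 := fun h => hi (ha.symm.trans h)
      rw [if_pos ha, if_neg hb, if_pos ha, if_neg hb, sub_zero, mul_one, h2]
    · by_cases hb : v.1 = 0
      · rw [if_neg ha, if_pos hb, if_neg ha, if_pos hb, zero_sub, one_mul, mul_neg, mul_neg,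
          zpow_neg, h2]
      · rw [if_neg ha, if_neg hb, if_neg ha, if_neg hb, sub_zero, mul_zero, mul_zero, zpow_zero,
          one_mul]
  have h3 : ∀ (a : Fin (N + 1)) (f : Fin (N + 1) × Fin k → ℚ),
      ∏ v : Fin (N + 1) × Fin k, (if v.1 = a then f v else 1) = ∏ j, f (a, j) := by
    intro a f
    rw [Fintype.prod_prod_type]
    rw [Finset.prod_eq_single a]
    · exact Finset.prod_congr rfl fun j _ => if_pos rfl
    · intro b _ hb
      exact Finset.prod_eq_one fun j _ => if_neg hb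
    · intro h
      exact absurd (Finset.mem_univ a) h
  rw [Finset.prod_congr rfl fun v _ => h1 v, Finset.prod_mul_distrib, h3, h3, Finset.prod_inv_distrib,
    Finset.prod_pow, Finset.prod_pow, div_eq_mul_inv]
  push_cast
  rfl

theorem ratio_const {N D k : ℕ} (𝒮 : Setup (Fin (N + 1) × Fin k))
    (ez : ℕ → Fin (N + 1) × Fin k → ℕ) (eZ : Fin (N + 1) × Fin k → Zb 𝒮.F)
    (heZ : ∀ ν v, evAt 𝒮.F ν (eZ v) = (ez ν v : ℤ))
    (hlam : ∀ lam : Fin (N + 1) → ℤ, (∃ i j, lam i ≠ lam j) → ∃ b b' : Exps N D,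
      Rel (fun b : Exps N D => 𝒮.om (eb eZ b)) b b' ∧
        ∑ t, lam t * ((b.1 t : ℕ) : ℤ) ≠ ∑ t, lam t * ((b'.1 t : ℕ) : ℤ)) (i : Fin (N + 1)) :
    ∃ (D1 : ℕ) (P Q : MvPolynomial (Fin (N + 1) × Fin k) (Zb 𝒮.F))
      (Sm : ℕ → (Fin (N + 1) × Fin k → ℤ) → Prop), 0 < D1 ∧ 𝒮.Small Sm ∧
      ∀ᶠ ν in (𝒮.F.U : Filter ℕ), ∀ z ∈ 𝒮.T ν, ∀ z0 ∈ 𝒮.T ν, ¬ Sm ν z → ¬ Sm ν z0 →
        𝒮.ev ν z P ≠ 0 ∧ 𝒮.ev ν z Q ≠ 0 ∧
        ((∏ j, z (i, j) ^ ez ν (i, j)) * ∏ j, z0 (0, j) ^ ez ν (0, j)) ^ D1 *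
            (𝒮.ev ν z P * 𝒮.ev ν z0 Q) =
          ((∏ j, z (0, j) ^ ez ν (0, j)) * ∏ j, z0 (i, j) ^ ez ν (i, j)) ^ D1 *
            (𝒮.ev ν z Q * 𝒮.ev ν z0 P) := by
  classical
  by_cases hi : i = 0
  · subst hi
    refine ⟨1, 1, 1, fun _ _ => False, one_pos, 𝒮.small_of_eventually
      (Filter.Eventually.of_forall fun ν z _ h => h), Filter.Eventually.of_forall ?_⟩
    intro ν z _ z0 _ _ _
    refine ⟨by rw [map_one]; exact one_ne_zero, by rw [map_one]; exact one_ne_zero, ?_⟩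
    simp only [map_one]
  have hfin : Finite {p : Exps N D × Exps N D //
      Rel (fun b : Exps N D => 𝒮.om (eb eZ b)) p.1 p.2} := inferInstance
  have hft : Fintype {p : Exps N D × Exps N D //
      Rel (fun b : Exps N D => 𝒮.om (eb eZ b)) p.1 p.2} := Fintype.ofFinite _
  rcases span_or (n := N + 1) (κ := {p : Exps N D × Exps N D //
      Rel (fun b : Exps N D => 𝒮.om (eb eZ b)) p.1 p.2})
      (fun p t => ((p.1.1.1 t : ℕ) : ℤ) - ((p.1.2.1 t : ℕ) : ℤ)) i 0 with hA | hB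
  · exfalso
    obtain ⟨lam, hne, hz⟩ := hA
    obtain ⟨b, b', hrel, hsum⟩ := hlam lam ⟨i, 0, hne⟩
    have h1 := hz ⟨(b, b'), hrel⟩
    simp only [mul_sub, Finset.sum_sub_distrib] at h1
    exact hsum (sub_eq_zero.mp h1)
  obtain ⟨D0, hD0, c, hc⟩ := hB
  have hch : ∀ p : {p : Exps N D × Exps N D //
      Rel (fun b : Exps N D => 𝒮.om (eb eZ b)) p.1 p.2}, ∃ h : 𝒮.L, h ≠ 0 ∧
      ∀ δ : 𝒮.Der, δ h = (𝒮.om (eb eZ p.1.2) δ - 𝒮.om (eb eZ p.1.1) δ) * h := fun p => p.2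
  choose hh hh0 hhd using hch
  set H : 𝒮.L := ∏ p, hh p ^ c p with hH
  have hH0 : H ≠ 0 := Finset.prod_ne_zero_iff.mpr fun p _ => zpow_ne_zero _ (hh0 p)
  have hld : ∀ δ : 𝒮.Der, δ H / H + ∑ v : Fin (N + 1) × Fin k, (D0 : 𝒮.L) *
      ((if v.1 = i then algebraMap (K0 𝒮.F) 𝒮.L (toK 𝒮.F (eZ v)) else 0) -
        (if v.1 = 0 then algebraMap (K0 𝒮.F) 𝒮.L (toK 𝒮.F (eZ v)) else 0)) *
      (δ (𝒮.cls (X v)) / 𝒮.cls (X v)) = 0 := by
    intro δ
    rw [hH, ld_prod δ hh hh0 c]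
    have h1 : ∀ p, δ (hh p) / hh p = 𝒮.om (eb eZ p.1.2) δ - 𝒮.om (eb eZ p.1.1) δ := by
      intro p
      rw [hhd p δ, mul_div_assoc, div_self (hh0 p), mul_one]
    have h2 : ∀ b : Exps N D, 𝒮.om (eb eZ b) δ = ∑ v : Fin (N + 1) × Fin k,
        ((b.1 v.1 : ℕ) : 𝒮.L) * (algebraMap (K0 𝒮.F) 𝒮.L (toK 𝒮.F (eZ v)) *
          (δ (𝒮.cls (X v)) / 𝒮.cls (X v))) := by
      intro b
      refine Finset.sum_congr rfl fun v _ => ?_
      simp only [eb, map_mul, map_natCast]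
      ring
    have h3 : ∀ t : Fin (N + 1), (D0 : 𝒮.L) * ((if t = i then 1 else 0) - (if t = 0 then 1 else 0)) =
        ∑ p : {p : Exps N D × Exps N D // Rel (fun b : Exps N D => 𝒮.om (eb eZ b)) p.1 p.2},
          (c p : 𝒮.L) * (((p.1.1.1 t : ℕ) : 𝒮.L) - ((p.1.2.1 t : ℕ) : 𝒮.L)) := by
      intro t
      have h4 := congrArg (Int.cast : ℤ → 𝒮.L) (hc t)
      push_cast at h4
      rw [← h4]
    have h5 : ∑ p : {p : Exps N D × Exps N D // Rel (fun b : Exps N D => 𝒮.om (eb eZ b)) p.1 p.2},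
        (c p : 𝒮.L) * (δ (hh p) / hh p) = - ∑ v : Fin (N + 1) × Fin k,
          ((D0 : 𝒮.L) * ((if v.1 = i then 1 else 0) - (if v.1 = 0 then 1 else 0))) *
            (algebraMap (K0 𝒮.F) 𝒮.L (toK 𝒮.F (eZ v)) * (δ (𝒮.cls (X v)) / 𝒮.cls (X v))) := by
      simp only [h1, h2, h3, Finset.sum_mul]
      rw [Finset.sum_comm, ← Finset.sum_neg_distrib]
      refine Finset.sum_congr rfl fun p _ => ?_
      rw [← Finset.sum_sub_distrib, Finset.mul_sum, ← Finset.sum_neg_distrib]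
      refine Finset.sum_congr rfl fun v _ => ?_
      ring
    rw [h5, ← sub_eq_neg_add, ← Finset.sum_sub_distrib]
    refine Finset.sum_eq_zero fun v _ => ?_
    split_ifs <;> ring
  obtain ⟨P', Q', hQ'0, hPQ'⟩ := 𝒮.exists_frac H
  have hP'0 : 𝒮.cls P' ≠ 0 := by
    rw [← hPQ']
    exact mul_ne_zero hQ'0 hH0
  have hHf : 𝒮.cls P' / 𝒮.cls Q' = H := by
    rw [← hPQ']
    field_simp
  obtain ⟨D1, hD1, Sm, hSm, hcon⟩ := constancy 𝒮 (s := Option (Fin (N + 1) × Fin k))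
    (fun r => r.elim P' X) (fun r => r.elim Q' (fun _ => 1))
    (by
      intro r
      cases r with
      | none => exact hP'0
      | some v => exact 𝒮.cls_X_ne v)
    (by
      intro r
      cases r with
      | none => exact hQ'0
      | some v =>
        change 𝒮.cls 1 ≠ 0
        rw [map_one]
        exact one_ne_zero)
    (fun r => r.elim 1 (fun v => (D0 : Zb 𝒮.F) *
      ((if v.1 = i then eZ v else 0) - (if v.1 = 0 then eZ v else 0))))
    (by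
      intro δ
      rw [Fintype.sum_option]
      simp only [Option.elim]
      rw [hHf, map_one, map_one, one_mul]
      rw [← hld δ]
      congr 1
      refine Finset.sum_congr rfl fun v _ => ?_
      rw [map_one, div_one, map_mul, map_mul, map_natCast, map_natCast, map_sub, map_sub]
      congr 2
      congr 1
      · split_ifs <;> simp
      · split_ifs <;> simp)
  refine ⟨D1 * D0, P' ^ D1, Q' ^ D1, Sm, Nat.mul_pos hD1 hD0, hSm, ?_⟩
  filter_upwards [hcon] with ν hν z hz z0 hz0 hs hs0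
  obtain ⟨hne, heq⟩ := hν z hz z0 hz0 hs hs0
  obtain ⟨hne0, -⟩ := hν z0 hz0 z hz hs0 hs
  have hP1 : 𝒮.ev ν z P' ≠ 0 := (hne none).1
  have hQ1 : 𝒮.ev ν z Q' ≠ 0 := (hne none).2
  have hP2 : 𝒮.ev ν z0 P' ≠ 0 := (hne0 none).1
  have hQ2 : 𝒮.ev ν z0 Q' ≠ 0 := (hne0 none).2
  refine ⟨by rw [map_pow]; exact pow_ne_zero _ hP1, by rw [map_pow]; exact pow_ne_zero _ hQ1, ?_⟩
  have hzne : ∀ v, z v ≠ 0 := fun v => by
    have := (𝒮.bdd ν z hz v).1
    omega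
  have hz0ne : ∀ v, z0 v ≠ 0 := fun v => by
    have := (𝒮.bdd ν z0 hz0 v).1
    omega
  rw [Fintype.prod_option, Fintype.prod_option] at heq
  simp only [Option.elim, 𝒮.ev_X, map_one, Int.cast_one, div_one] at heq
  have hκ : ∀ v : Fin (N + 1) × Fin k, (((D0 : Zb 𝒮.F) *
      ((if v.1 = i then eZ v else 0) - (if v.1 = 0 then eZ v else 0)) : Zb 𝒮.F) : ℕ → ℤ) ν =
      (D0 : ℤ) * ((if v.1 = i then (ez ν v : ℤ) else 0) - (if v.1 = 0 then (ez ν v : ℤ) else 0)) := by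
    intro v
    rw [← evAt_apply 𝒮.F, map_mul, map_sub, map_natCast]
    congr 2
    · split_ifs
      · exact heZ ν v
      · exact map_zero _
    · split_ifs
      · exact heZ ν v
      · exact map_zero _
  have h1 : (((1 : Zb 𝒮.F) : ℕ → ℤ) ν) = 1 := rfl
  simp only [hκ] at heq
  rw [h1, prod_coord i hi z (ez ν) D1 D0 hzne, prod_coord i hi z0 (ez ν) D1 D0 hz0ne, mul_one,
    zpow_natCast, zpow_natCast] at heq
  set mi : ℤ := ∏ j, z (i, j) ^ ez ν (i, j) with hmi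
  set m0 : ℤ := ∏ j, z (0, j) ^ ez ν (0, j) with hm0
  set ni : ℤ := ∏ j, z0 (i, j) ^ ez ν (i, j) with hni
  set n0 : ℤ := ∏ j, z0 (0, j) ^ ez ν (0, j) with hn0
  have hm0ne : (m0 : ℚ) ≠ 0 := by
    rw [hm0]
    exact_mod_cast Finset.prod_ne_zero_iff.mpr fun j _ => pow_ne_zero _ (hzne _)
  have hn0ne : (n0 : ℚ) ≠ 0 := by
    rw [hn0]
    exact_mod_cast Finset.prod_ne_zero_iff.mpr fun j _ => pow_ne_zero _ (hz0ne _)
  have hQ1' : (𝒮.ev ν z Q' : ℚ) ≠ 0 := by exact_mod_cast hQ1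
  have hQ2' : (𝒮.ev ν z0 Q' : ℚ) ≠ 0 := by exact_mod_cast hQ2
  have hfin2 : ((((mi * n0) ^ (D1 * D0) * (𝒮.ev ν z (P' ^ D1) * 𝒮.ev ν z0 (Q' ^ D1)) : ℤ)) : ℚ) =
      ((((m0 * ni) ^ (D1 * D0) * (𝒮.ev ν z (Q' ^ D1) * 𝒮.ev ν z0 (P' ^ D1)) : ℤ)) : ℚ) := by
    rw [map_pow, map_pow, map_pow, map_pow]
    push_cast
    rw [div_pow, div_pow, div_mul_div_comm, div_mul_div_comm, div_eq_div_iff
      (mul_ne_zero (pow_ne_zero _ hQ1') (pow_ne_zero _ hm0ne))
      (mul_ne_zero (pow_ne_zero _ hQ2') (pow_ne_zero _ hn0ne))] at heq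
    rw [mul_pow, mul_pow]
    linear_combination heq
  exact_mod_cast hfin2

end Pool.Agent.Helper85.VA
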