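import Pool.Agent.Helper85.VA.ClassSum
import Pool.Agent.Helper85.VA.RatioConst
import Pool.Agent.Helper85.VA.Ratio
import Pool.Agent.Helper85.VA.FewRat

/-!
VA-B10b. The nonstandard theorem. (helper85)

Proof. `exists_maximal` gives a large family `T1 ⊆ T` with prime, maximal vanishing ideal: a `Setup 𝒮`. `eZ v` = the sequence `e ν v.1 v.2` (in `Zb F` by `he`),
`EZ b v = b_{v.1} eZ v`. For every `s` the terms `τ_b = c ν s b * mval b (xval (a ν) (e ν) z) = (c ν s b ∏ a_i^{b_i}) ∏ z_ij^(b_i e_ij)`, with `G ν = D * m ν + 1`: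
`|τ_b| ≤ X * X^(D m)`. By `class_sum` all class sums vanish outside a small set `Sm1` (finitely many `s`, `b0`; `Setup.Small.exists`). If `lam : Fin (N+1) → ℤ` is
nonconstant and `∑ lam_t b_t = ∑ lam_t b'_t` for all related `b, b'`, then with `lam' = lam + c ≥ 0` (natural numbers) `wt lam'` is constant on the classes, so at every point
`z` outside `Sm1` all `∑_{wt lam' b = n} τ_b(z)` vanish (a sum of class sums), contradicting `NonDeg` (there is a point outside `Sm1`: `Setup.Small.exists_not`).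
So `ratio_const` applies for every `i`: `D1 i, P i, Q i, Sm i`. Outside the union `Sm2` of these sets, for `z, z0 ∈ T1 ν`: `u_i = |x_i(z)|`, `u0_i = |x_i(z0)|` satisfy
`(u_i u0_0)^(D1 i) |P(z) Q(z0)| = (u_0 u0_i)^(D1 i) |Q(z) P(z0)|` (the factors `|a_i a_0|` cancel/are the same on both sides), with `|P(z) Q(z0)| ≤ X^C` (`poly_bound`).
`prim_ratio` (with a common exponent `D' = ∏ D1 i`: raise to powers): `u_i g = S_i u0_i`, `g, S_i ≤ X^C'`; divide by `|a_i|`: `w = mono_i(z)`, `w g = S mono_i(z0)`.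
`few_ratios k C' (δ/(N+2))`: for `z0` fixed the number of possible `mono_i(z)` is at most `X^(δ/(N+2))`, so that of the vectors `xval z` (determined by the `mono_i(z)`)
at most `X^(δ (N+1)/(N+2)) < X^δ`, contradicting that the complement of `Sm2` is large with exponent `δ`.
-/

open MvPolynomial

namespace Pool.Agent.Helper85.VA

open Pool.Agent.Helper91.CPX

theorem mval_xval {N D k : ℕ} (b : Exps N D) (a : Fin (N + 1) → ℤ) (e : Fin (N + 1) → Fin k → ℕ)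
    (z : Fin (N + 1) × Fin k → ℤ) :
    mval b (xval a e z) = (∏ i, a i ^ (b.1 i : ℕ)) *
      ∏ v : Fin (N + 1) × Fin k, z v ^ ((b.1 v.1 : ℕ) * e v.1 v.2) := by
  unfold mval xval
  rw [Fintype.prod_prod_type, ← Finset.prod_mul_distrib]
  refine Finset.prod_congr rfl fun i _ => ?_
  rw [mul_pow, ← Finset.prod_pow]
  congr 1
  refine Finset.prod_congr rfl fun j _ => ?_
  rw [← pow_mul, mul_comm]

theorem abs_mval_le {N D : ℕ} (b : Exps N D) (x : Fin (N + 1) → ℤ) (Y : ℤ)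
    (hx : ∀ i, |x i| ≤ Y) : |mval b x| ≤ Y ^ D := by
  unfold mval
  rw [Finset.abs_prod]
  calc ∏ i, |x i ^ (b.1 i : ℕ)| ≤ ∏ i, Y ^ (b.1 i : ℕ) := by
        refine Finset.prod_le_prod (fun i _ => abs_nonneg _) fun i _ => ?_
        rw [abs_pow]
        exact pow_le_pow_left₀ (abs_nonneg _) (hx i) _
    _ = Y ^ D := by rw [Finset.prod_pow_eq_pow_sum, b.2]

/-- The counting step. -/
theorem card_core (N k C : ℕ) (δ : ℝ) (hδ : 0 < δ) :
    ∃ m2 X2 : ℕ, ∀ m, m2 ≤ m → ∀ X : ℕ, X2 ≤ X → ∀ (a : Fin (N + 1) → ℤ)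
      (e : Fin (N + 1) → Fin k → ℕ), (∀ i, a i ≠ 0) → (∀ i j, m ≤ e i j) →
      ∀ T2 : Finset (Fin (N + 1) × Fin k → ℤ), (∀ z ∈ T2, ∀ v, 1 ≤ z v ∧ z v ≤ (X : ℤ)) →
      ∀ z0 ∈ T2, (∀ z ∈ T2, ∃ (g : ℕ) (S : Fin (N + 1) → ℕ), 1 ≤ g ∧ g ≤ X ^ C ∧
        ∀ i, 1 ≤ S i ∧ S i ≤ X ^ C ∧
          (xval a e z i).natAbs * g = S i * (xval a e z0 i).natAbs) →
      ((T2.image (xval a e)).card : ℝ) < (X : ℝ) ^ δ := by
  classical
  obtain ⟨m2, X2, h⟩ := few_ratios k C (δ / (N + 2)) (by positivity)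
  refine ⟨m2, X2 + 2, fun m hm X hX a e ha he T2 hT2 z0 hz0 hg => ?_⟩
  have hX1 : (1 : ℝ) < X := by exact_mod_cast (by omega : 1 < X)
  have hX0 : (0 : ℝ) < X := by linarith
  -- the monomials
  let mono : Fin (N + 1) → (Fin (N + 1) × Fin k → ℤ) → ℕ := fun i z =>
    ∏ j, (z (i, j)).toNat ^ e i j
  have hmono : ∀ z ∈ T2, ∀ i, xval a e z i = a i * (mono i z : ℤ) := by
    intro z hz i
    unfold xval
    congr 1
    simp only [mono]
    push_cast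
    refine Finset.prod_congr rfl fun j _ => ?_
    rw [Int.toNat_of_nonneg (by have := (hT2 z hz (i, j)).1; omega)]
  let 𝒲 : Fin (N + 1) → Finset ℕ := fun i => T2.image (mono i)
  have hcard : ∀ i, ((𝒲 i).card : ℝ) ≤ (X : ℝ) ^ (δ / (N + 2)) := by
    intro i
    refine h m hm X (by omega) (e i) (he i) (fun j => (z0 (i, j)).toNat) ?_ (𝒲 i) ?_
    · intro j
      have := hT2 z0 hz0 (i, j)
      omega
    · intro w hw
      obtain ⟨z, hz, rfl⟩ := Finset.mem_image.mp hw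
      refine ⟨⟨fun j => (z (i, j)).toNat, fun j => ?_, rfl⟩, ?_⟩
      · have := (hT2 z hz (i, j)).1
        show 1 ≤ (z (i, j)).toNat
        omega
      · obtain ⟨g, S, hg1, hg2, hS⟩ := hg z hz
        obtain ⟨hS1, hS2, hS3⟩ := hS i
        refine ⟨g, S i, hg1, hg2, hS1, hS2, ?_⟩
        rw [hmono z hz, hmono z0 hz0, Int.natAbs_mul, Int.natAbs_mul, Int.natAbs_natCast,
          Int.natAbs_natCast] at hS3
        have ha' : 0 < (a i).natAbs := Int.natAbs_pos.mpr (ha i)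
        refine Nat.eq_of_mul_eq_mul_left ha' ?_
        calc (a i).natAbs * (mono i z * g) = (a i).natAbs * mono i z * g := by ring
          _ = S i * ((a i).natAbs * mono i z0) := hS3
          _ = (a i).natAbs * (S i * mono i z0) := by ring
  have hsub : T2.image (xval a e) ⊆
      (Fintype.piFinset 𝒲).image (fun w : Fin (N + 1) → ℕ => fun i => a i * (w i : ℤ)) := by
    intro x hx
    obtain ⟨z, hz, rfl⟩ := Finset.mem_image.mp hx
    refine Finset.mem_image.mpr ⟨fun i => mono i z, ?_, ?_⟩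
    · rw [Fintype.mem_piFinset]
      exact fun i => Finset.mem_image_of_mem _ hz
    · funext i
      exact (hmono z hz i).symm
  have h1 : ((T2.image (xval a e)).card : ℝ) ≤ ((X : ℝ) ^ (δ / (N + 2))) ^ (N + 1) := by
    calc ((T2.image (xval a e)).card : ℝ) ≤ ((Fintype.piFinset 𝒲).card : ℝ) := by
          exact_mod_cast (Finset.card_le_card hsub).trans Finset.card_image_le
      _ = ∏ i, ((𝒲 i).card : ℝ) := by rw [Fintype.card_piFinset]; push_cast; rfl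
      _ ≤ ∏ _i : Fin (N + 1), (X : ℝ) ^ (δ / (N + 2)) :=
          Finset.prod_le_prod (fun i _ => Nat.cast_nonneg _) fun i _ => hcard i
      _ = _ := by rw [Finset.prod_const, Finset.card_univ, Fintype.card_fin]
  refine h1.trans_lt ?_
  rw [← Real.rpow_natCast, ← Real.rpow_mul hX0.le]
  refine Real.rpow_lt_rpow_of_exponent_lt hX1 ?_
  push_cast
  rw [div_mul_eq_mul_div, div_lt_iff₀ (by positivity)]
  nlinarith

open scoped Classical in
/-- If all class sums vanish then so do the sums over unions of classes. -/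
theorem sum_zero_of_classes {β : Type} [Fintype β] (R : β → β → Prop) (hr : ∀ b, R b b) (hs : ∀ b b', R b b' → R b' b)
    (ht : ∀ b b' b'', R b b' → R b' b'' → R b b'') (g : β → ℤ)
    (h : ∀ b0, ∑ b, (if R b0 b then g b else 0) = 0) (w : β → ℕ)
    (hw : ∀ b b', R b b' → w b = w b') (n : ℕ) : ∑ b with w b = n, g b = 0 := by
  let St : Setoid β := ⟨R, ⟨hr, fun {a b} => hs a b, fun {a b c} => ht a b c⟩⟩
  refine Finset.sum_cancels_of_partition_cancels St fun b0 hb0 => ?_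
  refine Eq.trans ?_ (h b0)
  refine Eq.trans ?_ (Finset.sum_filter _ _)
  refine Finset.sum_congr ?_ fun _ _ => rfl
  ext b
  simp only [Finset.mem_filter, Finset.mem_univ, true_and] at hb0 ⊢
  constructor
  · rintro ⟨_, h2⟩
    exact hs _ _ h2
  · intro h2
    exact ⟨(hw _ _ h2).symm.trans hb0, hs _ _ h2⟩

theorem NS_core {N D r k : ℕ} (H : ℕ) (𝒮 : Setup (Fin (N + 1) × Fin k)) (m : ℕ → ℕ)
    (hm : ∀ C : ℕ, ∀ᶠ ν in (𝒮.F.U : Filter ℕ), C ≤ m ν)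
    (hX : ∀ C : ℕ, ∀ᶠ ν in (𝒮.F.U : Filter ℕ), 2 ^ ((C * m ν + C + 1) ^ 2) ≤ 𝒮.F.X ν)
    (c : ℕ → Fin r → Exps N D → ℤ)
    (hc : ∀ᶠ ν in (𝒮.F.U : Filter ℕ), ∀ s b, |c ν s b| ≤ (𝒮.F.X ν : ℤ) ^ (H * m ν))
    (a : ℕ → Fin (N + 1) → ℤ) (ha : ∀ ν i, a ν i ≠ 0) (e : ℕ → Fin (N + 1) → Fin k → ℕ)
    (he : ∀ᶠ ν in (𝒮.F.U : Filter ℕ), ∀ i j,
      m ν ≤ e ν i j ∧ (e ν i j : ℤ) ≤ (𝒮.F.X ν : ℤ) ^ 2)
    (hT2 : ∀ᶠ ν in (𝒮.F.U : Filter ℕ), ∀ z ∈ 𝒮.T ν,
      (∀ i, |xval (a ν) (e ν) z i| ≤ (𝒮.F.X ν : ℤ) ^ m ν) ∧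
      (∀ s, fval (c ν s) (xval (a ν) (e ν) z) = 0) ∧ Prim (xval (a ν) (e ν) z) ∧
      NonDeg (c ν) (xval (a ν) (e ν) z))
    (hM : ∀ ν z, 𝒮.M ν z = (Encodable.encode (xval (a ν) (e ν) z) : ℤ)) : False := by
  classical
  -- exponents
  let ez : ℕ → Fin (N + 1) × Fin k → ℕ := fun ν v => e ν v.1 v.2
  let eZ : Fin (N + 1) × Fin k → Zb 𝒮.F := fun v => ⟨fun ν => (ez ν v : ℤ), ⟨2, by
    filter_upwards [he] with ν h1
    rw [abs_of_nonneg (by positivity)]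
    exact (h1 v.1 v.2).2⟩⟩
  have heZ : ∀ ν v, evAt 𝒮.F ν (eZ v) = (ez ν v : ℤ) := fun ν v => rfl
  -- terms
  have hbound : ∀ s : Fin r, ∀ᶠ ν in (𝒮.F.U : Filter ℕ), ∀ z ∈ 𝒮.T ν, ∀ b : Exps N D,
      |(c ν s b * ∏ i, a ν i ^ (b.1 i : ℕ)) *
        ∏ v : Fin (N + 1) × Fin k, z v ^ ((b.1 v.1 : ℕ) * ez ν v)| ≤
        (𝒮.F.X ν : ℤ) ^ (D * m ν + H * m ν) := by
    intro s
    filter_upwards [hc, hT2] with ν h1 h2 z hz b
    rw [mul_assoc, ← mval_xval, abs_mul, pow_add, mul_comm]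
    have h3 := abs_mval_le b _ _ (h2 z hz).1
    rw [← pow_mul, mul_comm (m ν)] at h3
    exact mul_le_mul h3 (h1 s b) (abs_nonneg _) (by have := 𝒮.F.one_le ν; positivity)
  let τ : Fin r → Terms 𝒮 (Exps N D) := fun s =>
    { t := fun ν b => c ν s b * ∏ i, a ν i ^ (b.1 i : ℕ)
      E := fun ν b v => (b.1 v.1 : ℕ) * ez ν v
      EZ := eb eZ
      hEZ := by
        intro ν b v
        unfold eb
        rw [map_mul, map_natCast, heZ]
        push_cast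
        rfl
      G := fun ν => D * m ν + H * m ν
      hG := by
        intro C
        filter_upwards [hX (D + H + C)] with ν h1
        refine le_trans (Nat.pow_le_pow_right (by norm_num) (Nat.pow_le_pow_left ?_ 2)) h1
        nlinarith [Nat.zero_le (m ν), Nat.zero_le (C * m ν)]
      hτ := hbound s }
  have hval : ∀ (s : Fin r) (ν : ℕ) (b : Exps N D) (z : Fin (N + 1) × Fin k → ℤ),
      (τ s).val ν b z = c ν s b * mval b (xval (a ν) (e ν) z) := by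
    intro s ν b z
    rw [mval_xval, ← mul_assoc]
    rfl
  have h0 : ∀ s : Fin r, ∀ᶠ ν in (𝒮.F.U : Filter ℕ), ∀ z ∈ 𝒮.T ν,
      ∑ b, (τ s).val ν b z = 0 := by
    intro s
    filter_upwards [hT2] with ν h2 z hz
    have h3 := (h2 z hz).2.1 s
    rw [← h3]
    exact Finset.sum_congr rfl fun b _ => hval s ν b z
  -- class sums
  have hcs : ∀ q : Fin r × Exps N D, 𝒮.Small (fun ν z =>
      ∑ b, (if Rel (fun b : Exps N D => 𝒮.om (eb eZ b)) q.2 b then (τ q.1).val ν b z else 0)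
        ≠ 0) := fun q => class_sum 𝒮 (τ q.1) (h0 q.1) q.2
  have hSm1 := Setup.Small.exists hcs
  -- no functional
  have hlam : ∀ lam : Fin (N + 1) → ℤ, (∃ i j, lam i ≠ lam j) → ∃ b b' : Exps N D,
      Rel (fun b : Exps N D => 𝒮.om (eb eZ b)) b b' ∧
        ∑ t, lam t * ((b.1 t : ℕ) : ℤ) ≠ ∑ t, lam t * ((b'.1 t : ℕ) : ℤ) := by
    intro lam hne
    by_contra hcon
    push Not at hcon
    obtain ⟨ν, ⟨z, hz, hzn⟩, h2⟩ := (hSm1.exists_not.and hT2).exists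
    push Not at hzn
    obtain ⟨-, -, -, hnd⟩ := h2 z hz
    set c0 : ℤ := ∑ t, |lam t| with hc0
    have hlc : ∀ t, 0 ≤ lam t + c0 := by
      intro t
      have h3 : |lam t| ≤ c0 :=
        Finset.single_le_sum (f := fun t => |lam t|) (fun i _ => abs_nonneg _) (Finset.mem_univ t)
      have h4 := neg_abs_le (lam t)
      linarith
    let lam' : Fin (N + 1) → ℕ := fun t => (lam t + c0).toNat
    have hlam' : ∀ t, (lam' t : ℤ) = lam t + c0 := fun t => Int.toNat_of_nonneg (hlc t)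
    have hwt : ∀ b : Exps N D, (wt lam' b : ℤ) = ∑ t, lam t * ((b.1 t : ℕ) : ℤ) + c0 * D := by
      intro b
      have hb : ((D : ℕ) : ℤ) = ∑ t, ((b.1 t : ℕ) : ℤ) := by
        rw [← Nat.cast_sum, b.2]
      unfold wt
      push_cast
      rw [hb, Finset.mul_sum, ← Finset.sum_add_distrib]
      refine Finset.sum_congr rfl fun t _ => ?_
      rw [hlam' t]
      ring
    obtain ⟨i, j, hij⟩ := hne
    obtain ⟨s, n, hsn⟩ := hnd lam' ⟨i, j, fun h => hij (by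
      have h3 := hlam' i
      have h4 := hlam' j
      rw [h] at h3
      linarith)⟩
    apply hsn
    refine sum_zero_of_classes (Rel (fun b : Exps N D => 𝒮.om (eb eZ b))) (rel_refl _)
      (fun _ _ => rel_symm _) (fun _ _ _ => rel_trans _) _ ?_ (wt lam') ?_ n
    · intro b0
      refine Eq.trans ?_ (hzn (s, b0))
      refine Finset.sum_congr rfl fun b _ => ?_
      rw [hval]
    · intro b b' hbb
      have h3 := hcon b b' hbb
      have h4 := hwt b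
      have h5 := hwt b'
      rw [h3] at h4
      exact_mod_cast h4.trans h5.symm
  -- the ratios
  choose D1 P Q Sm hD1 hSm hrat using fun i => ratio_const 𝒮 ez eZ heZ hlam i
  have hSm2 := Setup.Small.exists hSm
  obtain ⟨δ, hδ, hcard⟩ := hSm2.large_compl
  choose CP hCP using fun i => poly_bound 𝒮.F 𝒮.T 𝒮.bdd (P i)
  choose CQ hCQ using fun i => poly_bound 𝒮.F 𝒮.T 𝒮.bdd (Q i)
  set D' : ℕ := ∏ i, D1 i with hD'
  have hD'0 : 0 < D' := Finset.prod_pos fun i _ => hD1 i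
  set C : ℕ := (∑ i, (CP i + CQ i)) * D' with hC
  obtain ⟨m2, X2, hcore⟩ := card_core N k (C * (N + 1) ^ 2) δ hδ
  obtain ⟨ν, hν⟩ := (((hcard.and (Filter.eventually_all.mpr hrat)).and
    ((Filter.eventually_all.mpr hCP).and (Filter.eventually_all.mpr hCQ))).and
    ((hm m2).and ((𝒮.F.tends X2).and (he.and (hT2.and
      (large_nonempty _ _ _ hSm2.large_compl)))))).exists
  obtain ⟨⟨⟨hcard, hrat⟩, hCP, hCQ⟩, hm2, hX2, he, hT2, z0, hz0⟩ := hν
  set T2 := 𝒮.sub (fun ν z => ¬∃ a, Sm a ν z) ν with hT2def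
  have hT2T1 : ∀ z ∈ T2, z ∈ 𝒮.T ν := fun z hz => (𝒮.mem_sub.mp hz).1
  have hgood : ∀ z ∈ T2, ∀ i, ¬ Sm i ν z := fun z hz i h => (𝒮.mem_sub.mp hz).2 ⟨i, h⟩
  have hbd : ∀ z ∈ T2, ∀ v, 1 ≤ z v ∧ z v ≤ (𝒮.F.X ν : ℤ) := fun z hz v =>
    𝒮.bdd ν z (hT2T1 z hz) v
  have hX1 := 𝒮.F.one_le ν
  have hXn : 1 ≤ 𝒮.F.X ν := by exact_mod_cast hX1
  have hmonopos : ∀ z ∈ T2, ∀ i, 0 < ∏ j, z (i, j) ^ e ν i j := by
    intro z hz i
    refine Finset.prod_pos fun j _ => ?_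
    have := (hbd z hz (i, j)).1
    positivity
  have hxne : ∀ z ∈ T2, ∀ i, xval (a ν) (e ν) z i ≠ 0 := by
    intro z hz i
    exact mul_ne_zero (ha ν i) (hmonopos z hz i).ne'
  have hfin := hcore (m ν) hm2 (𝒮.F.X ν) hX2 (a ν) (e ν) (ha ν) (fun i j => (he i j).1) T2 hbd z0
    hz0 ?_
  · -- contradiction with the size
    have h3 : (T2.image (𝒮.M ν)).card = (T2.image (xval (a ν) (e ν))).card := by
      have h4 : T2.image (𝒮.M ν) = (T2.image (xval (a ν) (e ν))).image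
          (fun x => ((Encodable.encode x : ℕ) : ℤ)) := by
        rw [Finset.image_image]
        exact Finset.image_congr fun z _ => hM ν z
      rw [h4]
      refine Finset.card_image_of_injective _ fun x y hxy => ?_
      exact Encodable.encode_injective (by exact_mod_cast hxy)
    rw [h3] at hcard
    have h5 : ((𝒮.F.X ν : ℕ) : ℝ) ^ δ ≤ _ := hcard
    linarith
  · intro z hz
    -- absolute values
    let u : Fin (N + 1) → ℕ := fun i => (xval (a ν) (e ν) z i).natAbs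
    let u0 : Fin (N + 1) → ℕ := fun i => (xval (a ν) (e ν) z0 i).natAbs
    let A : Fin (N + 1) → ℕ := fun i => (𝒮.ev ν z (Q i) * 𝒮.ev ν z0 (P i)).natAbs ^ (D' / D1 i)
    let B : Fin (N + 1) → ℕ := fun i => (𝒮.ev ν z (P i) * 𝒮.ev ν z0 (Q i)).natAbs ^ (D' / D1 i)
    have hdvd : ∀ i, D1 i ∣ D' := fun i => Finset.dvd_prod_of_mem _ (Finset.mem_univ i)
    have hP0 : ∀ y ∈ T2, ∀ i, 𝒮.ev ν y (P i) ≠ 0 ∧ 𝒮.ev ν y (Q i) ≠ 0 := by
      intro y hy i
      have h3 := hrat i y (hT2T1 y hy) z0 (hT2T1 z0 hz0) (hgood y hy i) (hgood z0 hz0 i)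
      exact ⟨h3.1, h3.2.1⟩
    have hle : ∀ (p q : ℤ) (i : Fin (N + 1)), p ≠ 0 → q ≠ 0 → |p| ≤ (𝒮.F.X ν : ℤ) ^ CP i →
        |q| ≤ (𝒮.F.X ν : ℤ) ^ CQ i → 1 ≤ (p * q).natAbs ^ (D' / D1 i) ∧
          (p * q).natAbs ^ (D' / D1 i) ≤ (𝒮.F.X ν ^ C) := by
      intro p q i hp hq hp' hq'
      constructor
      · exact Nat.one_le_pow _ _ (Int.natAbs_pos.mpr (mul_ne_zero hp hq))
      · have h3 : (p * q).natAbs ≤ 𝒮.F.X ν ^ (CP i + CQ i) := by
          have h4 : |p * q| ≤ (𝒮.F.X ν : ℤ) ^ (CP i + CQ i) := by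
            rw [abs_mul, pow_add]
            exact mul_le_mul hp' hq' (abs_nonneg _) (by positivity)
          rw [Int.abs_eq_natAbs] at h4
          exact_mod_cast h4
        calc (p * q).natAbs ^ (D' / D1 i) ≤ (𝒮.F.X ν ^ (CP i + CQ i)) ^ (D' / D1 i) :=
              Nat.pow_le_pow_left h3 _
          _ = 𝒮.F.X ν ^ ((CP i + CQ i) * (D' / D1 i)) := by rw [pow_mul]
          _ ≤ 𝒮.F.X ν ^ C := by
              refine Nat.pow_le_pow_right hXn ?_
              refine Nat.mul_le_mul ?_ (Nat.div_le_self _ _)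
              exact Finset.single_le_sum (f := fun i => CP i + CQ i) (fun _ _ => Nat.zero_le _)
                (Finset.mem_univ i)
    have hCPz : ∀ y ∈ T2, ∀ i, |𝒮.ev ν y (P i)| ≤ (𝒮.F.X ν : ℤ) ^ CP i := fun y hy i =>
      hCP i y (hT2T1 y hy)
    have hCQz : ∀ y ∈ T2, ∀ i, |𝒮.ev ν y (Q i)| ≤ (𝒮.F.X ν : ℤ) ^ CQ i := fun y hy i =>
      hCQ i y (hT2T1 y hy)
    have hprim : ∀ y ∈ T2, ∀ p : ℕ, p.Prime → ∃ i, ¬ p ∣ (xval (a ν) (e ν) y i).natAbs := by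
      intro y hy p hp
      obtain ⟨i, hi⟩ := (hT2 y (hT2T1 y hy)).2.2.1 p hp
      exact ⟨i, fun h => hi (Int.natCast_dvd.mpr h)⟩
    obtain ⟨g, S, hg1, hg2, hS⟩ := prim_ratio (N := N) (𝒮.F.X ν ^ C) D' hD'0
      (Nat.one_le_pow _ _ hXn) u u0 (fun i => Int.natAbs_pos.mpr (hxne z hz i))
      (fun i => Int.natAbs_pos.mpr (hxne z0 hz0 i)) (hprim z hz) (hprim z0 hz0) A B
      (fun i => by
        have h3 := hle _ _ i (hP0 z0 hz0 i).1 (hP0 z hz i).2 (hCPz z0 hz0 i) (hCQz z hz i)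
        rw [mul_comm (𝒮.ev ν z0 (P i))] at h3
        exact h3)
      (fun i => hle _ _ i (hP0 z hz i).1 (hP0 z0 hz0 i).2 (hCPz z hz i) (hCQz z0 hz0 i))
      (fun i => by
        have h3 := (hrat i z (hT2T1 z hz) z0 (hT2T1 z0 hz0) (hgood z hz i) (hgood z0 hz0 i)).2.2
        have h4 : (xval (a ν) (e ν) z i * xval (a ν) (e ν) z0 0) ^ D1 i *
            (𝒮.ev ν z (P i) * 𝒮.ev ν z0 (Q i)) =
            (xval (a ν) (e ν) z 0 * xval (a ν) (e ν) z0 i) ^ D1 i *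
            (𝒮.ev ν z (Q i) * 𝒮.ev ν z0 (P i)) := by
          unfold xval
          have h5 : ∀ p q r : ℤ, (a ν i * p * (a ν 0 * q)) ^ D1 i * r =
              (a ν i * a ν 0) ^ D1 i * ((p * q) ^ D1 i * r) := by
            intro p q r
            rw [show a ν i * p * (a ν 0 * q) = (a ν i * a ν 0) * (p * q) by ring, mul_pow]
            ring
          have h6 : ∀ p q r : ℤ, (a ν 0 * p * (a ν i * q)) ^ D1 i * r =
              (a ν i * a ν 0) ^ D1 i * ((p * q) ^ D1 i * r) := by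
            intro p q r
            rw [show a ν 0 * p * (a ν i * q) = (a ν i * a ν 0) * (p * q) by ring, mul_pow]
            ring
          rw [h5, h6]
          congr 1
        have h5 := congrArg (fun t : ℤ => t.natAbs ^ (D' / D1 i)) h4
        simp only [Int.natAbs_mul, Int.natAbs_pow, mul_pow] at h5
        simp only [u, u0, A, B, Int.natAbs_mul, mul_pow]
        rw [← pow_mul, ← pow_mul, ← pow_mul, ← pow_mul, Nat.mul_div_cancel' (hdvd i)] at h5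
        exact h5)
    refine ⟨g, S, hg1, ?_, fun i => ?_⟩
    · rw [pow_mul]
      exact hg2
    · obtain ⟨h3, h4, h5⟩ := hS i
      refine ⟨h3, ?_, h5⟩
      rw [pow_mul]
      exact h4

theorem NS_falseU (F : Frame) (N D r k H : ℕ) (m : ℕ → ℕ)
    (hm : ∀ C : ℕ, ∀ᶠ ν in (F.U : Filter ℕ), C ≤ m ν)
    (hX : ∀ C : ℕ, ∀ᶠ ν in (F.U : Filter ℕ), 2 ^ ((C * m ν + C + 1) ^ 2) ≤ F.X ν)
    (c : ℕ → Fin r → Exps N D → ℤ)
    (hc : ∀ᶠ ν in (F.U : Filter ℕ), ∀ s b, |c ν s b| ≤ (F.X ν : ℤ) ^ (H * m ν))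
    (a : ℕ → Fin (N + 1) → ℤ) (ha : ∀ ν i, a ν i ≠ 0) (e : ℕ → Fin (N + 1) → Fin k → ℕ)
    (he : ∀ᶠ ν in (F.U : Filter ℕ), ∀ i j, m ν ≤ e ν i j ∧ (e ν i j : ℤ) ≤ (F.X ν : ℤ) ^ 2)
    (T : ℕ → Finset (Fin (N + 1) × Fin k → ℤ)) (hT : Bdd F T)
    (hT2 : ∀ᶠ ν in (F.U : Filter ℕ), ∀ z ∈ T ν,
      (∀ i, |xval (a ν) (e ν) z i| ≤ (F.X ν : ℤ) ^ m ν) ∧
      (∀ s, fval (c ν s) (xval (a ν) (e ν) z) = 0) ∧ Prim (xval (a ν) (e ν) z) ∧
      NonDeg (c ν) (xval (a ν) (e ν) z))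
    (hL : Large F (fun ν z => (Encodable.encode (xval (a ν) (e ν) z) : ℤ)) T) : False := by
  obtain ⟨T1, hT1, hL1, hprime, hmax⟩ := exists_maximal F _ T hT hL
  refine NS_core H (⟨F, fun ν z => (Encodable.encode (xval (a ν) (e ν) z) : ℤ), T1,
    fun ν z hz => hT ν z (hT1 ν hz), hL1, hprime, hmax⟩ : Setup (Fin (N + 1) × Fin k)) m hm hX c
    hc a ha e he ?_ fun _ _ => rfl
  filter_upwards [hT2] with ν h z hz
  exact h z (hT1 ν hz)

theorem NS_false' (F : Frame) (N D r k : ℕ) (m : ℕ → ℕ)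
    (hm : ∀ C : ℕ, ∀ᶠ ν in (F.U : Filter ℕ), C ≤ m ν)
    (hX : ∀ C : ℕ, ∀ᶠ ν in (F.U : Filter ℕ), 2 ^ ((C * m ν + C + 1) ^ 2) ≤ F.X ν)
    (c : ℕ → Fin r → Exps N D → ℤ)
    (hc : ∀ᶠ ν in (F.U : Filter ℕ), ∀ s b, |c ν s b| ≤ (F.X ν : ℤ))
    (a : ℕ → Fin (N + 1) → ℤ) (ha : ∀ ν i, a ν i ≠ 0) (e : ℕ → Fin (N + 1) → Fin k → ℕ)
    (he : ∀ᶠ ν in (F.U : Filter ℕ), ∀ i j, m ν ≤ e ν i j ∧ (e ν i j : ℤ) ≤ (F.X ν : ℤ) ^ 2)
    (T : ℕ → Finset (Fin (N + 1) × Fin k → ℤ)) (hT : Bdd F T)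
    (hT2 : ∀ᶠ ν in (F.U : Filter ℕ), ∀ z ∈ T ν,
      (∀ i, |xval (a ν) (e ν) z i| ≤ (F.X ν : ℤ) ^ m ν) ∧
      (∀ s, fval (c ν s) (xval (a ν) (e ν) z) = 0) ∧ Prim (xval (a ν) (e ν) z) ∧
      NonDeg (c ν) (xval (a ν) (e ν) z))
    (hL : Large F (fun ν z => (Encodable.encode (xval (a ν) (e ν) z) : ℤ)) T) : False := by
  refine NS_falseU F N D r k 1 m hm hX c ?_ a ha e he T hT hT2 hL
  filter_upwards [hc, hm 1] with ν h1 h2 s b
  rw [one_mul]
  exact (h1 s b).trans (le_self_pow₀ (F.one_le ν) (by omega))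

end Pool.Agent.Helper85.VA
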