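import Pool.Agent.Helper85.VA.Api
import Pool.Agent.Helper91.CPX.CoeffDeriv

/-!
VA-B4a. Naturality of `nabla` and its class.

Proof. `nabla_map`, `den_map`: `map φ` is a ring homomorphism; `subst_map`, `coeffDeriv_map`, `gE_map` (CPX/CoeffDeriv.lean),
`MvPolynomial.pderiv_map`, `Polynomial.derivative_map`.
`cls_chain`: for `P` over `Zb F` and a derivation `δ` of `𝒮.L` over `K0`: `δ (𝒮.cls P) = ∑ v, 𝒮.cls (pderiv v P) * δ (𝒮.cls (X v))`.
Induction on `P` (`MvPolynomial.induction_on`): `δ (𝒮.cls (C a)) = 0` by `𝒮.cls_C` and `Derivation.map_algebraMap`; sums; products by a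
variable: Leibniz.
`cls_nabla`: put `D_v = 𝒮.cls (subst G v (ρ v)')`, `u_v = 𝒮.cls (subst G v (coeffDeriv j (ρ v)))`, `z_v = 𝒮.cls (X v)`, all `D_v, z_v ≠ 0`,
`δ z_v = - u_v / D_v`. Then `𝒮.cls (den G ρ) = ∏ D_v z_v` and
`𝒮.cls (nabla ..) = - (∏ z_v) ∑_v u_v 𝒮.cls (pderiv v W) ∏_{v' ≠ v} D_v' - 𝒮.cls W * ∑_v e_v u_v ∏_{v' ≠ v} (D_v' z_v')`
`= (∏ D_v z_v) (∑_v 𝒮.cls (pderiv v W) δ z_v + 𝒮.cls W ∑_v e_v δ z_v / z_v)` (`Finset.mul_prod_erase`).
-/

open MvPolynomial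

namespace Pool.Agent.Helper85.VA

open Pool.Agent.Helper91.CPX

theorem nabla_map {S S' : Type} [CommRing S] [CommRing S'] (φ : S →+* S') {ι : Type} [Fintype ι]
    [DecidableEq ι] {d : ℕ} (G : Fin d → MvPolynomial ι S)
    (ρ : ι → Polynomial (MvPolynomial (Fin d) S)) (j : Fin d) (e : ι → S)
    (W : MvPolynomial ι S) :
    map φ (nabla G ρ j e W) = nabla (fun j => map φ (G j)) (fun i => (ρ i).map (map φ)) j
      (fun i => φ (e i)) (map φ W) := by
  unfold nabla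
  simp only [map_neg, map_add, map_mul, map_sum, map_prod, map_X, subst_map, coeffDeriv_map,
    gE_map, pderiv_map, Polynomial.derivative_map]

theorem cls_chain {ι : Type} [Fintype ι] [DecidableEq ι] (𝒮 : Setup ι) (δ : 𝒮.Der)
    (P : MvPolynomial ι (Zb 𝒮.F)) :
    δ (𝒮.cls P) = ∑ v, 𝒮.cls (pderiv v P) * δ (𝒮.cls (X v)) := by
  induction P using MvPolynomial.induction_on with
  | C a =>
    rw [𝒮.cls_C, Derivation.map_algebraMap]
    refine (Finset.sum_eq_zero fun v _ => ?_).symm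
    rw [pderiv_C, map_zero, zero_mul]
  | add p q hp hq =>
    rw [map_add, map_add, hp, hq, ← Finset.sum_add_distrib]
    refine Finset.sum_congr rfl fun v _ => ?_
    rw [map_add, map_add, add_mul]
  | mul_X p i hp =>
    rw [map_mul, Derivation.leibniz, hp, smul_eq_mul, smul_eq_mul, Finset.mul_sum]
    have h1 : ∀ v, 𝒮.cls (pderiv v (p * X i)) * δ (𝒮.cls (X v)) =
        𝒮.cls (X i) * (𝒮.cls (pderiv v p) * δ (𝒮.cls (X v))) +
          (if v = i then 𝒮.cls p * δ (𝒮.cls (X v)) else 0) := by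
      intro v
      rw [pderiv_mul, map_add, map_mul, map_mul]
      split_ifs with h
      · subst h
        rw [pderiv_X_self, map_one]
        ring
      · rw [pderiv_X_of_ne (Ne.symm h), map_zero]
        ring
    rw [Finset.sum_congr rfl fun v _ => h1 v, Finset.sum_add_distrib, Finset.sum_ite_eq',
      if_pos (Finset.mem_univ i)]
    ring

theorem cls_den_ne {ι : Type} [Fintype ι] [DecidableEq ι] (𝒮 : Setup ι) {d : ℕ}
    (G : Fin d → MvPolynomial ι (Zb 𝒮.F))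
    (ρ : ι → Polynomial (MvPolynomial (Fin d) (Zb 𝒮.F)))
    (h3 : ∀ i, 𝒮.cls (subst G i (Polynomial.derivative (ρ i))) ≠ 0) :
    𝒮.cls (den G ρ) ≠ 0 := by
  unfold den
  rw [map_prod, Finset.prod_ne_zero_iff]
  intro v _
  rw [map_mul]
  exact mul_ne_zero (h3 v) (𝒮.cls_X_ne v)

theorem cls_nabla {ι : Type} [Fintype ι] [DecidableEq ι] (𝒮 : Setup ι) {d : ℕ}
    (G : Fin d → MvPolynomial ι (Zb 𝒮.F))
    (ρ : ι → Polynomial (MvPolynomial (Fin d) (Zb 𝒮.F))) (δ : Fin d → 𝒮.Der)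
    (h3 : ∀ i, 𝒮.cls (subst G i (Polynomial.derivative (ρ i))) ≠ 0)
    (h4 : ∀ i j, 𝒮.cls (subst G i (Polynomial.derivative (ρ i))) * δ j (𝒮.cls (X i)) =
      -𝒮.cls (subst G i (coeffDeriv j (ρ i)))) (j : Fin d) (e : ι → Zb 𝒮.F)
    (W : MvPolynomial ι (Zb 𝒮.F)) :
    𝒮.cls (nabla G ρ j e W) =
      𝒮.cls (den G ρ) * (δ j (𝒮.cls W) + 𝒮.om e (δ j) * 𝒮.cls W) := by
  have _ := h3
  set D : ι → 𝒮.L := fun v => 𝒮.cls (subst G v (Polynomial.derivative (ρ v))) with hD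
  set u : ι → 𝒮.L := fun v => 𝒮.cls (subst G v (coeffDeriv j (ρ v))) with hu
  set z : ι → 𝒮.L := fun v => 𝒮.cls (X v) with hz
  have hDu : ∀ v, D v * δ j (z v) = -u v := fun v => h4 v j
  have hz0 : ∀ v, z v ≠ 0 := fun v => 𝒮.cls_X_ne v
  have e1 : 𝒮.cls (den G ρ) = ∏ v, (D v * z v) := by
    unfold den
    rw [map_prod]
    exact Finset.prod_congr rfl fun v _ => by rw [map_mul]
  have e2 : 𝒮.cls (nabla G ρ j e W) =
      -((∏ v, z v) * ∑ v, u v * 𝒮.cls (pderiv v W) * ∏ v' ∈ Finset.univ.erase v, D v' +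
        𝒮.cls W * ∑ v, algebraMap (K0 𝒮.F) 𝒮.L (toK 𝒮.F (e v)) * u v *
          ∏ v' ∈ Finset.univ.erase v, (D v' * z v')) := by
    unfold nabla gE
    simp only [map_neg, map_add, map_mul, map_sum, map_prod, 𝒮.cls_C, hD, hu, hz]
  have p1 : (∏ v, (D v * z v)) * δ j (𝒮.cls W) =
      -((∏ v, z v) * ∑ v, u v * 𝒮.cls (pderiv v W) * ∏ v' ∈ Finset.univ.erase v, D v') := by
    rw [cls_chain, Finset.prod_mul_distrib, mul_comm (∏ v, D v), mul_assoc, Finset.mul_sum,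
      ← mul_neg, ← Finset.sum_neg_distrib]
    congr 1
    refine Finset.sum_congr rfl fun v _ => ?_
    rw [← Finset.mul_prod_erase Finset.univ D (Finset.mem_univ v)]
    have := hDu v
    linear_combination (∏ v' ∈ Finset.univ.erase v, D v') * 𝒮.cls (pderiv v W) * this
  have p2 : (∏ v, (D v * z v)) * 𝒮.om e (δ j) =
      -∑ v, algebraMap (K0 𝒮.F) 𝒮.L (toK 𝒮.F (e v)) * u v *
          ∏ v' ∈ Finset.univ.erase v, (D v' * z v') := by
    unfold Setup.om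
    rw [Finset.mul_sum, ← Finset.sum_neg_distrib]
    refine Finset.sum_congr rfl fun v _ => ?_
    rw [← Finset.mul_prod_erase Finset.univ (fun v => D v * z v) (Finset.mem_univ v)]
    have h5 : z v * (δ j (z v) / z v) = δ j (z v) := mul_div_cancel₀ _ (hz0 v)
    change D v * z v * (∏ v' ∈ Finset.univ.erase v, (D v' * z v')) *
      (algebraMap (K0 𝒮.F) 𝒮.L (toK 𝒮.F (e v)) * (δ j (z v) / z v)) = _
    have := hDu v
    linear_combination (∏ v' ∈ Finset.univ.erase v, (D v' * z v')) *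
      algebraMap (K0 𝒮.F) 𝒮.L (toK 𝒮.F (e v)) * D v * h5 +
      (∏ v' ∈ Finset.univ.erase v, (D v' * z v')) *
        algebraMap (K0 𝒮.F) 𝒮.L (toK 𝒮.F (e v)) * this
  rw [e2, e1, mul_add, p1, ← mul_assoc, p2]
  ring

end Pool.Agent.Helper85.VA
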