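import Pool.Agent.Helper85.VA.Stab
import Pool.Agent.Helper85.VA.Coords

/-!
VA-B6. The subspace of relations between the terms and its stability under all twisted derivations.

Definition. `relSet τ`: the vectors `w : β → 𝒮.L` for which there are polynomials `s`, `W_b` over `Zb F` with `𝒮.cls s ≠ 0`,
`𝒮.cls (W_b) = 𝒮.cls s * w b` and `∑ b, W_b(z) τ_b(z) = 0` outside a small set.
Proof. Subspace: zero: `s = 1, W = 0` (`𝒮.small_of_eventually`). Sum of `(s, W)` and `(s', W')`: `(s s', s' W + s W')`; outside the union of the two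
small sets `∑ (s' W_b + s W'_b)(z) τ_b(z) = s'(z) 0 + s(z) 0 = 0`. Multiple by `y ∈ 𝒮.L`, `𝒮.cls Q * y = 𝒮.cls P` (`𝒮.exists_frac`):
`(Q s, P W)`.
Stability for `δ_j` (of `exists_coords`): let `w` be given by `(s, W)`. By `stab`, `(1, N)` with `N_b = nabla G ρ j (EZ b) (W b)` gives an
element `n` of the subspace, `n b = 𝒮.cls (N_b) = 𝒮.cls (den G ρ) * (δ_j (𝒮.cls (W b)) + om_b(δ_j) 𝒮.cls (W b))` (`cls_nabla`). With `S = 𝒮.cls s`,
`𝒮.cls (W b) = S w_b`: `n b = 𝒮.cls den * (S δ_j w_b + (δ_j S) w_b + om_b S w_b)`, so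
`δ_j w_b + om_b w_b = (𝒮.cls den * S)⁻¹ n b - (δ_j S / S) w_b`: in the subspace. General `D = ∑ c_j δ_j`: `𝒮.om (EZ b) D = ∑ c_j 𝒮.om (EZ b) (δ_j)`
(apply the formula of `exists_coords` to `𝒮.cls (X v)`), so `D w_b + om_b(D) w_b = ∑_j c_j (δ_j w_b + om_b(δ_j) w_b)`.
-/

open MvPolynomial

namespace Pool.Agent.Helper85.VA

open Pool.Agent.Helper91.CPX

/-- The relations between the terms. -/
def relSet {ι : Type} [Fintype ι] [DecidableEq ι] {𝒮 : Setup ι} {β : Type} [Fintype β]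
    (τ : Terms 𝒮 β) : Set (β → 𝒮.L) :=
  {w | ∃ (s : MvPolynomial ι (Zb 𝒮.F)) (W : β → MvPolynomial ι (Zb 𝒮.F)), 𝒮.cls s ≠ 0 ∧
    (∀ b, 𝒮.cls (W b) = 𝒮.cls s * w b) ∧
    𝒮.Small (fun ν z => ∑ b, 𝒮.ev ν z (W b) * τ.val ν b z ≠ 0)}

/-- The relations between the terms form a subspace. -/
private def relSub {ι : Type} [Fintype ι] [DecidableEq ι] (𝒮 : Setup ι) {β : Type} [Fintype β]
    (τ : Terms 𝒮 β) : Submodule 𝒮.L (β → 𝒮.L) where
  carrier := relSet τ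
  zero_mem' := by
    refine ⟨1, fun _ => 0, ?_, fun b => ?_, ?_⟩
    · rw [map_one]; exact one_ne_zero
    · rw [map_zero, Pi.zero_apply, mul_zero]
    · refine 𝒮.small_of_eventually (Filter.Eventually.of_forall fun ν z _ h => h ?_)
      simp only [map_zero, zero_mul, Finset.sum_const_zero]
  add_mem' := by
    rintro w w' ⟨s, W, hs, hW, hS⟩ ⟨s', W', hs', hW', hS'⟩
    refine ⟨s * s', fun b => s' * W b + s * W' b, ?_, fun b => ?_, ?_⟩
    · rw [map_mul]; exact mul_ne_zero hs hs'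
    · rw [map_add, map_mul, map_mul, map_mul, hW, hW', Pi.add_apply]; ring
    · refine (hS.or hS').mono (Filter.Eventually.of_forall fun ν z _ h => ?_)
      by_contra hc
      push Not at hc
      apply h
      have e : ∑ b, 𝒮.ev ν z (s' * W b + s * W' b) * τ.val ν b z =
          𝒮.ev ν z s' * ∑ b, 𝒮.ev ν z (W b) * τ.val ν b z +
            𝒮.ev ν z s * ∑ b, 𝒮.ev ν z (W' b) * τ.val ν b z := by
        rw [Finset.mul_sum, Finset.mul_sum, ← Finset.sum_add_distrib]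
        refine Finset.sum_congr rfl fun b _ => ?_
        rw [map_add, map_mul, map_mul]; ring
      rw [e, hc.1, hc.2, mul_zero, mul_zero, add_zero]
  smul_mem' := by
    rintro y w ⟨s, W, hs, hW, hS⟩
    obtain ⟨P, Q, hQ, hPQ⟩ := 𝒮.exists_frac y
    refine ⟨Q * s, fun b => P * W b, ?_, fun b => ?_, ?_⟩
    · rw [map_mul]; exact mul_ne_zero hQ hs
    · rw [map_mul, map_mul, hW, ← hPQ, Pi.smul_apply, smul_eq_mul]; ring
    · refine hS.mono (Filter.Eventually.of_forall fun ν z _ h => ?_)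
      intro hc
      apply h
      have e : ∑ b, 𝒮.ev ν z (P * W b) * τ.val ν b z =
          𝒮.ev ν z P * ∑ b, 𝒮.ev ν z (W b) * τ.val ν b z := by
        rw [Finset.mul_sum]
        refine Finset.sum_congr rfl fun b _ => ?_
        rw [map_mul]; ring
      rw [e, hc, mul_zero]

private theorem om_sum {ι : Type} [Fintype ι] [DecidableEq ι] (𝒮 : Setup ι) {d : ℕ}
    (δ : Fin d → 𝒮.Der) (D : 𝒮.Der) (c : Fin d → 𝒮.L) (hc : ∀ y, D y = ∑ j, c j * δ j y)
    (e : ι → Zb 𝒮.F) : 𝒮.om e D = ∑ j, c j * 𝒮.om e (δ j) := by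
  simp only [Setup.om, hc, Finset.mul_sum, Finset.sum_div]
  rw [Finset.sum_comm]
  refine Finset.sum_congr rfl fun j _ => Finset.sum_congr rfl fun v _ => ?_
  ring

theorem exists_relMod {ι : Type} [Fintype ι] [DecidableEq ι] (𝒮 : Setup ι) {β : Type} [Fintype β]
    (τ : Terms 𝒮 β) :
    ∃ W : Submodule 𝒮.L (β → 𝒮.L), (∀ w, w ∈ W ↔ w ∈ relSet τ) ∧
      ∀ D : 𝒮.Der, ∀ w ∈ W, (fun b => D (w b) + 𝒮.om (τ.EZ b) D * w b) ∈ W := by
  refine ⟨relSub 𝒮 τ, fun w => Iff.rfl, ?_⟩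
  obtain ⟨d, G, ρ, δ, hinj, h2, h3, h4, h5⟩ := exists_coords 𝒮
  have key : ∀ j, ∀ w ∈ relSub 𝒮 τ,
      (fun b => δ j (w b) + 𝒮.om (τ.EZ b) (δ j) * w b) ∈ relSub 𝒮 τ := by
    intro j w hw
    obtain ⟨s, W, hs, hW, hS⟩ := hw
    have hn : (fun b => 𝒮.cls (nabla G ρ j (τ.EZ b) (W b))) ∈ relSub 𝒮 τ := by
      refine ⟨1, fun b => nabla G ρ j (τ.EZ b) (W b), ?_, fun b => ?_, ?_⟩
      · rw [map_one]; exact one_ne_zero
      · rw [map_one, one_mul]
      · exact stab 𝒮 τ G ρ hinj h2 j W hS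
    have hden := cls_den_ne 𝒮 G ρ h3
    have hw' : w ∈ relSub 𝒮 τ := ⟨s, W, hs, hW, hS⟩
    have e : (fun b => δ j (w b) + 𝒮.om (τ.EZ b) (δ j) * w b) =
        (𝒮.cls (den G ρ) * 𝒮.cls s)⁻¹ • (fun b => 𝒮.cls (nabla G ρ j (τ.EZ b) (W b))) +
          (-(δ j (𝒮.cls s) / 𝒮.cls s)) • w := by
      funext b
      rw [Pi.add_apply, Pi.smul_apply, Pi.smul_apply, smul_eq_mul, smul_eq_mul,
        cls_nabla 𝒮 G ρ δ h3 h4 j, hW, Derivation.leibniz, smul_eq_mul, smul_eq_mul]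
      field_simp
      ring
    rw [e]
    exact Submodule.add_mem _ (Submodule.smul_mem _ _ hn) (Submodule.smul_mem _ _ hw')
  intro D w hw
  obtain ⟨c, hc⟩ := h5 D
  have e : (fun b => D (w b) + 𝒮.om (τ.EZ b) D * w b) =
      ∑ j, c j • (fun b => δ j (w b) + 𝒮.om (τ.EZ b) (δ j) * w b) := by
    funext b
    rw [Finset.sum_apply, hc, om_sum 𝒮 δ D c hc, Finset.sum_mul, ← Finset.sum_add_distrib]
    refine Finset.sum_congr rfl fun j _ => ?_
    rw [Pi.smul_apply, smul_eq_mul]; ring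
  rw [e]
  exact Submodule.sum_mem _ fun j _ => Submodule.smul_mem _ _ (key j w hw)

end Pool.Agent.Helper85.VA
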