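import Pool.Agent.Helper85.VA.Nabla
import Pool.Agent.Helper85.VA.JacF
import Pool.Agent.Helper91.CPX.NSFalse

/-!
VA-B5. STABILITY: a relation between the terms can be differentiated.

Proof. (Compare the last part of `NS_false` in CPX/NSFalse.lean, from `obtain ⟨δ, hδ, hcard⟩ := hL2` on.) Put
`S(z) = ∑ b, W_b(z) τ_b(z)`, `N(z) = ∑ b, N_b(z) τ_b(z)`, `N_b = nabla G ρ j (EZ b) (W b)`. Suppose `{N ≠ 0}` is not small. As
`{S ≠ 0}` is small, `Q1 = {N ≠ 0 ∧ S = 0}` is not small (`Setup.Small.or`, `Setup.Small.mono`). So `Large F M (𝒮.sub Q1)`: `δ > 0` with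
`X^δ ≤ card M(𝒮.sub Q1 ν)` for almost all `ν`. Apply `drop ι d K1 δ` (K1: `poly_bound` for the `G j`, as `hCG'` there) and
`no_drop F M T bdd max G hinj D K' (δ/2)`: for almost all `ν` we apply `drop` with `T := 𝒮.sub Q1 ν`, `M := M ν`,
`G := map (evAt F ν) ∘ G`, `g a := a.elim (rename Sum.inr (relPoly (t ν) (E ν) (fun b => map (evAt F ν) (W b)))) (fun i => conv i ((ρ i).map (map (evAt F ν))))`,
`j0 := j`, `N1 := τ.G ν + C` with a constant `C`, `2 ^ ((N1 + 1)^2) ≤ X ν` by `τ.hG C`.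
(i) `g a` vanishes at `graphPt G z`: for `none` by `eval_relPoly` and `S(z) = 0`; for `some i` by `conv_eval`, `subst_map` and `h2` with
`𝒮.cls_eq_zero_iff`. (ii) By `jac_formula'` and `nabla_map` (and `τ.hEZ`): `(∏ z) * jac = N(z) ≠ 0`, so `jac ≠ 0`.
(iii) `∏ z ≥ 1`, so `|jac| ≤ |N(z)| ≤ ∑ b |N_b(z)| |τ_b(z)| ≤ card β * X^(CN) * X^(G ν) ≤ X^(card β + CN + G ν)`, where `CN` is a
common exponent from `poly_bound` for the finitely many polynomials `N_b`, `τ.hτ`, and `card β ≤ 2^(card β) ≤ X^(card β)`. So `C = card β + CN`.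
-/

open MvPolynomial

namespace Pool.Agent.Helper85.VA

open Pool.Agent.Helper91.CPX

theorem stab {ι : Type} [Fintype ι] [DecidableEq ι] (𝒮 : Setup ι) {β : Type} [Fintype β]
    (τ : Terms 𝒮 β) {d : ℕ} (G : Fin d → MvPolynomial ι (Zb 𝒮.F))
    (ρ : ι → Polynomial (MvPolynomial (Fin d) (Zb 𝒮.F)))
    (hinj : ∀ c : MvPolynomial (Fin d) (K0 𝒮.F),
      aeval (fun j => map (toK 𝒮.F) (G j)) c ∈ vanIdeal 𝒮.F 𝒮.T → c = 0)
    (h2 : ∀ i, 𝒮.cls (subst G i (ρ i)) = 0) (j : Fin d) (W : β → MvPolynomial ι (Zb 𝒮.F))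
    (hW : 𝒮.Small (fun ν z => ∑ b, 𝒮.ev ν z (W b) * τ.val ν b z ≠ 0)) :
    𝒮.Small (fun ν z =>
      ∑ b, 𝒮.ev ν z (nabla G ρ j (τ.EZ b) (W b)) * τ.val ν b z ≠ 0) := by
  classical
  intro hL
  -- the points with `N ≠ 0` and `S = 0` are not a small set
  have hQ1 : Large 𝒮.F 𝒮.M (𝒮.sub (fun ν z =>
      ∑ b, 𝒮.ev ν z (nabla G ρ j (τ.EZ b) (W b)) * τ.val ν b z ≠ 0 ∧
        ∑ b, 𝒮.ev ν z (W b) * τ.val ν b z = 0)) := by
    by_contra h
    have h' : 𝒮.Small (fun ν z =>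
      ∑ b, 𝒮.ev ν z (nabla G ρ j (τ.EZ b) (W b)) * τ.val ν b z ≠ 0 ∧
        ∑ b, 𝒮.ev ν z (W b) * τ.val ν b z = 0) := h
    refine (h'.or hW).mono (Filter.Eventually.of_forall fun ν z _ h1 => ?_) hL
    by_cases h3 : ∑ b, 𝒮.ev ν z (W b) * τ.val ν b z = 0
    · exact Or.inl ⟨h1, h3⟩
    · exact Or.inr h3
  obtain ⟨δ, hδ, hcard⟩ := hQ1
  -- polynomial bounds
  choose CG hCG using fun j => poly_bound 𝒮.F 𝒮.T 𝒮.bdd (G j)
  choose CN hCN using fun b => poly_bound 𝒮.F 𝒮.T 𝒮.bdd (nabla G ρ j (τ.EZ b) (W b))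
  have hCG' : ∀ᶠ ν in (𝒮.F.U : Filter ℕ), ∀ z ∈ 𝒮.T ν, ∀ j,
      |eval z (map (evAt 𝒮.F ν) (G j))| ≤ (𝒮.F.X ν : ℤ) ^ (∑ j, CG j) := by
    have h1 := Filter.eventually_all.mpr hCG
    filter_upwards [h1] with ν h2 z hz j
    exact (h2 j z hz).trans (𝒮.F.pow_mono ν (Finset.single_le_sum (fun _ _ => Nat.zero_le _)
      (Finset.mem_univ j)))
  have hCN' : ∀ᶠ ν in (𝒮.F.U : Filter ℕ), ∀ z ∈ 𝒮.T ν, ∀ b,
      |eval z (map (evAt 𝒮.F ν) (nabla G ρ j (τ.EZ b) (W b)))| ≤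
        (𝒮.F.X ν : ℤ) ^ (∑ b, CN b) := by
    have h1 := Filter.eventually_all.mpr hCN
    filter_upwards [h1] with ν h2 z hz b
    exact (h2 b z hz).trans (𝒮.F.pow_mono ν (Finset.single_le_sum (fun _ _ => Nat.zero_le _)
      (Finset.mem_univ b)))
  have hρ' : ∀ᶠ ν in (𝒮.F.U : Filter ℕ), ∀ i, ∀ z ∈ 𝒮.T ν,
      eval z (map (evAt 𝒮.F ν) (subst G i (ρ i))) = 0 :=
    Filter.eventually_all.mpr fun i => (𝒮.cls_eq_zero_iff _).mp (h2 i)
  obtain ⟨D, K', X0, hdrop⟩ := drop ι d (∑ j, CG j) δ hδ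
  refine no_drop 𝒮.F 𝒮.M 𝒮.T 𝒮.bdd 𝒮.max G hinj D K' (δ / 2) (by positivity) ?_
  filter_upwards [hcard, hCG', hCN', hρ', 𝒮.F.tends X0, τ.hG (Fintype.card β + ∑ b, CN b), τ.hτ] with
    ν hcard hCG hCN hρ hX0 hGν hτ
  have hd := hdrop (𝒮.F.X ν) hX0 (τ.G ν + (Fintype.card β + ∑ b, CN b)) hGν
    (𝒮.sub (fun ν z =>
      ∑ b, 𝒮.ev ν z (nabla G ρ j (τ.EZ b) (W b)) * τ.val ν b z ≠ 0 ∧
        ∑ b, 𝒮.ev ν z (W b) * τ.val ν b z = 0) ν) (𝒮.M ν)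
    (fun j => map (evAt 𝒮.F ν) (G j))
    (fun a => a.elim (rename Sum.inr (relPoly (τ.t ν) (τ.E ν) (fun b => map (evAt 𝒮.F ν) (W b))))
      (fun i => conv i ((ρ i).map (map (evAt 𝒮.F ν))))) j
  refine Exists.imp (fun T' h => ⟨h.1.trans (𝒮.sub_subset ν), h.2⟩) (hd ?_ ?_ ?_ hcard)
  · intro z hz j
    exact hCG z (𝒮.mem_sub.mp hz).1 j
  · intro z hz a
    obtain ⟨hz1, -, hz3⟩ := 𝒮.mem_sub.mp hz
    rcases a with _ | i
    · change eval (graphPt (fun j => map (evAt 𝒮.F ν) (G j)) z)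
        (rename Sum.inr (relPoly (τ.t ν) (τ.E ν) (fun b => map (evAt 𝒮.F ν) (W b)))) = 0
      rw [eval_relPoly]
      exact hz3
    · change eval (graphPt (fun j => map (evAt 𝒮.F ν) (G j)) z)
        (conv i ((ρ i).map (map (evAt 𝒮.F ν)))) = 0
      rw [conv_eval, ← subst_map]
      exact hρ i z hz1
  · intro z hz
    obtain ⟨hz1, hz2, -⟩ := 𝒮.mem_sub.mp hz
    have hform := jac_formula' (τ.t ν) (τ.E ν) (fun b => map (evAt 𝒮.F ν) (W b))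
      (fun j => map (evAt 𝒮.F ν) (G j)) (fun i => (ρ i).map (map (evAt 𝒮.F ν))) j z
    have hN : ∀ b, nabla (fun j => map (evAt 𝒮.F ν) (G j)) (fun i => (ρ i).map (map (evAt 𝒮.F ν))) j
        (fun v => ((τ.E ν b v : ℕ) : ℤ)) (map (evAt 𝒮.F ν) (W b)) =
        map (evAt 𝒮.F ν) (nabla G ρ j (τ.EZ b) (W b)) := by
      intro b
      rw [nabla_map]
      congr 1
      funext v
      exact (τ.hEZ ν b v).symm
    simp only [hN] at hform
    have hz2' : ∑ b, eval z (map (evAt 𝒮.F ν) (nabla G ρ j (τ.EZ b) (W b))) *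
        (τ.t ν b * ∏ v, z v ^ τ.E ν b v) ≠ 0 := hz2
    rw [← hform] at hz2'
    set J := jac (fun a : Option ι =>
        a.elim (rename Sum.inr (relPoly (τ.t ν) (τ.E ν) (fun b => map (evAt 𝒮.F ν) (W b))))
          (fun i => conv i ((ρ i).map (map (evAt 𝒮.F ν)))))
        j (graphPt (fun j => map (evAt 𝒮.F ν) (G j)) z) with hJ
    have hP : 1 ≤ ∏ i, z i := by
      have : ∀ s : Finset ι, 1 ≤ ∏ i ∈ s, z i := by
        intro s
        induction s using Finset.induction_on with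
        | empty => simp
        | insert i s hi ih =>
          rw [Finset.prod_insert hi]
          nlinarith [(𝒮.bdd ν z hz1 i).1]
      exact this _
    have hX1 := 𝒮.F.one_le ν
    have hX2 := 𝒮.F.two_le' ν
    refine ⟨fun h0 => hz2' (by rw [h0, mul_zero]), ?_⟩
    have h1 : |J| ≤ (∏ i, z i) * |J| := by nlinarith [abs_nonneg J]
    have h3 : (∏ i, z i) * |J| = |(∏ i, z i) * J| := by
      rw [abs_mul, abs_of_nonneg (by linarith : (0 : ℤ) ≤ ∏ i, z i)]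
    rw [h3, hform] at h1
    have h4 : |∑ b, eval z (map (evAt 𝒮.F ν) (nabla G ρ j (τ.EZ b) (W b))) *
        (τ.t ν b * ∏ v, z v ^ τ.E ν b v)| ≤
        ∑ _b : β, (𝒮.F.X ν : ℤ) ^ (∑ b, CN b) * (𝒮.F.X ν : ℤ) ^ τ.G ν := by
      refine (Finset.abs_sum_le_sum_abs _ _).trans (Finset.sum_le_sum fun b _ => ?_)
      rw [abs_mul]
      exact mul_le_mul (hCN z hz1 b) (hτ z hz1 b) (abs_nonneg _) (by positivity)
    rw [Finset.sum_const, Finset.card_univ, nsmul_eq_mul] at h4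
    have h5 : ((Fintype.card β : ℕ) : ℤ) ≤ (𝒮.F.X ν : ℤ) ^ Fintype.card β := by
      have h6 : Fintype.card β < 2 ^ Fintype.card β := Nat.lt_two_pow_self
      have h7 : (2 : ℤ) ^ Fintype.card β ≤ (𝒮.F.X ν : ℤ) ^ Fintype.card β :=
        pow_le_pow_left₀ (by norm_num) hX2 _
      have h8 : ((Fintype.card β : ℕ) : ℤ) ≤ (2 : ℤ) ^ Fintype.card β := by exact_mod_cast h6.le
      exact h8.trans h7
    calc |J| ≤ _ := h1
      _ ≤ _ := h4
      _ ≤ (𝒮.F.X ν : ℤ) ^ Fintype.card β *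
          ((𝒮.F.X ν : ℤ) ^ (∑ b, CN b) * (𝒮.F.X ν : ℤ) ^ τ.G ν) :=
        mul_le_mul_of_nonneg_right h5 (by positivity)
      _ = _ := by
        rw [← pow_add, ← pow_add]
        congr 1
        ring

end Pool.Agent.Helper85.VA
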