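import Pool.Agent.Helper91.CPX.Trace

/-!
VA-A5. The trace of a logarithmic derivative.

Proof. Let `f = minpoly E z`, monic, `f(z) = 0`, and `f^D` the polynomial with coefficients `D0 (f.coeff i)`
(`∑ i ∈ f.support, monomial i (D0 (f.coeff i))`, or `f.sum ..`), of degree `< deg f` because `f` is monic (`D0 1 = 0`). Applying
`D` to `f(z) = 0`: `f^D(z) + f'(z) D z = 0`. `f'(z) ≠ 0` since `f` is separable (char 0). So
`D z / z = - f^D(z) / (f'(z) z)`, and `Pool.Agent.Helper91.CPX.trace_step z hz` (with `K := E`) for `g = - f^D` gives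
`n > 0` with `trace (D z / z) = - (n * (- D0 (f.coeff 0))) / f.coeff 0 = n * D0 (f.coeff 0) / f.coeff 0`.
`coeff_ne`: `minpoly.coeff_zero_ne_zero`.
-/

open Polynomial

namespace Pool.Agent.Helper85.VA

private theorem deriv_aeval {E L : Type} [Field E] [Field L] [Algebra E L]
    (D : Derivation ℤ L L) (D0 : Derivation ℤ E E)
    (hD : ∀ c : E, D (algebraMap E L c) = algebraMap E L (D0 c)) (z : L) (f : E[X]) {N : ℕ}
    (hN : f.natDegree < N) :
    D (aeval z f) = aeval z (∑ i ∈ Finset.range N, C (D0 (f.coeff i)) * X ^ i) +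
      aeval z (derivative f) * D z := by
  have e : f = ∑ i ∈ Finset.range N, C (f.coeff i) * X ^ i :=
    f.as_sum_range_C_mul_X_pow' hN
  have e1 : aeval z f = ∑ i ∈ Finset.range N, algebraMap E L (f.coeff i) * z ^ i := by
    conv_lhs => rw [e]
    simp only [map_sum, map_mul, aeval_C, map_pow, aeval_X]
  have e2 : aeval z (derivative f) =
      ∑ i ∈ Finset.range N, algebraMap E L (f.coeff i) * ((i : L) * z ^ (i - 1)) := by
    conv_lhs => rw [e]
    simp only [map_sum, derivative_C_mul_X_pow, map_mul, aeval_C, map_pow,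
      aeval_X, map_natCast, mul_assoc]
  rw [e1, e2, map_sum, map_sum, Finset.sum_mul, ← Finset.sum_add_distrib]
  refine Finset.sum_congr rfl fun i _ => ?_
  rw [Derivation.leibniz, Derivation.leibniz_pow, hD, map_mul, aeval_C, map_pow, aeval_X]
  simp only [smul_eq_mul, nsmul_eq_mul]
  ring

theorem trace_log {E L : Type} [Field E] [Field L] [CharZero E] [Algebra E L]
    [FiniteDimensional E L] (D : Derivation ℤ L L) (D0 : Derivation ℤ E E)
    (hD : ∀ c : E, D (algebraMap E L c) = algebraMap E L (D0 c)) (z : L) (hz : z ≠ 0) :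
    ∃ n : ℕ, 0 < n ∧ Algebra.trace E L (D z / z) =
      (n : E) * (D0 ((minpoly E z).coeff 0) / (minpoly E z).coeff 0) := by
  obtain ⟨n, hn, htr⟩ := Pool.Agent.Helper91.CPX.trace_step (K := E) z hz
  refine ⟨n, hn, ?_⟩
  have hz' : IsIntegral E z := Algebra.IsIntegral.isIntegral z
  have hfm : (minpoly E z).Monic := minpoly.monic hz'
  have hfi : Irreducible (minpoly E z) := minpoly.irreducible hz'
  have hsep : (minpoly E z).Separable := hfi.separable
  have hd' : aeval z (derivative (minpoly E z)) ≠ 0 :=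
    hsep.aeval_derivative_ne_zero (minpoly.aeval E z)
  have hpos : 0 < (minpoly E z).natDegree := minpoly.natDegree_pos hz'
  set f := minpoly E z with hf
  have h1 := deriv_aeval D D0 hD z f (Nat.lt_succ_self f.natDegree)
  rw [Finset.sum_range_succ, coeff_natDegree, hfm.leadingCoeff, Derivation.map_one_eq_zero,
    C_0, zero_mul, add_zero, hf, minpoly.aeval, map_zero, ← hf] at h1
  set g : E[X] := ∑ i ∈ Finset.range f.natDegree, C (D0 (f.coeff i)) * X ^ i with hg
  have hgd : (-g).degree < f.degree := by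
    rw [degree_neg, degree_eq_natDegree hfm.ne_zero]
    refine (degree_sum_le _ _).trans_lt ?_
    rw [Finset.sup_lt_iff (WithBot.bot_lt_coe _)]
    intro i hi
    exact (degree_C_mul_X_pow_le i _).trans_lt
      (by exact_mod_cast (Finset.mem_range.1 hi))
  have hg0 : (-g).coeff 0 = -D0 (f.coeff 0) := by
    rw [coeff_neg, hg, finsetSum_coeff, Finset.sum_eq_single_of_mem 0 (Finset.mem_range.2 hpos)]
    · rw [coeff_C_mul, coeff_X_pow_self, mul_one]
    · intro i _ hi
      rw [coeff_C_mul, coeff_X_pow, if_neg hi.symm, mul_zero]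
  have h2 : D z / z = aeval z (-g) / (aeval z (derivative f) * z) := by
    rw [map_neg]
    have h3 : aeval z g = -(aeval z (derivative f) * D z) := eq_neg_of_add_eq_zero_left h1.symm
    rw [h3, neg_neg, mul_div_mul_left _ _ hd']
  rw [h2, htr (-g) hgd, hg0]
  ring

end Pool.Agent.Helper85.VA
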